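import Mathlib

/-!
# Project SG: C*-algebras with a subexponential filtration are nuclear (S06755)

Definitions and statements of the parts. Nothing but Mathlib below.
-/

set_option autoImplicit false

namespace Pool.Agent.N635.SG

open scoped ComplexOrder
open Filter

noncomputable section

/-- States of a C*-algebra. -/
structure St (A : Type) [CStarAlgebra A] (ω : A →ₗ[ℂ] ℂ) : Prop where
  pos : ∀ x : A, 0 ≤ ω (star x * x)
  one : ω 1 = 1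

/-- Operators on the Hilbert space of dimension `k`. -/
abbrev Op (k : ℕ) := EuclideanSpace ℂ (Fin k) →L[ℂ] EuclideanSpace ℂ (Fin k)

/-- Matrix entries of an operator. -/
def ent {k : ℕ} (b : Op k) (i j : Fin k) : ℂ := (b (EuclideanSpace.single j (1 : ℂ))) i

/-- `B` has operator norm at most `β`, as a sesquilinear form. -/
def FB {I : Type} [Fintype I] (B : I → I → ℂ) (β : ℝ) : Prop :=
  ∀ c c' : I → ℂ, ‖∑ i, ∑ k, star (c' i) * B i k * c k‖ ≤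
    β * (Real.sqrt (∑ i, ‖c' i‖ ^ 2) * Real.sqrt (∑ k, ‖c k‖ ^ 2))

/-- ST: states attaining the norm. -/
def S_ST : Prop :=
  ∀ (A : Type) [CStarAlgebra A] [Nontrivial A] (x : A),
    ∃ ω : A →ₗ[ℂ] ℂ, St A ω ∧ ω (star x * x) = ((‖x‖ ^ 2 : ℝ) : ℂ)

/-- BAS: basic properties of states. -/
def S_BAS : Prop :=
  ∀ (A : Type) [CStarAlgebra A] (ω : A →ₗ[ℂ] ℂ), St A ω →
    (∀ x : A, ω (star x) = star (ω x)) ∧
    (∀ x : A, ‖ω x‖ ≤ ‖x‖) ∧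
    (∀ x y : A, ‖ω (star y * x)‖ ^ 2 ≤ (ω (star y * y)).re * (ω (star x * x)).re) ∧
    (∀ a x : A, (ω (star (a * x) * (a * x))).re ≤ ‖a‖ ^ 2 * (ω (star x * x)).re)

/-- OPT: on a finite-dimensional subspace of dimension `d` the norm is bounded by `√(6 d)` times
the 2-norm of a suitable state (nearly D-optimal design, Kiefer-Wolfowitz). -/
def S_OPT : Prop :=
  ∀ (A : Type) [CStarAlgebra A] [Nontrivial A] (E : Submodule ℂ A) [FiniteDimensional ℂ E],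
    ∃ ω : A →ₗ[ℂ] ℂ, St A ω ∧
      ∀ x ∈ E, ‖x‖ ^ 2 ≤ 6 * (Module.finrank ℂ E : ℝ) * (ω (star x * x)).re

/-- MIX: one state for a sequence of finite-dimensional subspaces. -/
def S_MIX : Prop :=
  ∀ (A : Type) [CStarAlgebra A] [Nontrivial A] (E : ℕ → Submodule ℂ A),
    (∀ n, FiniteDimensional ℂ (E n)) →
    ∃ ω : A →ₗ[ℂ] ℂ, St A ω ∧
      ∀ n, ∀ x ∈ E n, ‖x‖ ^ 2 ≤
        6 * (((n : ℝ) + 1) * ((n : ℝ) + 2) * (Module.finrank ℂ (E n) : ℝ)) * (ω (star x * x)).re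

/-- An orthonormal basis of `F L` adapted to the filtration `F 0 ≤ F 1 ≤ ... ≤ F L`. -/
structure Flag {A : Type} [CStarAlgebra A] (ω : A →ₗ[ℂ] ℂ) (F : ℕ → Submodule ℂ A) (L : ℕ)
    {K : ℕ} (e : Fin K → A) (lv : Fin K → ℕ) (i0 : Fin K) : Prop where
  one : e i0 = 1
  lv0 : lv i0 = 0
  lv_le : ∀ i, lv i ≤ L
  mem : ∀ i, e i ∈ F (lv i)
  on : ∀ i j, ω (star (e i) * e j) = if i = j then 1 else 0
  rep : ∀ n ≤ L, ∀ x ∈ F n, x = ∑ i, ω (star (e i) * x) • e i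
  zero : ∀ n ≤ L, ∀ x ∈ F n, ∀ i, n < lv i → ω (star (e i) * x) = 0
  card : ∀ n ≤ L, (Finset.univ.filter fun i => lv i ≤ n).card = Module.finrank ℂ (F n)

/-- FLAG: existence of adapted orthonormal bases. -/
def S_FLAG : Prop :=
  ∀ (A : Type) [CStarAlgebra A] [Nontrivial A] (ω : A →ₗ[ℂ] ℂ) (F : ℕ → Submodule ℂ A) (L : ℕ),
    St A ω → Monotone F → F 0 = Submodule.span ℂ {(1 : A)} →
    (∀ n : ℕ, FiniteDimensional ℂ (F n)) →
    (∀ n : ℕ, ∀ x ∈ F n, (ω (star x * x)).re ≤ 0 → x = 0) →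
    ∃ (K : ℕ) (e : Fin K → A) (lv : Fin K → ℕ) (i0 : Fin K), Flag ω F L e lv i0

/-- CS: Cauchy-Schwarz inequality with a scalar matrix. -/
def S_CS : Prop :=
  ∀ (A : Type) [CStarAlgebra A] (I J : Type) [Fintype I] [Fintype J] (B : I → I → ℂ) (β : ℝ)
    (x y : J → I → A), 0 ≤ β → FB B β →
    ‖∑ j, ∑ i, ∑ k, B i k • (x j i * star (y j k))‖ ≤
      β * (Real.sqrt ‖∑ j, ∑ i, x j i * star (x j i)‖ *
        Real.sqrt ‖∑ j, ∑ i, y j i * star (y j i)‖)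

/-- SCH: Schur multipliers which depend on the difference of the levels, for band matrices. -/
def S_SCH : Prop :=
  ∀ (I : Type) [Fintype I] (B : I → I → ℂ) (β γ : ℝ) (lv : I → ℕ) (m : ℕ) (g : ℤ → ℝ),
    0 ≤ β → 0 ≤ γ → FB B β → (∀ i k, B i k ≠ 0 → lv i ≤ lv k + m ∧ lv k ≤ lv i + m) →
    (∀ t : ℤ, |t| ≤ m → |g t| ≤ γ) →
    FB (fun i k => ((g ((lv i : ℤ) - (lv k : ℤ)) : ℝ) : ℂ) * B i k) ((2 * m + 1) * γ * β)

/-- RES: resolvents of an element `H ≥ 1` and a Riemann sum for `∫ H (H + s)⁻² ds = 1`. -/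
def S_RES : Prop :=
  ∀ (A : Type) [CStarAlgebra A] [Nontrivial A] (I : Type) [Fintype I] (x : I → A) (i0 : I) (H : A)
    (h : ℝ) (M : ℕ), x i0 = 1 → H = ∑ i, x i * star (x i) → 0 < h → h ≤ 1 →
    ∃ R : Fin M → A, (∀ j, star (R j) = R j) ∧ (∀ j, R j * H = H * R j) ∧
      (∀ j, R j * (H + ((((j : ℕ) : ℝ) + 1) * h : ℝ) • (1 : A)) = 1) ∧
      (∀ j, ‖H * R j‖ ≤ 1) ∧ (∑ j, h * ‖R j‖ ^ 2 ≤ 1) ∧
      ‖∑ j, h • (R j * H * R j)‖ ≤ 1 ∧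
      ‖1 - ∑ j, h • (H * R j * R j)‖ ≤ h + ‖H‖ / (h * (M + 1)) ∧
      ‖∑ j, h • ((H * R j) * (R j * H * R j) * (H * R j))‖ ≤ 1

/-- SQ: Gram matrices are squares in matrix algebras. -/
def S_SQ : Prop :=
  ∀ (A : Type) [CStarAlgebra A] (n : ℕ) (Q : Type) [Fintype Q] (Z : Q → Fin n → A),
    ∃ z : Matrix (Fin n) (Fin n) A, ∀ a b, ∑ q, star (Z q a) * Z q b = (z.conjTranspose * z) a b

/-- PSI: the map from the matrices to the algebra. -/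
def S_PSI : Prop :=
  ∀ (A : Type) [CStarAlgebra A] (k : ℕ) (P : Type) [Fintype P] (x : P → Fin k → A),
    ‖∑ p, ∑ i, x p i * star (x p i)‖ ≤ 1 →
    ∃ ψ : Op k →ₗ[ℂ] A,
      (∀ b, ψ b = ∑ p, ∑ i, ∑ j, ent b i j • (x p i * star (x p j))) ∧
      (∀ (n : ℕ) (y : Matrix (Fin n) (Fin n) (Op k)),
          ∃ z : Matrix (Fin n) (Fin n) A,
            (y.conjTranspose * y).map (⇑ψ) = z.conjTranspose * z) ∧
      ∀ b, ‖ψ b‖ ≤ ‖b‖

/-- PHI: the compression to a finite-dimensional subspace of the GNS space. -/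
def S_PHI : Prop :=
  ∀ (A : Type) [CStarAlgebra A] (ω : A →ₗ[ℂ] ℂ) (k : ℕ) (e : Fin k → A), St A ω →
    (∀ i j, ω (star (e i) * e j) = if i = j then 1 else 0) →
    ∃ φ : A →ₗ[ℂ] Op k,
      (∀ a i j, ent (φ a) i j = ω (star (e i) * (a * e j))) ∧
      (∀ (n : ℕ) (y : Matrix (Fin n) (Fin n) A),
          ∃ z : Matrix (Fin n) (Fin n) (Op k),
            (y.conjTranspose * y).map (⇑φ) = z.conjTranspose * z) ∧
      ∀ a, ‖φ a‖ ≤ ‖a‖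

/-- SUB: subexponential growth. -/
def S_SUB : Prop :=
  ∀ (d : ℕ → ℕ), Tendsto (fun n : ℕ => ((d n : ℕ) : ℝ) ^ (1 / (n : ℝ))) atTop (nhds 1) →
    ∀ (ε : ℝ) (m : ℕ), 0 < ε →
      Tendsto (fun N : ℕ => (d N : ℝ) * Real.exp (-(ε * ((N : ℝ) - m))) *
        ((((N + m : ℕ) : ℝ) + 1) * (((N + m : ℕ) : ℝ) + 2) * (d (N + m) : ℝ))) atTop (nhds 0)

/-- The weights: `e^{-ε n}` up to the level `N`. -/
def kap (ε : ℝ) (N n : ℕ) : ℝ := if n ≤ N then Real.exp (-(ε * n)) else 0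

/-- ERR: the error estimate. -/
def S_ERR : Prop :=
  ∀ (A : Type) [CStarAlgebra A] [Nontrivial A] (ω : A →ₗ[ℂ] ℂ) (F : ℕ → Submodule ℂ A) (N m : ℕ)
    (K : ℕ) (e : Fin K → A) (lv : Fin K → ℕ) (i0 : Fin K) (C : ℕ → ℝ) (ε h : ℝ) (M : ℕ)
    (R : Fin M → A) (H a : A),
    St A ω → Monotone F → (∀ m n : ℕ, ∀ x ∈ F m, ∀ y ∈ F n, x * y ∈ F (m + n)) →
    (∀ n : ℕ, ∀ x ∈ F n, star x ∈ F n) → Flag ω F (N + m) e lv i0 →
    (∀ n, ∀ x ∈ F n, ‖x‖ ^ 2 ≤ C n * (ω (star x * x)).re) → Monotone C →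
    0 < ε → 0 < h → H = ∑ i, kap ε N (lv i) • (e i * star (e i)) →
    (∀ j, star (R j) = R j) → (∀ j, R j * H = H * R j) →
    (∀ j, R j * (H + ((((j : ℕ) : ℝ) + 1) * h : ℝ) • (1 : A)) = 1) →
    (∀ j, ‖H * R j‖ ≤ 1) → (∑ j, h * ‖R j‖ ^ 2 ≤ 1) →
    ‖∑ j, h • (R j * H * R j)‖ ≤ 1 →
    ‖∑ j, h • ((H * R j) * (R j * H * R j) * (H * R j))‖ ≤ 1 → a ∈ F m →
    ‖(∑ p, ∑ i, ∑ j, ω (star (e i) * (a * e j)) •
        ((Real.sqrt h • Real.sqrt (kap ε N (lv i)) • (R p * e i)) *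
          star (Real.sqrt h • Real.sqrt (kap ε N (lv j)) • (R p * e j)))) - a‖ ≤
      ‖a‖ * ((2 * m + 1) * (Real.exp (ε * m / 2) - 1) +
        (2 * m + 1) * (Real.exp (ε * m / 2) - Real.exp (-(ε * m / 2))) +
        3 * ((Finset.univ.filter fun i => lv i ≤ N).card * Real.exp (-(ε * ((N : ℝ) - m))) *
          C (N + m)) +
        ‖1 - ∑ j, h • (H * R j * R j)‖)

end

end Pool.Agent.N635.SG
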