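import Mathlib
import Pool.Agent.N635.SG.Stm

/-!
Basic properties of states: hermitian, contractive, Cauchy-Schwarz inequality.
-/

set_option autoImplicit false

namespace Pool.Agent.N635.SG

open scoped ComplexOrder ComplexConjugate

/-- the sesquilinear form of a state is hermitian -/
lemma St.herm {A : Type} [CStarAlgebra A] {ω : A →ₗ[ℂ] ℂ} (h : St A ω) (x y : A) :
    ω (star y * x) = conj (ω (star x * y)) := by
  have hx := h.pos x
  have hy := h.pos y
  have h1 := h.pos (x + y)
  have h2 := h.pos (x + Complex.I • y)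
  have e1 : star (x + y) * (x + y) =
      star x * x + star y * y + (star x * y + star y * x) := by
    rw [star_add]
    noncomm_ring
  have e2 : star (x + Complex.I • y) * (x + Complex.I • y) =
      star x * x + star y * y + Complex.I • (star x * y - star y * x) := by
    rw [star_add, star_smul, Complex.star_def, Complex.conj_I, add_mul, mul_add, mul_add,
      mul_smul_comm, smul_mul_assoc, smul_mul_assoc, mul_smul_comm, smul_smul]
    have : -Complex.I * Complex.I = 1 := by
      rw [neg_mul, Complex.I_mul_I, neg_neg]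
    rw [this, one_smul, neg_smul, smul_sub]
    abel
  rw [e1, map_add, map_add, map_add] at h1
  rw [e2, map_add, map_add, map_smul, map_sub, smul_eq_mul] at h2
  rw [Complex.le_def] at hx hy h1 h2
  simp only [Complex.zero_re, Complex.zero_im, Complex.add_re, Complex.add_im, Complex.mul_im,
    Complex.mul_re, Complex.sub_re, Complex.sub_im, Complex.I_re, Complex.I_im] at hx hy h1 h2
  refine Complex.ext ?_ ?_
  · rw [Complex.conj_re]
    linarith [h2.2, hx.2, hy.2]
  · rw [Complex.conj_im]
    linarith [h1.2, hx.2, hy.2]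

/-- the Cauchy-Schwarz inequality -/
lemma St.cs {A : Type} [CStarAlgebra A] {ω : A →ₗ[ℂ] ℂ} (h : St A ω) (x y : A) :
    ‖ω (star y * x)‖ ^ 2 ≤ (ω (star y * y)).re * (ω (star x * x)).re := by
  letI c : PreInnerProductSpace.Core ℂ A :=
    { inner := fun x y => ω (star x * y)
      conj_inner_symm := fun x y => (h.herm y x).symm
      re_inner_nonneg := fun x => (Complex.le_def.1 (h.pos x)).1
      add_left := fun x y z => by
        show ω (star (x + y) * z) = ω (star x * z) + ω (star y * z)
        rw [star_add, add_mul, map_add]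
      smul_left := fun x y r => by
        show ω (star (r • x) * y) = conj r * ω (star x * y)
        rw [star_smul, smul_mul_assoc, map_smul, smul_eq_mul]
        rfl }
  have h1 := InnerProductSpace.Core.inner_mul_inner_self_le (𝕜 := ℂ) (c := c) y x
  have h2 : ‖ω (star y * x)‖ * ‖ω (star x * y)‖ ≤ (ω (star y * y)).re * (ω (star x * x)).re := h1
  have h3 : ‖ω (star x * y)‖ = ‖ω (star y * x)‖ := by
    rw [h.herm x y, RCLike.norm_conj]
  rw [h3] at h2
  rwa [sq]

/-- the left multiplication by `a` has norm at most `‖a‖` -/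
lemma St.mul_le {A : Type} [CStarAlgebra A] {ω : A →ₗ[ℂ] ℂ} (h : St A ω) (a x : A) :
    (ω (star (a * x) * (a * x))).re ≤ ‖a‖ ^ 2 * (ω (star x * x)).re := by
  letI : PartialOrder A := CStarAlgebra.spectralOrder A
  haveI : StarOrderedRing A := CStarAlgebra.spectralOrderedRing A
  have h1 : star a * a ≤ algebraMap ℝ A (‖a‖ ^ 2) := CStarAlgebra.star_mul_le_algebraMap_norm_sq
  rw [← sub_nonneg] at h1
  obtain ⟨c, hc⟩ := CStarAlgebra.nonneg_iff_eq_star_mul_self.1 h1
  have h2 : star (a * x) * (a * x) + star (c * x) * (c * x) = ((‖a‖ ^ 2 : ℝ) : ℂ) • (star x * x) := by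
    have e1 : star (a * x) * (a * x) + star (c * x) * (c * x) =
        star x * (star a * a + star c * c) * x := by
      rw [star_mul, star_mul]
      noncomm_ring
    rw [e1, ← hc, add_sub_cancel, Algebra.algebraMap_eq_smul_one, mul_smul_comm, mul_one,
      smul_mul_assoc]
    exact (Complex.coe_smul _ _).symm
  have h3 : ω (star (a * x) * (a * x)) + ω (star (c * x) * (c * x)) =
      ((‖a‖ ^ 2 : ℝ) : ℂ) * ω (star x * x) := by
    rw [← map_add, h2, map_smul, smul_eq_mul]
  have h4 := congrArg Complex.re h3
  rw [Complex.add_re, Complex.re_ofReal_mul] at h4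
  have h5 := (Complex.le_def.1 (h.pos (c * x))).1
  rw [Complex.zero_re] at h5
  linarith

theorem t_BAS : S_BAS := by
  intro A _ ω h
  have hstar : ∀ x : A, ω (star x) = star (ω x) := by
    intro x
    have h1 := h.herm 1 x
    rwa [mul_one, star_one, one_mul] at h1
  refine ⟨hstar, ?_, h.cs, h.mul_le⟩
  intro x
  have h1 := h.cs x 1
  have h2 := h.mul_le x 1
  rw [star_one, one_mul, one_mul, h.one, Complex.one_re, one_mul] at h1
  rw [star_one, mul_one, one_mul, h.one, Complex.one_re, mul_one] at h2
  exact (sq_le_sq₀ (norm_nonneg _) (norm_nonneg _)).1 (h1.trans h2)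

end Pool.Agent.N635.SG
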