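import Pool.Agent.N635.SG.Stm

/-! Project SG, part CS: Cauchy-Schwarz in a C*-algebra with a scalar matrix (helper588). -/

set_option autoImplicit false

namespace Pool.Agent.N635.SG

open scoped ComplexOrder
open Filter

noncomputable section

section cs

variable {A : Type} [CStarAlgebra A]

open WithCStarModule in
open scoped InnerProductSpace in
theorem CS_basic {P : Type} [Fintype P] (x w : P → A) :
    ‖∑ p, x p * star (w p)‖ ≤
      Real.sqrt ‖∑ p, x p * star (x p)‖ * Real.sqrt ‖∑ p, w p * star (w p)‖ := by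
  let _ : PartialOrder A := CStarAlgebra.spectralOrder A
  have _ : StarOrderedRing A := CStarAlgebra.spectralOrderedRing A
  let X : C⋆ᵐᵒᵈ(A, P → A) := (equiv A (P → A)).symm x
  let W : C⋆ᵐᵒᵈ(A, P → A) := (equiv A (P → A)).symm w
  have h := CStarModule.norm_inner_le (A := A) (E := C⋆ᵐᵒᵈ(A, P → A)) (x := W) (y := X)
  rw [pi_norm, pi_norm, pi_inner] at h
  rw [mul_comm]
  exact h

/-- squares are nonnegative -/
theorem CS_sum_nonneg {P : Type} [Fintype P] (v : P → A) :
    letI : PartialOrder A := CStarAlgebra.spectralOrder A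
    0 ≤ ∑ p, v p * star (v p) := by
  let _ : PartialOrder A := CStarAlgebra.spectralOrder A
  have _ : StarOrderedRing A := CStarAlgebra.spectralOrderedRing A
  exact Finset.sum_nonneg fun p _ => mul_star_self_nonneg (v p)

open scoped MatrixOrder in
/-- the difference is a sum of squares -/
theorem CS_mat {I : Type} [Fintype I] [DecidableEq I] {B : I → I → ℂ} {β : ℝ} (hβ : 0 ≤ β) (hB : FB B β) :
    ∃ D : I → I → ℂ, ∀ k l, ∑ q, star (D q k) * D q l =
      (if k = l then ((β ^ 2 : ℝ) : ℂ) else 0) - ∑ i, star (B i k) * B i l := by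
  let M : Matrix I I ℂ := Matrix.of B
  have hps : (((β ^ 2 : ℝ) : ℂ) • (1 : Matrix I I ℂ) - M.conjTranspose * M).PosSemidef := by
    refine Matrix.PosSemidef.of_dotProduct_mulVec_nonneg ?_ ?_
    · unfold Matrix.IsHermitian
      rw [Matrix.conjTranspose_sub, Matrix.conjTranspose_smul, Matrix.conjTranspose_one,
        Matrix.conjTranspose_mul, Matrix.conjTranspose_conjTranspose]
      congr 2
      exact Complex.conj_ofReal _
    · intro c
      have e1 : star c ⬝ᵥ ((((β ^ 2 : ℝ) : ℂ) • (1 : Matrix I I ℂ) - M.conjTranspose * M).mulVec c) =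
          ((β ^ 2 * ∑ k, ‖c k‖ ^ 2 - ∑ i, ‖(M.mulVec c) i‖ ^ 2 : ℝ) : ℂ) := by
        rw [Matrix.sub_mulVec, dotProduct_sub, Matrix.smul_mulVec, Matrix.one_mulVec,
          dotProduct_smul, ← Matrix.mulVec_mulVec, Matrix.dotProduct_mulVec,
          ← Matrix.star_mulVec]
        have e2 : ∀ v : I → ℂ, star v ⬝ᵥ v = ((∑ i, ‖v i‖ ^ 2 : ℝ) : ℂ) := by
          intro v
          unfold dotProduct
          push_cast
          refine Finset.sum_congr rfl fun i _ => ?_
          rw [Pi.star_apply, ← Complex.ofReal_pow, ← Complex.normSq_eq_norm_sq,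
            Complex.normSq_eq_conj_mul_self]
          rfl
        rw [e2, e2]
        push_cast
        rfl
      rw [e1]
      apply Complex.zero_le_real.2
      -- the norm bound
      have h1 := hB c (M.mulVec c)
      have h2 : ∑ i, ∑ k, star ((M.mulVec c) i) * B i k * c k =
          ((∑ i, ‖(M.mulVec c) i‖ ^ 2 : ℝ) : ℂ) := by
        push_cast
        refine Finset.sum_congr rfl fun i _ => ?_
        have h3 : ∑ k, star ((M.mulVec c) i) * B i k * c k =
            star ((M.mulVec c) i) * (M.mulVec c) i := by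
          conv_rhs => rw [Matrix.mulVec, dotProduct, Finset.mul_sum]
          refine Finset.sum_congr rfl fun k _ => ?_
          rw [mul_assoc]
          rfl
        rw [h3, ← Complex.ofReal_pow, ← Complex.normSq_eq_norm_sq, Complex.normSq_eq_conj_mul_self]
        rfl
      rw [h2, Complex.norm_real, Real.norm_of_nonneg (Finset.sum_nonneg fun i _ => by positivity)]
        at h1
      set s := ∑ i, ‖(M.mulVec c) i‖ ^ 2 with hs
      set u := ∑ k, ‖c k‖ ^ 2 with hu
      have hs0 : 0 ≤ s := Finset.sum_nonneg fun i _ => by positivity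
      have hu0 : 0 ≤ u := Finset.sum_nonneg fun i _ => by positivity
      have h4 : Real.sqrt s ≤ β * Real.sqrt u := by
        rcases hs0.eq_or_lt with h5 | h5
        · rw [← h5, Real.sqrt_zero]
          positivity
        · have h6 : Real.sqrt s * Real.sqrt s ≤ (β * Real.sqrt u) * Real.sqrt s := by
            rw [Real.mul_self_sqrt hs0]
            linarith
          exact le_of_mul_le_mul_right h6 (Real.sqrt_pos.2 h5)
      have h7 : s ≤ (β * Real.sqrt u) ^ 2 := by
        rw [← Real.sq_sqrt hs0]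
        exact pow_le_pow_left₀ (Real.sqrt_nonneg _) h4 2
      rw [mul_pow, Real.sq_sqrt hu0] at h7
      linarith
  obtain ⟨D, hD⟩ : ∃ D : Matrix I I ℂ, ((β ^ 2 : ℝ) : ℂ) • (1 : Matrix I I ℂ) -
      M.conjTranspose * M = D.conjTranspose * D := by
    refine ⟨CFC.sqrt (((β ^ 2 : ℝ) : ℂ) • (1 : Matrix I I ℂ) - M.conjTranspose * M), ?_⟩
    have h0 : (CFC.sqrt (((β ^ 2 : ℝ) : ℂ) • (1 : Matrix I I ℂ) -
      M.conjTranspose * M)).PosSemidef := Matrix.nonneg_iff_posSemidef.1 (CFC.sqrt_nonneg _)
    have h1 := h0.isHermitian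
    rw [h1.eq]
    exact (CFC.sqrt_mul_sqrt_self _ hps.nonneg).symm
  refine ⟨fun q k => D q k, fun k l => ?_⟩
  have h1 := congrFun (congrFun hD k) l
  rw [Matrix.sub_apply, Matrix.smul_apply, Matrix.one_apply, Matrix.mul_apply,
    Matrix.mul_apply] at h1
  simp only [Matrix.conjTranspose_apply, smul_eq_mul, mul_ite, mul_one, mul_zero] at h1
  exact h1.symm

end cs

theorem t_CS : S_CS := by
  classical
  intro A _ I J _ _ B β x y hβ hB
  let _ : PartialOrder A := CStarAlgebra.spectralOrder A
  have _ : StarOrderedRing A := CStarAlgebra.spectralOrderedRing A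
  obtain ⟨D, hD⟩ := CS_mat hβ hB
  let W : J → I → A := fun j i => ∑ k, star (B i k) • y j k
  let V : J → I → A := fun j q => ∑ k, star (D q k) • y j k
  -- first step
  have h1 : ∑ j, ∑ i, ∑ k, B i k • (x j i * star (y j k)) = ∑ j, ∑ i, x j i * star (W j i) := by
    refine Finset.sum_congr rfl fun j _ => Finset.sum_congr rfl fun i _ => ?_
    simp only [W]
    rw [star_sum, Finset.mul_sum]
    refine Finset.sum_congr rfl fun k _ => ?_
    rw [star_smul, star_star, mul_smul_comm]
  have h2 := CS_basic (fun p : J × I => x p.1 p.2) (fun p : J × I => W p.1 p.2)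
  rw [Fintype.sum_prod_type, Fintype.sum_prod_type, Fintype.sum_prod_type] at h2
  -- expansion of the squares
  have hsq : ∀ (E : I → I → ℂ) (j : J), ∑ i, (∑ k, star (E i k) • y j k) *
      star (∑ k, star (E i k) • y j k) =
      ∑ k, ∑ l, (∑ i, star (E i k) * E i l) • (y j k * star (y j l)) := by
    intro E j
    have e1 : ∀ i, (∑ k, star (E i k) • y j k) * star (∑ k, star (E i k) • y j k) =
        ∑ k, ∑ l, (star (E i k) * E i l) • (y j k * star (y j l)) := by
      intro i
      rw [star_sum, Finset.sum_mul_sum]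
      refine Finset.sum_congr rfl fun k _ => Finset.sum_congr rfl fun l _ => ?_
      rw [star_smul, star_star, smul_mul_smul_comm]
    rw [Finset.sum_congr rfl fun i _ => e1 i, Finset.sum_comm]
    refine Finset.sum_congr rfl fun k _ => ?_
    rw [Finset.sum_comm]
    refine Finset.sum_congr rfl fun l _ => ?_
    exact (Finset.sum_smul (s := Finset.univ) (f := fun i => star (E i k) * E i l)
      (x := y j k * star (y j l))).symm
  have h3 : ((β ^ 2 : ℝ) : ℂ) • (∑ j, ∑ i, y j i * star (y j i)) =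
      (∑ j, ∑ i, W j i * star (W j i)) + ∑ j, ∑ q, V j q * star (V j q) := by
    rw [Finset.smul_sum, ← Finset.sum_add_distrib]
    refine Finset.sum_congr rfl fun j _ => ?_
    simp only [W, V]
    rw [hsq B j, hsq D j, ← Finset.sum_add_distrib, Finset.smul_sum]
    refine Finset.sum_congr rfl fun k _ => ?_
    rw [← Finset.sum_add_distrib]
    have e2 : ∀ l, (∑ i, star (B i k) * B i l) • (y j k * star (y j l)) +
        (∑ i, star (D i k) * D i l) • (y j k * star (y j l)) =
        if k = l then ((β ^ 2 : ℝ) : ℂ) • (y j k * star (y j l)) else 0 := by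
      intro l
      rw [← add_smul, hD, add_sub_cancel, ite_smul, zero_smul]
    rw [Finset.sum_congr rfl fun l _ => e2 l, Finset.sum_ite_eq, if_pos (Finset.mem_univ k)]
  have h4 : ‖∑ j, ∑ i, W j i * star (W j i)‖ ≤ β ^ 2 * ‖∑ j, ∑ i, y j i * star (y j i)‖ := by
    have h5 : (0 : A) ≤ ∑ j, ∑ i, W j i * star (W j i) :=
      Finset.sum_nonneg fun j _ => Finset.sum_nonneg fun i _ => mul_star_self_nonneg _
    have h6 : (0 : A) ≤ ∑ j, ∑ q, V j q * star (V j q) :=
      Finset.sum_nonneg fun j _ => Finset.sum_nonneg fun i _ => mul_star_self_nonneg _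
    have h7 : ∑ j, ∑ i, W j i * star (W j i) ≤
        ((β ^ 2 : ℝ) : ℂ) • (∑ j, ∑ i, y j i * star (y j i)) := by
      rw [h3]
      exact le_add_of_nonneg_right h6
    have h8 := CStarAlgebra.norm_le_norm_of_nonneg_of_le h5 h7
    rw [norm_smul, Complex.norm_real, Real.norm_of_nonneg (by positivity)] at h8
    exact h8
  rw [h1]
  refine h2.trans ?_
  have h9 : Real.sqrt ‖∑ j, ∑ i, W j i * star (W j i)‖ ≤
      β * Real.sqrt ‖∑ j, ∑ i, y j i * star (y j i)‖ := by
    calc Real.sqrt ‖∑ j, ∑ i, W j i * star (W j i)‖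
        ≤ Real.sqrt (β ^ 2 * ‖∑ j, ∑ i, y j i * star (y j i)‖) := Real.sqrt_le_sqrt h4
      _ = β * Real.sqrt ‖∑ j, ∑ i, y j i * star (y j i)‖ := by
          rw [Real.sqrt_mul (by positivity), Real.sqrt_sq hβ]
  calc Real.sqrt ‖∑ j, ∑ i, x j i * star (x j i)‖ * Real.sqrt ‖∑ j, ∑ i, W j i * star (W j i)‖
      ≤ Real.sqrt ‖∑ j, ∑ i, x j i * star (x j i)‖ *
        (β * Real.sqrt ‖∑ j, ∑ i, y j i * star (y j i)‖) :=
        mul_le_mul_of_nonneg_left h9 (Real.sqrt_nonneg _)
    _ = _ := by ring

end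

end Pool.Agent.N635.SG
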