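import Pool.Agent.N635.SG.Stm

set_option autoImplicit false

namespace Pool.Agent.N635.SG

open scoped ComplexOrder

section FlagAux

theorem FLAG_onb (V : Type) [AddCommGroup V] [Module ℂ V] [FiniteDimensional ℂ V]
    (B : V → V → ℂ) (h1 : ∀ x y, star (B y x) = B x y) (h2 : ∀ x, 0 ≤ (B x x).re)
    (h3 : ∀ x y z, B (x + y) z = B x z + B y z) (h4 : ∀ x y (r : ℂ), B (r • x) y = star r * B x y)
    (h5 : ∀ x, B x x = 0 → x = 0) :
    ∃ (r : ℕ) (f : Fin r → V), (∀ i j, B (f i) (f j) = if i = j then 1 else 0) ∧
      ∀ x, x = ∑ i, B (f i) x • f i := by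
  let c : InnerProductSpace.Core ℂ V :=
    { inner := B
      conj_inner_symm := h1
      re_inner_nonneg := h2
      add_left := h3
      smul_left := h4
      definite := h5 }
  letI : NormedAddCommGroup V := c.toNormedAddCommGroup
  letI : InnerProductSpace ℂ V := InnerProductSpace.ofCore c.toCore
  let b := stdOrthonormalBasis ℂ V
  refine ⟨_, b, fun i j => ?_, fun x => ?_⟩
  · exact (orthonormal_iff_ite.1 b.orthonormal) i j
  · exact (b.sum_repr' x).symm

variable {A : Type} [CStarAlgebra A] {ω : A →ₗ[ℂ] ℂ}

theorem FLAG_lin {K : ℕ} (e : Fin K → A) (c : Fin K → ℂ) (y : A) :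
    ω (y * ∑ i, c i • e i) = ∑ i, c i * ω (y * e i) := by
  rw [Finset.mul_sum, map_sum]
  refine Finset.sum_congr rfl fun i _ => ?_
  rw [mul_smul_comm, map_smul, smul_eq_mul]

/-- the dimension -/
theorem FLAG_dim {K : ℕ} (e : Fin K → A) (G : Submodule ℂ A)
    (hon : ∀ i j, ω (star (e i) * e j) = if i = j then 1 else 0) (hG : ∀ i, e i ∈ G)
    (hrep : ∀ x ∈ G, x = ∑ i, ω (star (e i) * x) • e i) : Module.finrank ℂ G = K := by
  have hli : LinearIndependent ℂ e := by
    rw [Fintype.linearIndependent_iff]
    intro g hg i
    have h := congrArg (fun y => ω (star (e i) * y)) hg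
    simp only [mul_zero, map_zero] at h
    rw [FLAG_lin] at h
    simp only [hon, mul_ite, mul_one, mul_zero, Finset.sum_ite_eq, Finset.mem_univ, if_true] at h
    exact h
  have hsp : Submodule.span ℂ (Set.range e) = G := by
    refine le_antisymm (Submodule.span_le.2 ?_) fun x hx => ?_
    · rintro _ ⟨i, rfl⟩
      exact hG i
    · rw [hrep x hx]
      exact Submodule.sum_mem _ fun i _ => Submodule.smul_mem _ _ (Submodule.subset_span ⟨i, rfl⟩)
  rw [← hsp, finrank_span_eq_card hli, Fintype.card_fin]

/-- orthonormal bases of finite-dimensional subspaces -/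
theorem FLAG_sub (h1 : S_BAS) (hω : St A ω) (W : Submodule ℂ A) [FiniteDimensional ℂ W]
    (hW : ∀ x ∈ W, (ω (star x * x)).re ≤ 0 → x = 0) :
    ∃ (r : ℕ) (f : Fin r → A), (∀ i, f i ∈ W) ∧
      (∀ i j, ω (star (f i) * f j) = if i = j then 1 else 0) ∧
      ∀ x ∈ W, x = ∑ i, ω (star (f i) * x) • f i := by
  obtain ⟨b1, -⟩ := h1 A ω hω
  obtain ⟨r, f, hf1, hf2⟩ := FLAG_onb W (fun x y => ω (star (x : A) * (y : A)))
    (fun x y => by
      rw [← b1, star_mul, star_star])
    (fun x => by
      have := hω.pos (x : A)
      exact (Complex.le_def.1 this).1)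
    (fun x y z => by
      rw [Submodule.coe_add, star_add, add_mul, map_add])
    (fun x y r => by
      rw [Submodule.coe_smul, star_smul, smul_mul_assoc, map_smul, smul_eq_mul])
    (fun x hx => by
      have h := hW x x.2 (by
        have : ω (star (x : A) * (x : A)) = 0 := hx
        rw [this]
        simp)
      exact Subtype.ext h)
  refine ⟨r, fun i => (f i : A), fun i => (f i).2, hf1, fun x hx => ?_⟩
  have h := congrArg (fun y : W => (y : A)) (hf2 ⟨x, hx⟩)
  simp only [Submodule.coe_sum, Submodule.coe_smul] at h
  exact h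

end FlagAux

theorem t_FLAG (h1 : S_BAS) : S_FLAG := by
  intro A _ _ ω F L hω hF hF0 hfd hdef
  obtain ⟨b1, -⟩ := h1 A ω hω
  induction L with
  | zero =>
    have hon : ∀ i j : Fin 1, ω (star ((fun _ => (1 : A)) i : A) * (fun _ => (1 : A)) j) =
        if i = j then 1 else 0 := by
      intro i j
      rw [Subsingleton.elim i j, if_pos rfl, star_one, one_mul, hω.one]
    have hrep : ∀ x ∈ F 0, x = ∑ i : Fin 1, ω (star ((fun _ => (1 : A)) i : A) * x) •
        (fun _ => (1 : A)) i := by
      intro x hx
      rw [hF0, Submodule.mem_span_singleton] at hx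
      obtain ⟨c, rfl⟩ := hx
      rw [Finset.univ_unique, Finset.sum_singleton, star_one, one_mul, map_smul, hω.one, smul_eq_mul,
        mul_one]
    have hmem : ∀ i : Fin 1, (fun _ => (1 : A)) i ∈ F 0 := by
      intro i
      rw [hF0]
      exact Submodule.mem_span_singleton_self _
    refine ⟨1, fun _ => 1, fun _ => 0, 0, ⟨rfl, rfl, fun _ => le_rfl, hmem, hon, ?_, ?_, ?_⟩⟩
    · intro n hn x hx
      obtain rfl : n = 0 := by omega
      exact hrep x hx
    · intro n hn x hx i hi
      omega
    · intro n hn
      obtain rfl : n = 0 := by omega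
      rw [FLAG_dim (fun _ : Fin 1 => (1 : A)) (F 0) hon hmem hrep]
      simp
  | succ L ih =>
    obtain ⟨K, e, lv, i0, hf⟩ := ih
    let W : Submodule ℂ A :=
      { carrier := {x | x ∈ F (L + 1) ∧ ∀ i, ω (star (e i) * x) = 0}
        add_mem' := fun {a b} ha hb => ⟨Submodule.add_mem _ ha.1 hb.1, fun i => by
          rw [mul_add, map_add, ha.2 i, hb.2 i, add_zero]⟩
        zero_mem' := ⟨Submodule.zero_mem _, fun i => by rw [mul_zero, map_zero]⟩
        smul_mem' := fun c x hx => ⟨Submodule.smul_mem _ _ hx.1, fun i => by
          rw [mul_smul_comm, map_smul, hx.2 i, smul_zero]⟩ }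
    have hWle : W ≤ F (L + 1) := fun x hx => hx.1
    haveI := hfd (L + 1)
    haveI : FiniteDimensional ℂ W := Submodule.finiteDimensional_of_le hWle
    obtain ⟨r, f, f1, f2, f3⟩ := FLAG_sub h1 hω W (fun x hx => hdef (L + 1) x (hWle hx))
    have hef : ∀ i j, ω (star (e i) * f j) = 0 := fun i j => (f1 j).2 i
    have hfe : ∀ i j, ω (star (f j) * e i) = 0 := fun i j => by
      have := b1 (star (e i) * f j)
      rw [hef, star_zero, star_mul, star_star] at this
      exact this
    have hfx : ∀ n ≤ L, ∀ x ∈ F n, ∀ j, ω (star (f j) * x) = 0 := by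
      intro n hn x hx j
      rw [hf.rep n hn x hx, FLAG_lin]
      exact Finset.sum_eq_zero fun i _ => by rw [hfe, mul_zero]
    have heF : ∀ i, e i ∈ F (L + 1) := fun i => hF ((hf.lv_le i).trans (Nat.le_succ L)) (hf.mem i)
    have hon : ∀ i j : Fin (K + r), ω (star (Fin.append e f i) * Fin.append e f j) =
        if i = j then 1 else 0 := by
      intro i j
      refine Fin.addCases (fun i => ?_) (fun i => ?_) i <;>
        refine Fin.addCases (fun j => ?_) (fun j => ?_) j
      · rw [Fin.append_left, Fin.append_left, hf.on]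
        simp
      · rw [Fin.append_left, Fin.append_right, hef, if_neg]
        intro h
        have := congrArg Fin.val h
        simp at this
        have := i.2
        omega
      · rw [Fin.append_left, Fin.append_right, hfe, if_neg]
        intro h
        have := congrArg Fin.val h
        simp at this
        have := j.2
        omega
      · rw [Fin.append_right, Fin.append_right, f2]
        simp
    have hrep1 : ∀ x ∈ F (L + 1), x = ∑ i, ω (star (Fin.append e f i) * x) • Fin.append e f i := by
      intro x hx
      have hy : x - ∑ i, ω (star (e i) * x) • e i ∈ W := by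
        refine ⟨Submodule.sub_mem _ hx (Submodule.sum_mem _ fun i _ =>
          Submodule.smul_mem _ _ (heF i)), fun i => ?_⟩
        rw [mul_sub, map_sub, FLAG_lin]
        simp only [hf.on, mul_ite, mul_one, mul_zero, Finset.sum_ite_eq, Finset.mem_univ, if_true]
        exact sub_self _
      have h := f3 _ hy
      have h2 : ∀ j, ω (star (f j) * (x - ∑ i, ω (star (e i) * x) • e i)) =
          ω (star (f j) * x) := by
        intro j
        rw [mul_sub, map_sub, FLAG_lin]
        rw [Finset.sum_eq_zero fun i _ => by rw [hfe, mul_zero], sub_zero]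
      simp only [h2] at h
      rw [Fin.sum_univ_add]
      simp only [Fin.append_left, Fin.append_right]
      rw [← h]
      abel
    have hmem1 : ∀ i, Fin.append e f i ∈ F (L + 1) := by
      intro i
      refine Fin.addCases (fun i => ?_) (fun i => ?_) i
      · rw [Fin.append_left]
        exact heF i
      · rw [Fin.append_right]
        exact hWle (f1 i)
    refine ⟨K + r, Fin.append e f, Fin.append lv (fun _ => L + 1), Fin.castAdd r i0,
      ⟨?_, ?_, ?_, ?_, hon, ?_, ?_, ?_⟩⟩
    · rw [Fin.append_left, hf.one]
    · rw [Fin.append_left, hf.lv0]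
    · intro i
      refine Fin.addCases (fun i => ?_) (fun i => ?_) i
      · rw [Fin.append_left]
        exact (hf.lv_le i).trans (Nat.le_succ L)
      · rw [Fin.append_right]
    · intro i
      refine Fin.addCases (fun i => ?_) (fun i => ?_) i
      · rw [Fin.append_left, Fin.append_left]
        exact hf.mem i
      · rw [Fin.append_right, Fin.append_right]
        exact hWle (f1 i)
    · intro n hn x hx
      rcases Nat.le_succ_iff.1 hn with h | h
      · rw [Fin.sum_univ_add]
        simp only [Fin.append_left, Fin.append_right]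
        rw [← hf.rep n h x hx, Finset.sum_eq_zero fun j _ => by rw [hfx n h x hx, zero_smul],
          add_zero]
      · rw [h] at hx
        exact hrep1 x hx
    · intro n hn x hx i
      refine Fin.addCases (fun i => ?_) (fun i => ?_) i
      · rw [Fin.append_left, Fin.append_left]
        intro hi
        exact hf.zero n (by have := hf.lv_le i; omega) x hx i hi
      · rw [Fin.append_right, Fin.append_right]
        intro hi
        exact hfx n (by omega) x hx i
    · intro n hn
      rcases Nat.le_succ_iff.1 hn with h | h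
      · rw [← hf.card n h, Finset.card_filter, Finset.card_filter, Fin.sum_univ_add]
        simp only [Fin.append_left, Fin.append_right]
        rw [if_neg (by omega), Finset.sum_const_zero, add_zero]
      · rw [h, FLAG_dim (Fin.append e f) (F (L + 1)) hon hmem1 hrep1, Finset.card_filter,
          Fin.sum_univ_add]
        simp only [Fin.append_left, Fin.append_right]
        rw [if_pos le_rfl]
        have : ∀ i : Fin K, (if lv i ≤ L + 1 then 1 else 0) = 1 := fun i => by
          rw [if_pos ((hf.lv_le i).trans (Nat.le_succ L))]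
        simp [this]

end Pool.Agent.N635.SG
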