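import Pool.Agent.N635.SG.Stm

/-!
# Project SG, part MIX: one state for a sequence of finite-dimensional subspaces

Part of the project SG of helper635 (page MP_f85ab1_an). Proof of `S_MIX`.
-/

set_option autoImplicit false

namespace Pool.Agent.N635.SG

open scoped ComplexOrder
open Filter

theorem mix_hasSum : HasSum (fun n : ℕ => 1 / (((n : ℝ) + 1) * ((n : ℝ) + 2))) 1 := by
  have hnn : ∀ n : ℕ, 0 ≤ 1 / (((n : ℝ) + 1) * ((n : ℝ) + 2)) := fun n => by positivity
  rw [hasSum_iff_tendsto_nat_of_nonneg hnn]
  have hs : ∀ N : ℕ, ∑ i ∈ Finset.range N, 1 / (((i : ℝ) + 1) * ((i : ℝ) + 2)) =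
      1 - 1 / ((N : ℝ) + 1) := by
    intro N
    induction N with
    | zero => simp
    | succ N ih =>
      rw [Finset.sum_range_succ, ih]
      have h1 : (N : ℝ) + 1 ≠ 0 := by positivity
      have h2 : (N : ℝ) + 2 ≠ 0 := by positivity
      have h3 : (N : ℝ) + 1 + 1 ≠ 0 := by positivity
      push_cast
      field_simp
      ring
  simp_rw [hs]
  have := tendsto_one_div_add_atTop_nhds_zero_nat (𝕜 := ℝ)
  simpa using this.const_sub (1 : ℝ)

theorem t_MIX (h1 : S_BAS) (h2 : S_OPT) : S_MIX := by
  intro A _ _ E hE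
  have hw : ∀ n, ∃ ω : A →ₗ[ℂ] ℂ, St A ω ∧
      ∀ x ∈ E n, ‖x‖ ^ 2 ≤ 6 * (Module.finrank ℂ (E n) : ℝ) * (ω (star x * x)).re := by
    intro n
    have := hE n
    exact h2 A (E n)
  choose w hst hb using hw
  set p : ℕ → ℝ := fun n => 1 / (((n : ℝ) + 1) * ((n : ℝ) + 2)) with hp
  have hp0 : ∀ n, 0 < p n := fun n => by simp only [hp]; positivity
  have hps : HasSum p 1 := mix_hasSum
  have hsum : ∀ x : A, Summable (fun n => (p n : ℂ) * w n x) := by
    intro x
    refine Summable.of_norm_bounded (g := fun n => p n * ‖x‖) (hps.summable.mul_right _) ?_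
    intro n
    rw [norm_mul, Complex.norm_real, Real.norm_of_nonneg (hp0 n).le]
    exact mul_le_mul_of_nonneg_left ((h1 A (w n) (hst n)).2.1 x) (hp0 n).le
  let W : A →ₗ[ℂ] ℂ :=
    { toFun := fun x => ∑' n, (p n : ℂ) * w n x
      map_add' := by
        intro x y
        rw [← (hsum x).tsum_add (hsum y)]
        congr 1
        funext n
        rw [map_add, mul_add]
      map_smul' := by
        intro c x
        simp only [RingHom.id_apply, smul_eq_mul]
        rw [← tsum_mul_left]
        congr 1
        funext n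
        rw [map_smul, smul_eq_mul]
        ring }
  have hW : ∀ x, W x = ∑' n, (p n : ℂ) * w n x := fun x => rfl
  refine ⟨W, ⟨?_, ?_⟩, ?_⟩
  · intro x
    rw [hW]
    exact tsum_nonneg fun n => mul_nonneg (by exact_mod_cast (hp0 n).le) ((hst n).pos x)
  · rw [hW]
    have : ∀ n, (p n : ℂ) * w n 1 = ((p n : ℝ) : ℂ) := fun n => by rw [(hst n).one, mul_one]
    simp_rw [this]
    have := (Complex.hasSum_ofReal.mpr hps).tsum_eq
    simpa using this
  · intro n x hx
    have hge : p n * (w n (star x * x)).re ≤ (W (star x * x)).re := by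
      have hre : (W (star x * x)).re = ∑' k, p k * (w k (star x * x)).re := by
        rw [hW, Complex.re_tsum (hsum _)]
        congr 1
        funext k
        rw [Complex.re_ofReal_mul]
      rw [hre]
      have hsr : Summable (fun k => p k * (w k (star x * x)).re) := by
        have := (Complex.hasSum_re (hsum (star x * x)).hasSum).summable
        refine this.congr fun k => ?_
        rw [Complex.re_ofReal_mul]
      refine hsr.le_tsum n ?_
      intro j _
      have := (hst j).pos x
      rw [Complex.le_def] at this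
      exact mul_nonneg (hp0 j).le (by simpa using this.1)
    have hb' := hb n x hx
    have h3 : (w n (star x * x)).re ≤
        (((n : ℝ) + 1) * ((n : ℝ) + 2)) * (W (star x * x)).re := by
      have hpos : 0 < ((n : ℝ) + 1) * ((n : ℝ) + 2) := by positivity
      have : (w n (star x * x)).re =
          (((n : ℝ) + 1) * ((n : ℝ) + 2)) * (p n * (w n (star x * x)).re) := by
        simp only [hp]
        field_simp
      rw [this]
      exact mul_le_mul_of_nonneg_left hge hpos.le
    calc ‖x‖ ^ 2 ≤ 6 * (Module.finrank ℂ (E n) : ℝ) * (w n (star x * x)).re := hb'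
      _ ≤ 6 * (Module.finrank ℂ (E n) : ℝ) *
          ((((n : ℝ) + 1) * ((n : ℝ) + 2)) * (W (star x * x)).re) :=
        mul_le_mul_of_nonneg_left h3 (by positivity)
      _ = _ := by ring

end Pool.Agent.N635.SG
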