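import Pool.Agent.N635.SG.Stm

/-!
# Project SG, task OPT: a nearly D-optimal state on a finite-dimensional subspace
-/

set_option autoImplicit false

namespace Pool.Agent.N635.SG

open scoped ComplexOrder MatrixOrder
open Filter Matrix

section mat

variable {n : Type} [Fintype n] [DecidableEq n]

omit [Fintype n] in
theorem opt_prod_ge (s : Finset n) (μ : n → ℝ) (hμ : ∀ i, 0 ≤ μ i) {a : ℝ} (ha : 0 ≤ a) :
    a ^ s.card * (a + ∑ i ∈ s, μ i) ≤ a * ∏ i ∈ s, (a + μ i) := by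
  induction s using Finset.induction_on with
  | empty => simp
  | insert j s hj ih =>
    rw [Finset.card_insert_of_notMem hj, Finset.sum_insert hj, Finset.prod_insert hj]
    have h1 : (a + μ j) * (a ^ s.card * (a + ∑ i ∈ s, μ i)) ≤
        (a + μ j) * (a * ∏ i ∈ s, (a + μ i)) :=
      mul_le_mul_of_nonneg_left ih (add_nonneg ha (hμ j))
    have h2 : 0 ≤ a ^ s.card * (μ j * ∑ i ∈ s, μ i) :=
      mul_nonneg (pow_nonneg ha _) (mul_nonneg (hμ j) (Finset.sum_nonneg fun i _ => hμ i))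
    calc a ^ (s.card + 1) * (a + (μ j + ∑ i ∈ s, μ i))
        ≤ (a + μ j) * (a ^ s.card * (a + ∑ i ∈ s, μ i)) := by
          rw [pow_succ]; nlinarith
      _ ≤ (a + μ j) * (a * ∏ i ∈ s, (a + μ i)) := h1
      _ = a * ((a + μ j) * ∏ i ∈ s, (a + μ i)) := by ring

theorem opt_det_add (M : Matrix n n ℂ) (hM : M.IsHermitian) (a : ℝ) :
    ((a : ℂ) • (1 : Matrix n n ℂ) + M).det = ((∏ i, (a + hM.eigenvalues i) : ℝ) : ℂ) := by
  have h1 := Matrix.eval_charpoly M (-(a : ℂ))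
  rw [hM.charpoly_eq, Polynomial.eval_prod] at h1
  have h2 : (Matrix.scalar n (-(a : ℂ)) - M) = -((a : ℂ) • (1 : Matrix n n ℂ) + M) := by
    rw [map_neg, Matrix.scalar_apply, ← Matrix.smul_one_eq_diagonal]
    abel
  rw [h2, Matrix.det_neg] at h1
  have h3 : ∏ i, Polynomial.eval (-(a : ℂ)) (Polynomial.X - Polynomial.C (hM.eigenvalues i : ℂ)) =
      (-1) ^ Fintype.card n * ((∏ i, (a + hM.eigenvalues i) : ℝ) : ℂ) := by
    push_cast
    rw [← Finset.card_univ, ← Finset.prod_const, ← Finset.prod_mul_distrib]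
    refine Finset.prod_congr rfl fun i _ => ?_
    simp only [Polynomial.eval_sub, Polynomial.eval_X, Polynomial.eval_C]
    ring
  have h4 : (-1) ^ Fintype.card n * ((∏ i, (a + hM.eigenvalues i) : ℝ) : ℂ) =
      (-1) ^ Fintype.card n * ((a : ℂ) • (1 : Matrix n n ℂ) + M).det := h3.symm.trans h1
  exact (mul_left_cancel₀ (pow_ne_zero _ (by norm_num)) h4).symm

omit [DecidableEq n] in
theorem opt_star_dot (w : n → ℂ) : (star w ⬝ᵥ w).re = ∑ i, ‖w i‖ ^ 2 := by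
  simp only [dotProduct, Pi.star_apply, Complex.re_sum]
  refine Finset.sum_congr rfl fun i _ => ?_
  rw [Complex.star_def, ← Complex.normSq_eq_conj_mul_self, Complex.ofReal_re,
    Complex.normSq_eq_norm_sq]

omit [DecidableEq n] in
theorem opt_conj (C R : Matrix n n ℂ) (v : n → ℂ) :
    star v ⬝ᵥ ((Cᴴ * R * C) *ᵥ v) = star (C *ᵥ v) ⬝ᵥ (R *ᵥ (C *ᵥ v)) := by
  rw [Matrix.star_mulVec, Matrix.mul_assoc, ← Matrix.mulVec_mulVec, ← Matrix.mulVec_mulVec,
    Matrix.dotProduct_mulVec]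

theorem opt_quad (R : Matrix n n ℂ) (hR : R.PosSemidef) (u : n → ℂ) :
    (star u ⬝ᵥ R *ᵥ u).re ≤ R.trace.re * (star u ⬝ᵥ u).re := by
  obtain ⟨C, hC⟩ := CStarAlgebra.nonneg_iff_eq_star_mul_self.mp hR.nonneg
  rw [Matrix.star_eq_conjTranspose] at hC
  have h1 : star u ⬝ᵥ R *ᵥ u = star (C *ᵥ u) ⬝ᵥ (C *ᵥ u) := by
    have := opt_conj C 1 u
    rw [Matrix.mul_one, Matrix.one_mulVec] at this
    rw [hC, this]
  have h2 : R.trace.re = ∑ i, ∑ j, ‖C i j‖ ^ 2 := by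
    rw [hC, Finset.sum_comm]
    simp only [Matrix.trace, Matrix.diag, Matrix.mul_apply, Matrix.conjTranspose_apply,
      Complex.re_sum]
    refine Finset.sum_congr rfl fun i _ => Finset.sum_congr rfl fun j _ => ?_
    rw [Complex.star_def, ← Complex.normSq_eq_conj_mul_self, Complex.ofReal_re,
      Complex.normSq_eq_norm_sq]
  rw [h1, opt_star_dot, opt_star_dot, h2, Finset.sum_mul]
  refine Finset.sum_le_sum fun i _ => ?_
  have h3 : ‖(C *ᵥ u) i‖ ≤ ∑ j, ‖C i j‖ * ‖u j‖ := by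
    simp only [Matrix.mulVec, dotProduct]
    refine (norm_sum_le _ _).trans (le_of_eq ?_)
    exact Finset.sum_congr rfl fun j _ => norm_mul _ _
  calc ‖(C *ᵥ u) i‖ ^ 2 ≤ (∑ j, ‖C i j‖ * ‖u j‖) ^ 2 :=
        pow_le_pow_left₀ (norm_nonneg _) h3 2
    _ ≤ (∑ j, ‖C i j‖ ^ 2) * ∑ j, ‖u j‖ ^ 2 := Finset.sum_mul_sq_le_sq_mul_sq _ _ _

theorem opt_key (P Q : Matrix n n ℂ) (hP : P.PosDef) (hQ : Q.PosSemidef) (v : n → ℂ) (a t : ℝ)
    (ha : 0 ≤ a) (ht : 0 ≤ t) :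
    a ^ Fintype.card n * (a * (star v ⬝ᵥ P *ᵥ v).re + t * (star v ⬝ᵥ Q *ᵥ v).re) * P.det.re ≤
      a * ((a : ℂ) • P + (t : ℂ) • Q).det.re * (star v ⬝ᵥ P *ᵥ v).re := by
  obtain ⟨B, hB⟩ := CStarAlgebra.nonneg_iff_eq_star_mul_self.mp hP.posSemidef.nonneg
  rw [Matrix.star_eq_conjTranspose] at hB
  have hdP : P.det ≠ 0 := hP.det_pos.ne'
  have hdB : B.det ≠ 0 := by
    intro h
    rw [hB, Matrix.det_mul, h, mul_zero] at hdP
    exact hdP rfl
  have hBu : IsUnit B.det := isUnit_iff_ne_zero.2 hdB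
  set C : Matrix n n ℂ := B⁻¹ with hC
  have hCB : C * B = 1 := Matrix.nonsing_inv_mul B hBu
  set R : Matrix n n ℂ := Cᴴ * Q * C with hR
  have hRp : R.PosSemidef := hQ.conjTranspose_mul_mul_same C
  have hQR : Q = Bᴴ * R * B := by
    rw [hR]
    have e1 : Bᴴ * (Cᴴ * Q * C) * B = (C * B)ᴴ * Q * (C * B) := by
      rw [Matrix.conjTranspose_mul]
      simp only [Matrix.mul_assoc]
    rw [e1, hCB, Matrix.conjTranspose_one, Matrix.one_mul, Matrix.mul_one]
  set M : Matrix n n ℂ := (t : ℂ) • R with hM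
  have hMp : M.PosSemidef := hRp.smul (Complex.zero_le_real.2 ht)
  have hsum : (a : ℂ) • P + (t : ℂ) • Q = Bᴴ * ((a : ℂ) • (1 : Matrix n n ℂ) + M) * B := by
    rw [hM, Matrix.mul_add, Matrix.add_mul, Matrix.mul_smul, Matrix.smul_mul, Matrix.mul_one,
      Matrix.mul_smul, Matrix.smul_mul, ← hQR, ← hB]
  set u : n → ℂ := B *ᵥ v with hu
  set D : ℝ := ∏ i, (a + hMp.isHermitian.eigenvalues i) with hD
  have hdet : ((a : ℂ) • P + (t : ℂ) • Q).det.re = ‖B.det‖ ^ 2 * D := by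
    rw [hsum, Matrix.det_mul, Matrix.det_mul, Matrix.det_conjTranspose,
      opt_det_add M hMp.isHermitian a, ← hD]
    have e1 : star B.det * (D : ℂ) * B.det = ((‖B.det‖ ^ 2 * D : ℝ) : ℂ) := by
      have e2 : star B.det * B.det = ((‖B.det‖ ^ 2 : ℝ) : ℂ) := by
        rw [Complex.star_def, ← Complex.normSq_eq_conj_mul_self, Complex.normSq_eq_norm_sq]
      rw [Complex.ofReal_mul, ← e2]
      ring
    rw [e1, Complex.ofReal_re]
  have hdetP : P.det.re = ‖B.det‖ ^ 2 := by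
    rw [hB, Matrix.det_mul, Matrix.det_conjTranspose, Complex.star_def,
      ← Complex.normSq_eq_conj_mul_self, Complex.normSq_eq_norm_sq, Complex.ofReal_re]
  have hvP : (star v ⬝ᵥ P *ᵥ v).re = (star u ⬝ᵥ u).re := by
    have := opt_conj B 1 v
    rw [Matrix.mul_one, Matrix.one_mulVec] at this
    rw [hB, this]
  have hvQ : t * (star v ⬝ᵥ Q *ᵥ v).re = (star u ⬝ᵥ M *ᵥ u).re := by
    rw [hQR, opt_conj, hM, Matrix.smul_mulVec, dotProduct_smul, smul_eq_mul, Complex.re_ofReal_mul]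
  have htr : M.trace.re = ∑ i, hMp.isHermitian.eigenvalues i := by
    rw [hMp.isHermitian.trace_eq_sum_eigenvalues, Complex.re_sum]
    exact Finset.sum_congr rfl fun i _ => Complex.ofReal_re _
  have hq := opt_quad M hMp u
  rw [htr] at hq
  have hp := opt_prod_ge Finset.univ hMp.isHermitian.eigenvalues
    (fun i => hMp.eigenvalues_nonneg i) ha
  rw [Finset.card_univ, ← hD] at hp
  have hU : 0 ≤ (star u ⬝ᵥ u).re := by
    rw [opt_star_dot]
    exact Finset.sum_nonneg fun i _ => by positivity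
  rw [hvP, hvQ, hdetP, hdet]
  have han : 0 ≤ a ^ Fintype.card n := pow_nonneg ha _
  have hdn : 0 ≤ ‖B.det‖ ^ 2 := by positivity
  have h1 : a ^ Fintype.card n * (a * (star u ⬝ᵥ u).re + (star u ⬝ᵥ M *ᵥ u).re) ≤
      a * D * (star u ⬝ᵥ u).re := by
    calc a ^ Fintype.card n * (a * (star u ⬝ᵥ u).re + (star u ⬝ᵥ M *ᵥ u).re)
        ≤ a ^ Fintype.card n * (a * (star u ⬝ᵥ u).re +
            (∑ i, hMp.isHermitian.eigenvalues i) * (star u ⬝ᵥ u).re) :=
          mul_le_mul_of_nonneg_left (by linarith) han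
      _ = a ^ Fintype.card n * (a + ∑ i, hMp.isHermitian.eigenvalues i) *
            (star u ⬝ᵥ u).re := by ring
      _ ≤ a * D * (star u ⬝ᵥ u).re := mul_le_mul_of_nonneg_right hp hU
  calc a ^ Fintype.card n * (a * (star u ⬝ᵥ u).re + (star u ⬝ᵥ M *ᵥ u).re) * ‖B.det‖ ^ 2
      ≤ a * D * (star u ⬝ᵥ u).re * ‖B.det‖ ^ 2 := mul_le_mul_of_nonneg_right h1 hdn
    _ = a * (‖B.det‖ ^ 2 * D) * (star u ⬝ᵥ u).re := by ring

end mat

section states

variable {A : Type} [CStarAlgebra A]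

theorem opt_cvx {ω ω' : A →ₗ[ℂ] ℂ} (h : St A ω) (h' : St A ω') {a t : ℝ} (ha : 0 ≤ a)
    (ht : 0 ≤ t) (hat : a + t = 1) : St A ((a : ℂ) • ω + (t : ℂ) • ω') := by
  constructor
  · intro x
    simp only [LinearMap.add_apply, LinearMap.smul_apply, smul_eq_mul]
    exact add_nonneg (mul_nonneg (Complex.zero_le_real.2 ha) (h.pos x))
      (mul_nonneg (Complex.zero_le_real.2 ht) (h'.pos x))
  · simp only [LinearMap.add_apply, LinearMap.smul_apply, smul_eq_mul, h.one, h'.one, mul_one]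
    rw [← Complex.ofReal_add, hat, Complex.ofReal_one]

theorem opt_cvx_re {ω ω' : A →ₗ[ℂ] ℂ} (a t : ℝ) (z : A) :
    (((a : ℂ) • ω + (t : ℂ) • ω') z).re = a * (ω z).re + t * (ω' z).re := by
  simp only [LinearMap.add_apply, LinearMap.smul_apply, smul_eq_mul, Complex.add_re,
    Complex.re_ofReal_mul]

theorem opt_re_nonneg {ω : A →ₗ[ℂ] ℂ} (h : St A ω) (x : A) : 0 ≤ (ω (star x * x)).re :=
  (Complex.le_def.1 (h.pos x)).1

/-- the Gram matrix -/
noncomputable def gram {d : ℕ} (b : Fin d → A) (ω : A →ₗ[ℂ] ℂ) : Matrix (Fin d) (Fin d) ℂ :=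
  Matrix.of fun i j => ω (star (b i) * b j)

theorem gram_quad {d : ℕ} (b : Fin d → A) (ω : A →ₗ[ℂ] ℂ) (v : Fin d → ℂ) :
    star v ⬝ᵥ (gram b ω) *ᵥ v = ω (star (∑ i, v i • b i) * ∑ i, v i • b i) := by
  rw [star_sum, Finset.sum_mul_sum, map_sum]
  simp only [dotProduct, Matrix.mulVec, gram, Matrix.of_apply, Pi.star_apply, map_sum]
  refine Finset.sum_congr rfl fun i _ => ?_
  rw [Finset.mul_sum]
  refine Finset.sum_congr rfl fun j _ => ?_
  rw [star_smul, smul_mul_smul_comm, map_smul, smul_eq_mul]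
  ring

theorem gram_herm (h2 : S_BAS) {d : ℕ} (b : Fin d → A) {ω : A →ₗ[ℂ] ℂ} (h : St A ω) :
    (gram b ω).IsHermitian := by
  ext i j
  simp only [gram, Matrix.conjTranspose_apply, Matrix.of_apply]
  rw [← (h2 A ω h).1, star_mul, star_star]

theorem gram_psd (h2 : S_BAS) {d : ℕ} (b : Fin d → A) {ω : A →ₗ[ℂ] ℂ} (h : St A ω) :
    (gram b ω).PosSemidef := by
  refine Matrix.PosSemidef.of_dotProduct_mulVec_nonneg (gram_herm h2 b h) fun v => ?_
  rw [gram_quad]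
  exact h.pos _

theorem gram_cvx {d : ℕ} (b : Fin d → A) (ω ω' : A →ₗ[ℂ] ℂ) (a t : ℝ) :
    gram b ((a : ℂ) • ω + (t : ℂ) • ω') = (a : ℂ) • gram b ω + (t : ℂ) • gram b ω' := by
  ext i j
  simp [gram]

theorem gram_bound (h2 : S_BAS) {d : ℕ} (b : Fin d → A) :
    ∃ K : ℝ, ∀ ω : A →ₗ[ℂ] ℂ, St A ω → (gram b ω).det.re ≤ K := by
  set k : ℝ := ∑ i, ∑ j, ‖b i‖ * ‖b j‖ with hk
  have hkk : ∀ ω : A →ₗ[ℂ] ℂ, St A ω → ∀ i j, ‖gram b ω i j‖ ≤ k := by
    intro ω h i j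
    simp only [gram, Matrix.of_apply]
    refine ((h2 A ω h).2.1 _).trans ((norm_mul_le _ _).trans ?_)
    rw [norm_star]
    have e1 : ‖b i‖ * ‖b j‖ ≤ ∑ j, ‖b i‖ * ‖b j‖ :=
      Finset.single_le_sum (f := fun j => ‖b i‖ * ‖b j‖) (fun j _ => by positivity)
        (Finset.mem_univ j)
    have e2 : ∑ j, ‖b i‖ * ‖b j‖ ≤ k :=
      Finset.single_le_sum (f := fun i => ∑ j, ‖b i‖ * ‖b j‖)
        (fun i _ => Finset.sum_nonneg fun j _ => by positivity) (Finset.mem_univ i)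
    exact e1.trans e2
  refine ⟨(Fintype.card (Fin d)).factorial • k ^ Fintype.card (Fin d), fun ω h => ?_⟩
  have h3 := Matrix.det_le (A := gram b ω) (abv := NormedField.toAbsoluteValue ℂ) (x := k)
    (fun i j => hkk ω h i j)
  exact (Complex.re_le_norm _).trans h3

end states

/-- a state which is faithful on a finite-dimensional subspace -/
theorem opt_faithful (h1 : S_ST) (h2 : S_BAS) (A : Type) [CStarAlgebra A] [Nontrivial A]
    (E : Submodule ℂ A) [FiniteDimensional ℂ E] :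
    ∃ ω : A →ₗ[ℂ] ℂ, St A ω ∧ ∀ x ∈ E, x ≠ 0 → 0 < (ω (star x * x)).re := by
  choose s hs hsx using h1 A
  have hcont : ∀ ω : A →ₗ[ℂ] ℂ, St A ω → Continuous ω := by
    intro ω h
    refine AddMonoidHomClass.continuous_of_bound ω 1 fun x => ?_
    rw [one_mul]
    exact (h2 A ω h).2.1 x
  have : ProperSpace E := FiniteDimensional.proper ℂ E
  have hU : ∀ x ∈ Metric.sphere (0 : E) 1,
      {y : E | 0 < (s (x : A) (star (y : A) * (y : A))).re} ∈ nhds x := by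
    intro x hx
    have hc : Continuous fun y : E => (s (x : A) (star (y : A) * (y : A))).re := by
      have := hcont _ (hs (x : A))
      fun_prop
    refine (isOpen_lt continuous_const hc).mem_nhds ?_
    show 0 < (s (x : A) (star (x : A) * (x : A))).re
    rw [hsx, Complex.ofReal_re]
    have : ‖(x : A)‖ = 1 := by
      have := mem_sphere_zero_iff_norm.1 hx
      exact this
    rw [this]
    norm_num
  obtain ⟨T, -, hT⟩ := (isCompact_sphere (0 : E) 1).elim_nhds_subcover _ hU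
  have hfin : ∀ T : Finset E, ∃ ω : A →ₗ[ℂ] ℂ, St A ω ∧ ∀ y : A, (∃ x ∈ T,
      0 < (s (x : A) (star y * y)).re) → 0 < (ω (star y * y)).re := by
    intro T
    classical
    induction T using Finset.induction_on with
    | empty => exact ⟨s 0, hs 0, by simp⟩
    | insert x T _ ih =>
      obtain ⟨ω, hω, hω2⟩ := ih
      refine ⟨((1 / 2 : ℝ) : ℂ) • ω + ((1 / 2 : ℝ) : ℂ) • s (x : A),
        opt_cvx hω (hs _) (by norm_num) (by norm_num) (by norm_num), ?_⟩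
      rintro y ⟨z, hz, hzy⟩
      rw [opt_cvx_re]
      have p1 := opt_re_nonneg hω y
      have p2 := opt_re_nonneg (hs (x : A)) y
      rcases Finset.mem_insert.1 hz with rfl | hz
      · linarith
      · have := hω2 y ⟨z, hz, hzy⟩
        linarith
  obtain ⟨ω, hω, hω2⟩ := hfin T
  refine ⟨ω, hω, fun x hx hx0 => ?_⟩
  have hn : 0 < ‖x‖ := norm_pos_iff.2 hx0
  set y : E := ((‖x‖⁻¹ : ℝ) : ℂ) • (⟨x, hx⟩ : E) with hy
  have hysph : y ∈ Metric.sphere (0 : E) 1 := by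
    rw [mem_sphere_zero_iff_norm, hy, norm_smul, Complex.norm_real, Real.norm_eq_abs,
      abs_of_pos (inv_pos.2 hn)]
    exact inv_mul_cancel₀ hn.ne'
  have hyU := hT hysph
  rw [Set.mem_iUnion₂] at hyU
  obtain ⟨z, hz, hzy⟩ := hyU
  have h3 := hω2 (y : A) ⟨z, hz, hzy⟩
  have h4 : star (y : A) * (y : A) = ((‖x‖⁻¹ * ‖x‖⁻¹ : ℝ) : ℂ) • (star x * x) := by
    have e1 : (y : A) = ((‖x‖⁻¹ : ℝ) : ℂ) • x := rfl
    rw [e1, star_smul, smul_mul_smul_comm, Complex.star_def, Complex.conj_ofReal,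
      ← Complex.ofReal_mul]
  rw [h4, map_smul, smul_eq_mul, Complex.re_ofReal_mul] at h3
  have h5 : 0 < ‖x‖⁻¹ * ‖x‖⁻¹ := by positivity
  exact (pos_iff_pos_of_mul_pos h3).1 h5

theorem t_OPT (h1 : S_ST) (h2 : S_BAS) : S_OPT := by
  intro A _ _ E _
  obtain ⟨s1, hs1, hs1f⟩ := opt_faithful h1 h2 A E
  rcases Nat.eq_zero_or_pos (Module.finrank ℂ E) with hd | hd
  · refine ⟨s1, hs1, fun x hx => ?_⟩
    have : x = 0 := by
      have hE : E = ⊥ := Submodule.finrank_eq_zero.1 hd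
      rw [hE] at hx
      exact (Submodule.mem_bot ℂ).1 hx
    rw [hd, this]
    simp
  set d := Module.finrank ℂ E with hdd
  let bE : Module.Basis (Fin d) ℂ E := Module.finBasis ℂ E
  let b : Fin d → A := fun i => (bE i : A)
  have hrep : ∀ x (hx : x ∈ E), ∑ i, (bE.repr ⟨x, hx⟩ i) • b i = x := by
    intro x hx
    have e1 : ∑ i, (bE.repr ⟨x, hx⟩ i) • b i =
        ((∑ i, (bE.repr ⟨x, hx⟩ i) • bE i : E) : A) := by
      push_cast
      rfl
    rw [e1, bE.sum_repr]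
  have hb0 : ∀ v : Fin d → ℂ, ∑ i, v i • b i = 0 → v = 0 := by
    intro v hv
    have e1 : ∑ i, v i • bE i = 0 := by
      apply Subtype.ext
      simpa [b] using hv
    have := Fintype.linearIndependent_iff.1 bE.linearIndependent v e1
    funext i
    exact this i
  have hbE : ∀ v : Fin d → ℂ, ∑ i, v i • b i ∈ E :=
    fun v => Submodule.sum_mem _ fun i _ => Submodule.smul_mem _ _ (bE i).2
  have hpd : (gram b s1).PosDef := by
    refine Matrix.PosDef.of_dotProduct_mulVec_pos (gram_herm h2 b hs1) fun v hv => ?_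
    rw [gram_quad]
    refine lt_of_le_of_ne (hs1.pos _) fun h0 => ?_
    have := hs1f _ (hbE v) (fun h => hv (hb0 v h))
    rw [← h0] at this
    simp at this
  obtain ⟨K, hK⟩ := gram_bound h2 b
  set 𝒟 : Set ℝ := {r | ∃ ω : A →ₗ[ℂ] ℂ, St A ω ∧ (gram b ω).det.re = r} with h𝒟
  have hbdd : BddAbove 𝒟 := ⟨K, by rintro r ⟨ω, hω, rfl⟩; exact hK ω hω⟩
  have hne : 𝒟.Nonempty := ⟨_, s1, hs1, rfl⟩
  have hpos1 : 0 < (gram b s1).det.re := (Complex.lt_def.1 hpd.det_pos).1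
  have hSpos : 0 < sSup 𝒟 := hpos1.trans_le (le_csSup hbdd ⟨s1, hs1, rfl⟩)
  obtain ⟨r, ⟨s0, hs0, rfl⟩, hr⟩ := exists_lt_of_lt_csSup hne (half_lt_self hSpos)
  have hpos0 : 0 < (gram b s0).det.re := (half_pos hSpos).trans hr
  have hpd0 : (gram b s0).PosDef := by
    rw [(gram_psd h2 b hs0).posDef_iff_det_ne_zero]
    intro h
    rw [h] at hpos0
    simp at hpos0
  refine ⟨s0, hs0, fun x hx => ?_⟩
  obtain ⟨s, hs, hsx⟩ := h1 A x
  have hd1 : (1 : ℝ) ≤ d := by exact_mod_cast hd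
  set t : ℝ := 1 / (2 * d) with ht
  have ht0 : 0 < t := by positivity
  have ht1 : t ≤ 1 / 2 := by
    rw [ht]
    exact one_div_le_one_div_of_le (by norm_num) (by linarith)
  have hdt : (d : ℝ) * t = 1 / 2 := by
    rw [ht]; field_simp
  set v : Fin d → ℂ := fun i => bE.repr ⟨x, hx⟩ i with hv
  have hkey := opt_key (gram b s0) (gram b s) hpd0 (gram_psd h2 b hs) v (1 - t) t (by linarith)
    ht0.le
  rw [← gram_cvx, gram_quad, gram_quad, hrep x hx, hsx, Complex.ofReal_re] at hkey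
  have hst := opt_cvx hs0 hs (a := 1 - t) (t := t) (by linarith) ht0.le (by ring)
  have hle : (gram b (((1 - t : ℝ) : ℂ) • s0 + (t : ℂ) • s)).det.re ≤ 2 * (gram b s0).det.re := by
    have := le_csSup hbdd ⟨_, hst, rfl⟩
    linarith
  have hp := opt_re_nonneg hs0 x
  set p := (s0 (star x * x)).re with hpdef
  set f0 := (gram b s0).det.re with hf0
  have hbern : 1 / 2 ≤ (1 - t) ^ d := by
    have := one_add_mul_le_pow (a := -t) (by linarith) d
    have e1 : 1 + (d : ℝ) * -t = 1 / 2 := by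
      rw [mul_neg, hdt]; norm_num
    rw [e1] at this
    exact this
  rw [Fintype.card_fin] at hkey
  have hx2 : 0 ≤ ‖x‖ ^ 2 := by positivity
  have ha0 : 0 ≤ 1 - t := by linarith
  have h3 : (1 / 2) * ((1 - t) * p + t * ‖x‖ ^ 2) * f0 ≤ (1 - t) * (2 * f0) * p := by
    calc (1 / 2) * ((1 - t) * p + t * ‖x‖ ^ 2) * f0
        ≤ (1 - t) ^ d * ((1 - t) * p + t * ‖x‖ ^ 2) * f0 :=
          mul_le_mul_of_nonneg_right (mul_le_mul_of_nonneg_right hbern (by positivity)) hpos0.le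
      _ ≤ (1 - t) * (gram b (((1 - t : ℝ) : ℂ) • s0 + (t : ℂ) • s)).det.re * p := hkey
      _ ≤ (1 - t) * (2 * f0) * p :=
          mul_le_mul_of_nonneg_right (mul_le_mul_of_nonneg_left hle ha0) hp
  have h4 : (1 / 2) * ((1 - t) * p + t * ‖x‖ ^ 2) ≤ (1 - t) * 2 * p := by
    refine le_of_mul_le_mul_right ?_ hpos0
    calc (1 / 2) * ((1 - t) * p + t * ‖x‖ ^ 2) * f0 ≤ (1 - t) * (2 * f0) * p := h3
      _ = (1 - t) * 2 * p * f0 := by ring
  have h5 : t * ‖x‖ ^ 2 ≤ 3 * p := by nlinarith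
  have h6 : ‖x‖ ^ 2 = 2 * ((d : ℝ) * t) * ‖x‖ ^ 2 := by rw [hdt]; ring
  rw [h6]
  nlinarith

end Pool.Agent.N635.SG
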