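import Pool.Agent.N635.SG.Stm

/-!
# SG/PHI: compression to a finite-dimensional subspace of the GNS space (helper764)
-/

set_option autoImplicit false

namespace Pool.Agent.N635.SG

open scoped ComplexOrder MatrixOrder
open Matrix

noncomputable section

theorem phi_psd {I : Type} [Fintype I] [DecidableEq I] (G : Matrix I I ℂ)
    (hH : G.IsHermitian) (h : ∀ v : I → ℂ, 0 ≤ star v ⬝ᵥ (G *ᵥ v)) :
    ∃ Z : Matrix I I ℂ, G = Zᴴ * Z := by
  have hG : G.PosSemidef := .of_dotProduct_mulVec_nonneg hH h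
  obtain ⟨B, hB⟩ := CStarAlgebra.nonneg_iff_eq_star_mul_self.mp hG.nonneg
  exact ⟨B, hB⟩

/-- The matrix of the compression. -/
def cmpM {A : Type} [CStarAlgebra A] (ω : A →ₗ[ℂ] ℂ) {k : ℕ} (e : Fin k → A) (a : A) :
    Matrix (Fin k) (Fin k) ℂ :=
  Matrix.of fun i j => ω (star (e i) * (a * e j))

/-- The compression. -/
def cmpL {A : Type} [CStarAlgebra A] (ω : A →ₗ[ℂ] ℂ) {k : ℕ} (e : Fin k → A) : A →ₗ[ℂ] Op k where
  toFun a := Matrix.toEuclideanCLM (n := Fin k) (𝕜 := ℂ) (cmpM ω e a)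
  map_add' a b := by
    rw [← map_add]
    congr 1
    ext i j
    simp [cmpM, add_mul, mul_add]
  map_smul' c a := by
    rw [RingHom.id_apply, ← map_smul]
    congr 1
    ext i j
    simp [cmpM]

theorem ent_toE {k : ℕ} (M : Matrix (Fin k) (Fin k) ℂ) (i j : Fin k) :
    ent (Matrix.toEuclideanCLM (n := Fin k) (𝕜 := ℂ) M) i j = M i j := by
  unfold ent
  have h := Matrix.ofLp_toEuclideanCLM (𝕜 := ℂ) M (EuclideanSpace.single j (1 : ℂ))
  have h2 := congrFun h i
  rw [h2]
  simp [Matrix.mulVec, dotProduct]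

theorem phi_form {A : Type} [CStarAlgebra A] (ω : A →ₗ[ℂ] ℂ) {I J : Type} [Fintype I] [Fintype J]
    (u : I → A) (w : J → A) (a : A) (c : I → ℂ) (d : J → ℂ) :
    ω (star (∑ i, c i • u i) * (a * ∑ j, d j • w j)) =
      ∑ i, ∑ j, star (c i) * (ω (star (u i) * (a * w j)) * d j) := by
  rw [star_sum, Finset.sum_mul, map_sum]
  refine Finset.sum_congr rfl fun i _ => ?_
  rw [Finset.mul_sum, Finset.mul_sum, map_sum]
  refine Finset.sum_congr rfl fun j _ => ?_
  rw [star_smul, smul_mul_assoc, mul_smul_comm, mul_smul_comm, map_smul, map_smul, smul_eq_mul,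
    smul_eq_mul]
  ring

theorem t_PHI (h1 : S_BAS) : S_PHI := by
  intro A _ ω k e hω hon
  obtain ⟨bstar, bnorm, bcs, bmul⟩ := h1 A ω hω
  refine ⟨cmpL ω e, fun a i j => ?_, fun n y => ?_, fun a => ?_⟩
  · exact ent_toE _ _ _
  · -- complete positivity
    let G : Matrix (Fin n × Fin k) (Fin n × Fin k) ℂ :=
      Matrix.of fun p q => ω (star (e p.2) * (((yᴴ * y) p.1 q.1) * e q.2))
    have hG : ∀ p q, G p q = ∑ c, ω (star (y c p.1 * e p.2) * (y c q.1 * e q.2)) := by
      intro p q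
      change ω (star (e p.2) * (((yᴴ * y) p.1 q.1) * e q.2)) = _
      rw [Matrix.mul_apply, Finset.sum_mul, Finset.mul_sum, map_sum]
      refine Finset.sum_congr rfl fun c _ => ?_
      rw [Matrix.conjTranspose_apply, star_mul]
      simp only [mul_assoc]
    have hH : G.IsHermitian := by
      ext p q
      rw [Matrix.conjTranspose_apply, hG, hG, star_sum]
      refine Finset.sum_congr rfl fun c _ => ?_
      rw [← bstar, star_mul, star_star]
    have hP : ∀ v : Fin n × Fin k → ℂ, 0 ≤ star v ⬝ᵥ (G *ᵥ v) := by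
      intro v
      have e1 : star v ⬝ᵥ (G *ᵥ v) =
          ∑ c, ω (star (∑ p, v p • (y c p.1 * e p.2)) * (∑ q, v q • (y c q.1 * e q.2))) := by
        have : ∀ c, ω (star (∑ p, v p • (y c p.1 * e p.2)) * (∑ q, v q • (y c q.1 * e q.2))) =
            ∑ p, ∑ q, star (v p) * (ω (star (y c p.1 * e p.2) * (y c q.1 * e q.2)) * v q) := by
          intro c
          have := phi_form ω (fun p : Fin n × Fin k => y c p.1 * e p.2)
            (fun p : Fin n × Fin k => y c p.1 * e p.2) 1 v v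
          simpa using this
        simp only [this]
        rw [Finset.sum_comm]
        simp only [dotProduct, Matrix.mulVec, hG, Pi.star_apply, Finset.mul_sum, Finset.sum_mul]
        refine Finset.sum_congr rfl fun p _ => ?_
        rw [Finset.sum_comm]
      rw [e1]
      exact Finset.sum_nonneg fun c _ => hω.pos _
    obtain ⟨Z, hZ⟩ := phi_psd G hH hP
    let B : Fin n → Fin n → Matrix (Fin k) (Fin k) ℂ := fun a b =>
      Matrix.of fun i j => Z (a, i) (b, j)
    have hsum : ∀ a b, ∑ c, star (Matrix.toEuclideanCLM (n := Fin k) (𝕜 := ℂ) (B c a)) *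
        Matrix.toEuclideanCLM (n := Fin k) (𝕜 := ℂ) (B c b) =
        Matrix.toEuclideanCLM (n := Fin k) (𝕜 := ℂ) (∑ c, star (B c a) * B c b) := by
      intro a b
      rw [map_sum]
      refine Finset.sum_congr rfl fun c _ => ?_
      rw [map_mul, map_star]
    refine ⟨Matrix.of fun a b => Matrix.toEuclideanCLM (n := Fin k) (𝕜 := ℂ) (B a b), ?_⟩
    ext1 a b
    rw [Matrix.map_apply, Matrix.mul_apply]
    change Matrix.toEuclideanCLM (n := Fin k) (𝕜 := ℂ) (cmpM ω e ((yᴴ * y) a b)) =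
      ∑ c, star (Matrix.toEuclideanCLM (n := Fin k) (𝕜 := ℂ) (B c a)) *
        Matrix.toEuclideanCLM (n := Fin k) (𝕜 := ℂ) (B c b)
    rw [hsum]
    congr 1
    ext i j
    have h2 := congrFun (congrFun hZ (a, i)) (b, j)
    change ω (star (e i) * (((yᴴ * y) a b) * e j)) = _ at h2
    change ω (star (e i) * (((yᴴ * y) a b) * e j)) = _
    rw [h2, Matrix.mul_apply, Fintype.sum_prod_type, Matrix.sum_apply]
    refine Finset.sum_congr rfl fun c _ => ?_
    rw [Matrix.mul_apply]
    rfl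
  · -- contractive
    refine ContinuousLinearMap.opNorm_le_bound _ (norm_nonneg _) fun x => ?_
    set v : EuclideanSpace ℂ (Fin k) := cmpL ω e a x with hv
    have hvi : ∀ i, v i = ∑ j, ω (star (e i) * (a * e j)) * x j := by
      intro i
      have h := Matrix.ofLp_toEuclideanCLM (𝕜 := ℂ) (cmpM ω e a) x
      exact congrFun h i
    have hno : ∀ c : EuclideanSpace ℂ (Fin k),
        ω (star (∑ i, c i • e i) * (∑ i, c i • e i)) = ((‖c‖ ^ 2 : ℝ) : ℂ) := by
      intro c
      have := phi_form ω e e 1 (fun i => c i) (fun i => c i)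
      rw [one_mul] at this
      rw [this, EuclideanSpace.norm_sq_eq]
      push_cast
      refine Finset.sum_congr rfl fun i _ => ?_
      simp only [one_mul, hon]
      simp only [ite_mul, one_mul, zero_mul, mul_ite, mul_zero, Finset.sum_ite_eq,
        Finset.mem_univ, if_true]
      rw [Complex.star_def, ← Complex.normSq_eq_conj_mul_self, Complex.normSq_eq_norm_sq]
      push_cast
      rfl
    have hvv : ω (star (∑ i, v i • e i) * (a * ∑ j, x j • e j)) = ((‖v‖ ^ 2 : ℝ) : ℂ) := by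
      have := phi_form ω e e a (fun i => v i) (fun i => x i)
      rw [this, EuclideanSpace.norm_sq_eq]
      push_cast
      refine Finset.sum_congr rfl fun i _ => ?_
      rw [← Finset.mul_sum, ← hvi, Complex.star_def, ← Complex.normSq_eq_conj_mul_self,
        Complex.normSq_eq_norm_sq]
      push_cast
      rfl
    have hcs := bcs (a * ∑ j, x j • e j) (∑ i, v i • e i)
    have hmu := bmul a (∑ j, x j • e j)
    rw [hvv, hno] at hcs
    rw [hno] at hmu
    rw [Complex.ofReal_re] at hcs hmu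
    have h3 : ‖(((‖v‖ ^ 2 : ℝ) : ℂ))‖ = ‖v‖ ^ 2 := by
      rw [Complex.norm_real, Real.norm_of_nonneg (by positivity)]
    rw [h3] at hcs
    have h4 : (‖v‖ ^ 2) ^ 2 ≤ ‖v‖ ^ 2 * (‖a‖ ^ 2 * ‖x‖ ^ 2) :=
      hcs.trans (mul_le_mul_of_nonneg_left hmu (by positivity))
    rcases eq_or_lt_of_le (norm_nonneg v) with h0 | h0
    · rw [← h0]; positivity
    · have h5 : ‖v‖ ^ 2 ≤ (‖a‖ * ‖x‖) ^ 2 := by
        have h6 : 0 < ‖v‖ ^ 2 := by positivity
        have h7 : ‖v‖ ^ 2 * ‖v‖ ^ 2 ≤ ‖v‖ ^ 2 * (‖a‖ ^ 2 * ‖x‖ ^ 2) := by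
          calc ‖v‖ ^ 2 * ‖v‖ ^ 2 = (‖v‖ ^ 2) ^ 2 := by ring
            _ ≤ _ := h4
        have := le_of_mul_le_mul_left h7 h6
        calc ‖v‖ ^ 2 ≤ ‖a‖ ^ 2 * ‖x‖ ^ 2 := this
          _ = _ := by ring
      exact le_of_sq_le_sq h5 (by positivity) |> fun h => h

end

end Pool.Agent.N635.SG
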