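import Pool.Agent.N635.SG.Stm

/-!
# Part PSI of project SG: the map from the matrices to the algebra (helper593)
-/

set_option autoImplicit false

namespace Pool.Agent.N635.SG

open scoped ComplexOrder
open Filter

noncomputable section

namespace PSI

lemma ent_add {k : ℕ} (b c : Op k) (i j : Fin k) : ent (b + c) i j = ent b i j + ent c i j := by
  simp [ent]

lemma ent_smul {k : ℕ} (r : ℂ) (b : Op k) (i j : Fin k) : ent (r • b) i j = r * ent b i j := by
  simp [ent]

lemma ent_star_mul {k : ℕ} (u v : Op k) (i j : Fin k) :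
    ent (star u * v) i j = ∑ l, star (ent u l i) * ent v l j := by
  have h1 : ent (star u * v) i j
      = inner ℂ (EuclideanSpace.single i (1 : ℂ)) ((star u * v) (EuclideanSpace.single j (1 : ℂ))) := by
    rw [EuclideanSpace.inner_single_left]
    simp [ent]
  rw [h1, mul_apply_eq_comp, ContinuousLinearMap.star_eq_adjoint,
    ContinuousLinearMap.adjoint_inner_right, PiLp.inner_apply]
  refine Finset.sum_congr rfl fun l _ => ?_
  simp [ent, mul_comm]

lemma fb_ent {k : ℕ} (b : Op k) : FB (ent b) ‖b‖ := by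
  intro c c'
  have hb : ∀ i, (b (WithLp.toLp 2 c)) i = ∑ j, ent b i j * c j := by
    intro i
    have hc : (WithLp.toLp 2 c : EuclideanSpace ℂ (Fin k))
        = ∑ j, c j • EuclideanSpace.single j (1 : ℂ) := by
      ext l
      simp [Finset.sum_apply, Pi.single_apply]
    rw [hc, map_sum]
    simp [ent, mul_comm]
  have h1 : (∑ i, ∑ j, star (c' i) * ent b i j * c j)
      = inner ℂ (WithLp.toLp 2 c' : EuclideanSpace ℂ (Fin k)) (b (WithLp.toLp 2 c)) := by
    rw [PiLp.inner_apply]
    refine Finset.sum_congr rfl fun i _ => ?_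
    rw [hb]
    simp only [RCLike.inner_apply, Finset.sum_mul]
    refine Finset.sum_congr rfl fun j _ => ?_
    simp
    ring
  rw [h1]
  have e1 : ‖(WithLp.toLp 2 c' : EuclideanSpace ℂ (Fin k))‖ = Real.sqrt (∑ i, ‖c' i‖ ^ 2) := by
    rw [EuclideanSpace.norm_eq]
  have e2 : ‖(WithLp.toLp 2 c : EuclideanSpace ℂ (Fin k))‖ = Real.sqrt (∑ i, ‖c i‖ ^ 2) := by
    rw [EuclideanSpace.norm_eq]
  calc ‖inner ℂ (WithLp.toLp 2 c' : EuclideanSpace ℂ (Fin k)) (b (WithLp.toLp 2 c))‖
      ≤ ‖(WithLp.toLp 2 c' : EuclideanSpace ℂ (Fin k))‖ * ‖b (WithLp.toLp 2 c)‖ :=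
        norm_inner_le_norm _ _
    _ ≤ ‖(WithLp.toLp 2 c' : EuclideanSpace ℂ (Fin k))‖ *
          (‖b‖ * ‖(WithLp.toLp 2 c : EuclideanSpace ℂ (Fin k))‖) :=
        mul_le_mul_of_nonneg_left (b.le_opNorm _) (norm_nonneg _)
    _ = _ := by rw [e1, e2]; ring

/-- The map. -/
def psi {A : Type} [CStarAlgebra A] {k : ℕ} {P : Type} [Fintype P] (x : P → Fin k → A) :
    Op k →ₗ[ℂ] A where
  toFun b := ∑ p, ∑ i, ∑ j, ent b i j • (x p i * star (x p j))
  map_add' b c := by
    simp only [ent_add, add_smul, Finset.sum_add_distrib]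
  map_smul' r b := by
    simp only [ent_smul, mul_smul, Finset.smul_sum, RingHom.id_apply]

lemma psi_apply {A : Type} [CStarAlgebra A] {k : ℕ} {P : Type} [Fintype P] (x : P → Fin k → A)
    (b : Op k) : psi x b = ∑ p, ∑ i, ∑ j, ent b i j • (x p i * star (x p j)) := rfl

lemma psi_star_mul {A : Type} [CStarAlgebra A] {k : ℕ} {P : Type} [Fintype P] (x : P → Fin k → A)
    (u v : Op k) : psi x (star u * v) =
      ∑ p, ∑ l, (∑ i, star (ent u l i) • x p i) * star (∑ j, star (ent v l j) • x p j) := by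
  rw [psi_apply]
  refine Finset.sum_congr rfl fun p _ => ?_
  have : ∀ l, (∑ i, star (ent u l i) • x p i) * star (∑ j, star (ent v l j) • x p j)
      = ∑ i, ∑ j, (star (ent u l i) * ent v l j) • (x p i * star (x p j)) := by
    intro l
    rw [star_sum, Finset.sum_mul_sum]
    refine Finset.sum_congr rfl fun i _ => Finset.sum_congr rfl fun j _ => ?_
    rw [star_smul, star_star, smul_mul_smul_comm]
  rw [Finset.sum_congr rfl fun l _ => this l]
  symm
  rw [Finset.sum_comm]
  refine Finset.sum_congr rfl fun i _ => ?_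
  rw [Finset.sum_comm]
  refine Finset.sum_congr rfl fun j _ => ?_
  rw [ent_star_mul, Finset.sum_smul]

end PSI

open PSI in
theorem t_PSI (h1 : S_CS) (h2 : S_SQ) : S_PSI := by
  intro A _ k P _ x hx
  refine ⟨psi x, psi_apply x, ?_, ?_⟩
  · intro n y
    obtain ⟨z, hz⟩ := h2 A n (Fin n × P × Fin k)
      (fun q a => star (∑ i, star (ent (y q.1 a) q.2.2 i) • x q.2.1 i))
    refine ⟨z, ?_⟩
    ext a b
    rw [← hz a b, Matrix.map_apply, Matrix.mul_apply, map_sum, Fintype.sum_prod_type]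
    refine Finset.sum_congr rfl fun c _ => ?_
    rw [Matrix.conjTranspose_apply, psi_star_mul, Fintype.sum_prod_type]
    refine Finset.sum_congr rfl fun p _ => Finset.sum_congr rfl fun l _ => ?_
    rw [star_star]
  · intro b
    have h := h1 A (Fin k) P (ent b) ‖b‖ x x (norm_nonneg b) (fb_ent b)
    rw [psi_apply]
    refine h.trans ?_
    have hs : Real.sqrt ‖∑ p, ∑ i, x p i * star (x p i)‖ ≤ 1 := by
      rw [Real.sqrt_le_left zero_le_one, one_pow]
      exact hx
    have h0 := Real.sqrt_nonneg ‖∑ p, ∑ i, x p i * star (x p i)‖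
    calc ‖b‖ * (Real.sqrt ‖∑ p, ∑ i, x p i * star (x p i)‖ *
          Real.sqrt ‖∑ p, ∑ i, x p i * star (x p i)‖) ≤ ‖b‖ * (1 * 1) := by
          gcongr
      _ = ‖b‖ := by ring

end

end Pool.Agent.N635.SG
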