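import Mathlib
import Pool.Agent.N635.SG.Stm

/-!
# RES: resolvents and a Riemann sum
-/

set_option autoImplicit false

namespace Pool.Agent.N635.SG

namespace RES

/-! ### scalars -/

theorem step_up {t h : ℝ} (ht : 1 ≤ t) (hh : 0 < h) (n : ℕ) :
    h * (t * ((t + ((n : ℝ) + 1) * h)⁻¹ * (t + ((n : ℝ) + 1) * h)⁻¹)) ≤
      t / (t + n * h) - t / (t + ((n : ℝ) + 1) * h) := by
  have ht0 : 0 < t := by linarith
  obtain ⟨a, ha⟩ : ∃ a, a = t + n * h := ⟨_, rfl⟩
  have ha0 : 0 < a := by rw [ha]; positivity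
  have hb : t + ((n : ℝ) + 1) * h = a + h := by rw [ha]; ring
  rw [hb, ← ha]
  have hb0 : 0 < a + h := by linarith
  have e1 : t / a - t / (a + h) = h * t / (a * (a + h)) := by
    field_simp
    ring
  have e2 : h * (t * ((a + h)⁻¹ * (a + h)⁻¹)) = h * t / ((a + h) * (a + h)) := by
    field_simp
  rw [e1, e2]
  apply div_le_div_of_nonneg_left (by positivity) (by positivity)
  exact mul_le_mul_of_nonneg_right (by linarith) hb0.le

theorem step_low {t h : ℝ} (ht : 1 ≤ t) (hh : 0 < h) (n : ℕ) :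
    t / (t + ((n : ℝ) + 1) * h) - t / (t + ((n : ℝ) + 2) * h) ≤
    h * (t * ((t + ((n : ℝ) + 1) * h)⁻¹ * (t + ((n : ℝ) + 1) * h)⁻¹)) := by
  have ht0 : 0 < t := by linarith
  obtain ⟨a, ha⟩ : ∃ a, a = t + ((n : ℝ) + 1) * h := ⟨_, rfl⟩
  have ha0 : 0 < a := by rw [ha]; positivity
  have hb : t + ((n : ℝ) + 2) * h = a + h := by rw [ha]; ring
  rw [hb, ← ha]
  have hb0 : 0 < a + h := by linarith
  have e1 : t / a - t / (a + h) = h * t / (a * (a + h)) := by
    field_simp
    ring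
  have e2 : h * (t * (a⁻¹ * a⁻¹)) = h * t / (a * a) := by
    field_simp
  rw [e1, e2]
  apply div_le_div_of_nonneg_left (by positivity) (by positivity)
  exact mul_le_mul_of_nonneg_left (by linarith) ha0.le

theorem sum_up {t h : ℝ} (ht : 1 ≤ t) (hh : 0 < h) (M : ℕ) :
    ∑ j ∈ Finset.range M, h * (t * ((t + ((j : ℝ) + 1) * h)⁻¹ * (t + ((j : ℝ) + 1) * h)⁻¹)) ≤
      1 - t / (t + M * h) := by
  induction M with
  | zero =>
    have ht0 : 0 < t := by linarith
    simp [div_self ht0.ne']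
  | succ M ih =>
    rw [Finset.sum_range_succ]
    have := step_up ht hh M
    push_cast
    linarith

theorem sum_low {t h : ℝ} (ht : 1 ≤ t) (hh : 0 < h) (M : ℕ) :
    t / (t + h) - t / (t + ((M : ℝ) + 1) * h) ≤
    ∑ j ∈ Finset.range M, h * (t * ((t + ((j : ℝ) + 1) * h)⁻¹ * (t + ((j : ℝ) + 1) * h)⁻¹)) := by
  induction M with
  | zero => simp
  | succ M ih =>
    rw [Finset.sum_range_succ]
    have := step_low ht hh M
    push_cast
    have e : (M : ℝ) + 1 + 1 = M + 2 := by ring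
    rw [e]
    linarith

theorem sum_le_one {t h : ℝ} (ht : 1 ≤ t) (hh : 0 < h) (M : ℕ) :
    ∑ j : Fin M, h * (t * ((t + (((j : ℕ) : ℝ) + 1) * h)⁻¹ * (t + (((j : ℕ) : ℝ) + 1) * h)⁻¹)) ≤
      1 := by
  rw [Fin.sum_univ_eq_sum_range
    (fun j : ℕ => h * (t * ((t + ((j : ℝ) + 1) * h)⁻¹ * (t + ((j : ℝ) + 1) * h)⁻¹)))]
  refine (sum_up ht hh M).trans ?_
  have : 0 ≤ t / (t + M * h) := by positivity
  linarith

theorem sum_ge {t h B : ℝ} (ht : 1 ≤ t) (htB : t ≤ B) (hh : 0 < h) (M : ℕ) :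
    1 - ∑ j : Fin M, h * (t * ((t + (((j : ℕ) : ℝ) + 1) * h)⁻¹ *
      (t + (((j : ℕ) : ℝ) + 1) * h)⁻¹)) ≤ h + B / (h * (M + 1)) := by
  rw [Fin.sum_univ_eq_sum_range
    (fun j : ℕ => h * (t * ((t + ((j : ℝ) + 1) * h)⁻¹ * (t + ((j : ℝ) + 1) * h)⁻¹)))]
  have h1 := sum_low ht hh M
  have ht0 : 0 < t := by linarith
  have h2 : 1 - t / (t + h) ≤ h := by
    have : 1 - t / (t + h) = h / (t + h) := by
      field_simp
      ring
    rw [this, div_le_iff₀ (by positivity)]
    nlinarith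
  have h3 : t / (t + ((M : ℝ) + 1) * h) ≤ B / (h * (M + 1)) := by
    have hp : 0 < h * ((M : ℝ) + 1) := by positivity
    calc t / (t + ((M : ℝ) + 1) * h) ≤ t / (h * (M + 1)) := by
          apply div_le_div_of_nonneg_left ht0.le hp
          linarith
      _ ≤ B / (h * (M + 1)) := div_le_div_of_nonneg_right htB hp.le
  linarith

theorem tr_mem {t s : ℝ} (ht : 1 ≤ t) (hs : 0 < s) : 0 ≤ t * (t + s)⁻¹ ∧ t * (t + s)⁻¹ ≤ 1 := by
  have h0 : 0 < t + s := by linarith
  refine ⟨by positivity, ?_⟩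
  rw [← div_eq_mul_inv, div_le_one h0]
  linarith

end RES

open RES in
theorem t_RES : S_RES := by
  intro A _ _ I _ x i0 H h M hx0 hH hh hh1
  classical
  let _ : PartialOrder A := CStarAlgebra.spectralOrder A
  have _ : StarOrderedRing A := CStarAlgebra.spectralOrderedRing A
  have hsa : IsSelfAdjoint H := by
    rw [hH]
    exact isSelfAdjoint_sum _ fun i _ => IsSelfAdjoint.mul_star_self (x i)
  have hge : (1 : A) ≤ H := by
    rw [hH, ← Finset.add_sum_erase _ _ (Finset.mem_univ i0), hx0, star_one, one_mul]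
    exact le_add_of_nonneg_right (Finset.sum_nonneg fun i _ => mul_star_self_nonneg (x i))
  have hsp : ∀ t ∈ spectrum ℝ H, 1 ≤ t := by
    have h1 : algebraMap ℝ A 1 ≤ H := by rw [map_one]; exact hge
    exact (algebraMap_le_iff_le_spectrum hsa).1 h1
  have hspB : ∀ t ∈ spectrum ℝ H, t ≤ ‖H‖ := fun t ht =>
    (le_abs_self t).trans (spectrum.norm_le_norm_of_mem ht)
  -- the parameters
  have hs : ∀ j : Fin M, 0 < (((j : ℕ) : ℝ) + 1) * h := fun j => by positivity
  have hcr : ∀ j : Fin M, ContinuousOn (fun t : ℝ => (t + (((j : ℕ) : ℝ) + 1) * h)⁻¹)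
      (spectrum ℝ H) := by
    intro j
    refine ContinuousOn.inv₀ (by fun_prop) fun t ht => ?_
    have := hsp t ht
    have := hs j
    linarith
  have hcid : ContinuousOn (fun t : ℝ => t) (spectrum ℝ H) := continuousOn_id
  have hid : cfc (fun t : ℝ => t) H = H := cfc_id' ℝ H
  let r : Fin M → ℝ → ℝ := fun j t => (t + (((j : ℕ) : ℝ) + 1) * h)⁻¹
  let R : Fin M → A := fun j => cfc (r j) H
  have hR : ∀ j, R j = cfc (r j) H := fun j => rfl
  have hHR : ∀ j, H * R j = cfc (fun t => t * r j t) H := by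
    intro j
    rw [cfc_mul (fun t : ℝ => t) (r j) H hcid (hcr j), hid]
  have hRH : ∀ j, R j * H = cfc (fun t => r j t * t) H := by
    intro j
    rw [cfc_mul (r j) (fun t : ℝ => t) H (hcr j) hcid, hid]
  have hRHR : ∀ j, R j * H * R j = cfc (fun t => r j t * t * r j t) H := by
    intro j
    rw [cfc_mul (fun t => r j t * t) (r j) H ((hcr j).mul hcid) (hcr j), ← hRH j]
  have hHRR : ∀ j, H * R j * R j = cfc (fun t => t * r j t * r j t) H := by
    intro j
    rw [cfc_mul (fun t => t * r j t) (r j) H (hcid.mul (hcr j)) (hcr j), ← hHR j]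
  have hbig : ∀ j, (H * R j) * (R j * H * R j) * (H * R j) =
      cfc (fun t => (t * r j t) * (r j t * t * r j t) * (t * r j t)) H := by
    intro j
    rw [cfc_mul (fun t => (t * r j t) * (r j t * t * r j t)) (fun t => t * r j t) H
      ((hcid.mul (hcr j)).mul (((hcr j).mul hcid).mul (hcr j))) (hcid.mul (hcr j)),
      cfc_mul (fun t => t * r j t) (fun t => r j t * t * r j t) H (hcid.mul (hcr j))
      (((hcr j).mul hcid).mul (hcr j)), ← hHR j, ← hRHR j]
  have hsum : ∀ g : Fin M → ℝ → ℝ, (∀ j, ContinuousOn (g j) (spectrum ℝ H)) →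
      ∑ j, h • cfc (g j) H = cfc (fun t => ∑ j, h * g j t) H := by
    intro g hg
    have h1 : (fun t => ∑ j, h * g j t) = ∑ j, fun t => h * g j t := by
      funext t
      rw [Finset.sum_apply]
    rw [h1, cfc_sum_univ (fun j t => h * g j t) H (fun j => (hg j).const_smul h)]
    refine Finset.sum_congr rfl fun j _ => ?_
    rw [cfc_const_mul h (g j) H (hg j)]
  refine ⟨R, ?_, ?_, ?_, ?_, ?_, ?_, ?_, ?_⟩
  · intro j
    exact (cfc_predicate (r j) H : IsSelfAdjoint (cfc (r j) H))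
  · intro j
    rw [hHR, hRH]
    congr 1
    funext t
    ring
  · intro j
    rw [mul_add, hRH, mul_smul_comm, mul_one, hR,
      ← cfc_const_mul ((((j : ℕ) : ℝ) + 1) * h) (r j) H (hcr j),
      ← cfc_add H (fun t => r j t * t) (fun t => (((j : ℕ) : ℝ) + 1) * h * r j t)
        ((hcr j).mul hcid) (continuousOn_const.mul (hcr j))]
    have h1 : cfc (fun t => r j t * t + (((j : ℕ) : ℝ) + 1) * h * r j t) H =
        cfc (fun _ : ℝ => (1 : ℝ)) H := by
      refine cfc_congr fun t ht => ?_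
      have h2 : t + (((j : ℕ) : ℝ) + 1) * h ≠ 0 := by
        have := hsp t ht
        have := hs j
        linarith
      show (t + (((j : ℕ) : ℝ) + 1) * h)⁻¹ * t + (((j : ℕ) : ℝ) + 1) * h *
        (t + (((j : ℕ) : ℝ) + 1) * h)⁻¹ = 1
      rw [mul_comm _ t, ← add_mul, mul_inv_cancel₀ h2]
    rw [h1]
    exact cfc_const_one ℝ H
  · intro j
    rw [hHR]
    refine norm_cfc_le zero_le_one fun t ht => ?_
    have h1 := tr_mem (hsp t ht) (hs j)
    rw [Real.norm_of_nonneg h1.1]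
    exact h1.2
  · have h1 : ∀ j, ‖R j‖ ≤ (1 + (((j : ℕ) : ℝ) + 1) * h)⁻¹ := by
      intro j
      have h0 : 0 < 1 + (((j : ℕ) : ℝ) + 1) * h := by
        have := hs j
        linarith
      refine norm_cfc_le (inv_pos.2 h0).le fun t ht => ?_
      have h2 := hsp t ht
      have h3 : 0 < t + (((j : ℕ) : ℝ) + 1) * h := by
        have := hs j
        linarith
      show ‖(t + (((j : ℕ) : ℝ) + 1) * h)⁻¹‖ ≤ _
      rw [Real.norm_of_nonneg (inv_pos.2 h3).le]
      exact inv_anti₀ h0 (by linarith)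
    refine le_trans (Finset.sum_le_sum fun j _ => ?_) (sum_le_one (le_refl (1 : ℝ)) hh M)
    rw [one_mul, ← sq]
    exact mul_le_mul_of_nonneg_left (pow_le_pow_left₀ (norm_nonneg _) (h1 j) 2) hh.le
  · simp only [hRHR]
    rw [hsum (fun j t => r j t * t * r j t) fun j => ((hcr j).mul hcid).mul (hcr j)]
    refine norm_cfc_le zero_le_one fun t ht => ?_
    have h1 : ∑ j, h * (r j t * t * r j t) = ∑ j : Fin M, h * (t * ((t + (((j : ℕ) : ℝ) + 1) *
        h)⁻¹ * (t + (((j : ℕ) : ℝ) + 1) * h)⁻¹)) := by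
      refine Finset.sum_congr rfl fun j _ => ?_
      show h * ((t + (((j : ℕ) : ℝ) + 1) * h)⁻¹ * t * (t + (((j : ℕ) : ℝ) + 1) * h)⁻¹) = _
      ring
    rw [h1, Real.norm_of_nonneg]
    · exact sum_le_one (hsp t ht) hh M
    · refine Finset.sum_nonneg fun j _ => ?_
      have := hsp t ht
      have := hs j
      positivity
  · simp only [hHRR]
    rw [hsum (fun j t => t * r j t * r j t) fun j => (hcid.mul (hcr j)).mul (hcr j)]
    have hcS : ContinuousOn (fun t => ∑ j, h * (t * r j t * r j t)) (spectrum ℝ H) :=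
      continuousOn_finsetSum _ fun j _ => continuousOn_const.mul ((hcid.mul (hcr j)).mul (hcr j))
    have h0 : (1 : A) - cfc (fun t => ∑ j, h * (t * r j t * r j t)) H =
        cfc (fun t => 1 - ∑ j, h * (t * r j t * r j t)) H := by
      rw [cfc_sub (fun _ : ℝ => (1 : ℝ)) (fun t => ∑ j, h * (t * r j t * r j t)) H
        continuousOn_const hcS, cfc_const_one ℝ H]
    rw [h0]
    refine norm_cfc_le (by positivity) fun t ht => ?_
    have h1 : ∑ j, h * (t * r j t * r j t) = ∑ j : Fin M, h * (t * ((t + (((j : ℕ) : ℝ) + 1) *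
        h)⁻¹ * (t + (((j : ℕ) : ℝ) + 1) * h)⁻¹)) := by
      refine Finset.sum_congr rfl fun j _ => ?_
      show h * (t * (t + (((j : ℕ) : ℝ) + 1) * h)⁻¹ * (t + (((j : ℕ) : ℝ) + 1) * h)⁻¹) = _
      ring
    rw [h1, Real.norm_of_nonneg]
    · exact sum_ge (hsp t ht) (hspB t ht) hh M
    · linarith [sum_le_one (hsp t ht) hh M]
  · simp only [hbig]
    rw [hsum (fun j t => (t * r j t) * (r j t * t * r j t) * (t * r j t)) fun j =>
      ((hcid.mul (hcr j)).mul (((hcr j).mul hcid).mul (hcr j))).mul (hcid.mul (hcr j))]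
    refine norm_cfc_le zero_le_one fun t ht => ?_
    have ht1 := hsp t ht
    have hle : ∀ j : Fin M, h * ((t * r j t) * (r j t * t * r j t) * (t * r j t)) ≤
        h * (t * ((t + (((j : ℕ) : ℝ) + 1) * h)⁻¹ * (t + (((j : ℕ) : ℝ) + 1) * h)⁻¹)) := by
      intro j
      have h1 := tr_mem ht1 (hs j)
      obtain ⟨w, hw⟩ : ∃ w, w = (t + (((j : ℕ) : ℝ) + 1) * h)⁻¹ := ⟨_, rfl⟩
      have hr : r j t = w := hw.symm
      rw [← hw] at h1 ⊢
      rw [hr]
      have hw0 : 0 ≤ w := by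
        rw [hw]
        have := hs j
        positivity
      apply mul_le_mul_of_nonneg_left _ hh.le
      have h2 : (t * w) * (w * t * w) * (t * w) = ((t * w) * (t * w)) * (t * (w * w)) := by ring
      rw [h2]
      have h3 : 0 ≤ t * (w * w) := by positivity
      have h4 : (t * w) * (t * w) ≤ 1 := mul_le_one₀ h1.2 h1.1 h1.2
      exact mul_le_of_le_one_left h3 h4
    rw [Real.norm_of_nonneg]
    · exact (Finset.sum_le_sum fun j _ => hle j).trans (sum_le_one ht1 hh M)
    · refine Finset.sum_nonneg fun j _ => ?_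
      have h5 : 0 ≤ r j t := by
        have := hs j
        show 0 ≤ (t + (((j : ℕ) : ℝ) + 1) * h)⁻¹
        positivity
      positivity

end Pool.Agent.N635.SG

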