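import Pool.Agent.N635.SG.Stm

/-!
# Project SG, part SCH: Schur multipliers of band matrices (helper316)
-/

set_option autoImplicit false

namespace Pool.Agent.N635.SG

open Finset

/-- one diagonal of a matrix, with respect to the levels `lv` -/
theorem sch_band {I : Type} [Fintype I] (B : I → I → ℂ) (β : ℝ) (hβ : 0 ≤ β) (hB : FB B β)
    (lv : I → ℕ) (t : ℤ) :
    FB (fun i k => if (lv i : ℤ) - (lv k : ℤ) = t then B i k else 0) β := by
  classical
  intro c c'
  set N : ℕ := Finset.univ.sup lv + 1 with hN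
  have hlv : ∀ k, lv k < N := fun k =>
    Nat.lt_succ_of_le (Finset.le_sup (f := lv) (mem_univ k))
  set a : ℕ → I → ℂ := fun n k => if lv k = n then c k else 0 with ha
  set a' : ℕ → I → ℂ := fun n i => if (lv i : ℤ) = n + t then c' i else 0 with ha'
  have e1 : ∑ i, ∑ k, star (c' i) * (if (lv i : ℤ) - (lv k : ℤ) = t then B i k else 0) * c k =
      ∑ n ∈ range N, ∑ i, ∑ k, star (a' n i) * B i k * a n k := by
    rw [Finset.sum_comm]
    rw [Finset.sum_comm (s := range N)]
    rw [Finset.sum_comm]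
    refine Finset.sum_congr rfl fun i _ => ?_
    rw [Finset.sum_comm]
    refine Finset.sum_congr rfl fun k _ => ?_
    rw [Finset.sum_eq_single (lv k)]
    · simp only [ha, ha', if_true]
      by_cases h : (lv i : ℤ) - (lv k : ℤ) = t
      · rw [if_pos h, if_pos (by omega)]
      · rw [if_neg h, if_neg (by omega)]
        simp
    · intro n _ hn
      simp only [ha]
      rw [if_neg (Ne.symm hn), mul_zero]
    · intro h
      exact absurd (mem_range.2 (hlv k)) h
  rw [e1]
  have e2 : ∀ n ∈ range N, ‖∑ i, ∑ k, star (a' n i) * B i k * a n k‖ ≤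
      β * (√(∑ i, ‖a' n i‖ ^ 2) * √(∑ k, ‖a n k‖ ^ 2)) := fun n _ => hB (a n) (a' n)
  refine (norm_sum_le _ _).trans ((Finset.sum_le_sum e2).trans ?_)
  rw [← Finset.mul_sum]
  refine mul_le_mul_of_nonneg_left ?_ hβ
  refine (Real.sum_sqrt_mul_sqrt_le (range N) (fun n => Finset.sum_nonneg fun i _ => by positivity)
    (fun n => Finset.sum_nonneg fun i _ => by positivity)).trans ?_
  refine mul_le_mul (Real.sqrt_le_sqrt ?_) (Real.sqrt_le_sqrt ?_) (Real.sqrt_nonneg _)
    (Real.sqrt_nonneg _)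
  · rw [Finset.sum_comm]
    refine Finset.sum_le_sum fun i _ => ?_
    have e3 : ∀ n ∈ range N, ‖a' n i‖ ^ 2 = if (lv i : ℤ) = n + t then ‖c' i‖ ^ 2 else 0 := by
      intro n _
      simp only [ha']
      split_ifs <;> simp
    rw [Finset.sum_congr rfl e3, ← Finset.sum_filter, Finset.sum_const, nsmul_eq_mul]
    have e4 : (filter (fun n : ℕ => (lv i : ℤ) = n + t) (range N)).card ≤ 1 := by
      apply Finset.card_le_one.2
      intro x hx y hy
      rw [mem_filter] at hx hy
      omega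
    have e5 : ((filter (fun n : ℕ => (lv i : ℤ) = n + t) (range N)).card : ℝ) ≤ 1 := by
      exact_mod_cast e4
    calc _ ≤ 1 * ‖c' i‖ ^ 2 := mul_le_mul_of_nonneg_right e5 (by positivity)
      _ = _ := one_mul _
  · rw [Finset.sum_comm]
    refine Finset.sum_le_sum fun k _ => ?_
    have e3 : ∀ n ∈ range N, ‖a n k‖ ^ 2 = if lv k = n then ‖c k‖ ^ 2 else 0 := by
      intro n _
      simp only [ha]
      split_ifs <;> simp
    rw [Finset.sum_congr rfl e3, Finset.sum_ite_eq, if_pos (mem_range.2 (hlv k))]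

theorem t_SCH : S_SCH := by
  classical
  intro I _ B β γ lv m g hβ hγ hB hband hg c c'
  set X : ℝ := √(∑ i, ‖c' i‖ ^ 2) * √(∑ k, ‖c k‖ ^ 2) with hX
  have hX0 : 0 ≤ X := by positivity
  set T : Finset ℤ := Finset.Icc (-(m : ℤ)) m with hT
  have e1 : ∀ i k, ((g ((lv i : ℤ) - (lv k : ℤ)) : ℝ) : ℂ) * B i k =
      ∑ t ∈ T, ((g t : ℝ) : ℂ) * (if (lv i : ℤ) - (lv k : ℤ) = t then B i k else 0) := by
    intro i k
    by_cases h : B i k = 0
    · rw [h]
      simp
    · have h1 := hband i k h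
      rw [Finset.sum_eq_single ((lv i : ℤ) - (lv k : ℤ))]
      · rw [if_pos rfl]
      · intro t _ ht
        rw [if_neg (Ne.symm ht), mul_zero]
      · intro h2
        exact absurd (Finset.mem_Icc.2 ⟨by omega, by omega⟩) h2
  have e2 : ∑ i, ∑ k, star (c' i) * (((g ((lv i : ℤ) - (lv k : ℤ)) : ℝ) : ℂ) * B i k) * c k =
      ∑ t ∈ T, ((g t : ℝ) : ℂ) * ∑ i, ∑ k, star (c' i) *
        (if (lv i : ℤ) - (lv k : ℤ) = t then B i k else 0) * c k := by
    simp only [e1, Finset.mul_sum, Finset.sum_mul]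
    rw [Finset.sum_comm (s := T)]
    refine Finset.sum_congr rfl fun i _ => ?_
    rw [Finset.sum_comm]
    refine Finset.sum_congr rfl fun t _ => ?_
    refine Finset.sum_congr rfl fun k _ => ?_
    ring
  simp only
  rw [e2]
  refine (norm_sum_le _ _).trans ?_
  have e3 : ∀ t ∈ T, ‖((g t : ℝ) : ℂ) * ∑ i, ∑ k, star (c' i) *
        (if (lv i : ℤ) - (lv k : ℤ) = t then B i k else 0) * c k‖ ≤ γ * (β * X) := by
    intro t ht
    rw [norm_mul, Complex.norm_real, Real.norm_eq_abs]
    have h1 := Finset.mem_Icc.1 ht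
    exact mul_le_mul (hg t (abs_le.2 ⟨by omega, by omega⟩)) (sch_band B β hβ hB lv t c c')
      (norm_nonneg _) hγ
  refine (Finset.sum_le_sum e3).trans (le_of_eq ?_)
  rw [Finset.sum_const, nsmul_eq_mul, hT, Int.card_Icc]
  have e4 : ((m : ℤ) + 1 - -(m : ℤ)).toNat = 2 * m + 1 := by omega
  rw [e4]
  push_cast
  ring

end Pool.Agent.N635.SG
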