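import Pool.Agent.N635.SG.Stm

/-!
# Project SG, part SQ: Gram matrices over a C*-algebra are squares
-/

set_option autoImplicit false

namespace Pool.Agent.N635.SG

/-- evaluation of the entries -/
def evSQ (A : Type) [CStarAlgebra A] (n : ℕ) (a b : Fin n) :
    CStarMatrix (Fin n) (Fin n) A →+ A where
  toFun M := M a b
  map_zero' := rfl
  map_add' _ _ := rfl

theorem sq_gen (B : Type) [CStarAlgebra B] (Q : Type) [Fintype Q] (W : Q → B) :
    ∃ z : B, ∑ q, star (W q) * W q = star z * z := by
  let _ : PartialOrder B := CStarAlgebra.spectralOrder B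
  have _ : StarOrderedRing B := CStarAlgebra.spectralOrderedRing B
  have hpos : 0 ≤ ∑ q, star (W q) * W q := Finset.sum_nonneg fun q _ => star_mul_self_nonneg _
  exact CStarAlgebra.nonneg_iff_eq_star_mul_self.1 hpos

theorem t_SQ : S_SQ := by
  intro A _ n Q _ Z
  let _ : PartialOrder A := CStarAlgebra.spectralOrder A
  have _ : StarOrderedRing A := CStarAlgebra.spectralOrderedRing A
  rcases n with _ | n
  · exact ⟨0, fun a => a.elim0⟩
  set W : Q → CStarMatrix (Fin (n + 1)) (Fin (n + 1)) A := fun q =>
    CStarMatrix.ofMatrix (Matrix.of fun a b => if a = 0 then Z q b else 0) with hW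
  obtain ⟨z, hz⟩ := sq_gen _ Q W
  refine ⟨CStarMatrix.ofMatrix.symm z, fun a b => ?_⟩
  have h1 := congrArg (evSQ A (n + 1) a b) hz
  rw [map_sum] at h1
  have h2 : ∀ q, evSQ A (n + 1) a b (star (W q) * W q) = star (Z q a) * Z q b := by
    intro q
    show (star (W q) * W q) a b = _
    rw [CStarMatrix.mul_apply, Finset.sum_eq_single 0]
    · rw [CStarMatrix.star_apply]
      show star (if (0 : Fin (n + 1)) = 0 then Z q a else 0) *
        (if (0 : Fin (n + 1)) = 0 then Z q b else 0) = _
      rw [if_pos rfl, if_pos rfl]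
    · intro c _ hc
      rw [CStarMatrix.star_apply]
      show star (if c = 0 then Z q a else 0) * (if c = 0 then Z q b else 0) = _
      rw [if_neg hc, if_neg hc, mul_zero]
    · intro h
      exact absurd (Finset.mem_univ _) h
  rw [Finset.sum_congr rfl fun q _ => h2 q] at h1
  rw [h1]
  rfl

end Pool.Agent.N635.SG

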