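import Pool.Agent.N635.SG.Stm

/-!
# SG/ST: a state of a C*-algebra attaining the norm of x
-/

set_option autoImplicit false

namespace Pool.Agent.N635.SG

namespace STaux

/-- One-vector form of the Hahn-Banach theorem for a sublinear function. -/
lemma hb {E : Type*} [AddCommGroup E] [Module ℝ E] (N : E → ℝ)
    (hom : ∀ c : ℝ, 0 < c → ∀ x, N (c • x) = c * N x) (sub : ∀ x y, N (x + y) ≤ N x + N y)
    (k : E) : ∃ g : E →ₗ[ℝ] ℝ, g k = N k ∧ ∀ x, g x ≤ N x := by
  have N0 : N 0 = 0 := by
    have := hom 2 (by norm_num) 0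
    rw [smul_zero] at this
    linarith
  by_cases hk : k = 0
  · obtain ⟨g, -, hg⟩ := exists_extension_of_le_sublinear (⟨⊥, 0⟩ : E →ₗ.[ℝ] ℝ) N hom sub
      (by
        rintro ⟨x, hx⟩
        have : x = 0 := by simpa using hx
        subst this
        simp [N0])
    exact ⟨g, by simp [hk, N0], hg⟩
  · obtain ⟨g, hg1, hg2⟩ := exists_extension_of_le_sublinear
      (LinearPMap.mkSpanSingleton k (N k) hk) N hom sub
      (by
        rintro ⟨x, hx⟩
        obtain ⟨c, rfl⟩ := Submodule.mem_span_singleton.1 hx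
        have h1 : (LinearPMap.mkSpanSingleton k (N k) hk) ⟨c • k, hx⟩ = c • N k :=
          LinearPMap.mkSpanSingleton'_apply _ _ _ _ _
        rw [h1]
        simp only [smul_eq_mul]
        rcases lt_trichotomy c 0 with hc | hc | hc
        · have h2 := sub (c • k) ((-c) • k)
          rw [← add_smul, add_neg_cancel, zero_smul, N0, hom (-c) (by linarith)] at h2
          linarith
        · simp [hc, N0]
        · rw [hom c hc])
    refine ⟨g, ?_, hg2⟩
    have h3 := hg1 ⟨k, Submodule.mem_span_singleton_self k⟩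
    rw [LinearPMap.mkSpanSingleton_apply ℝ ℝ hk (N k)] at h3
    exact h3


variable {A : Type} [CStarAlgebra A] [PartialOrder A] [StarOrderedRing A]

/-- A real-linear functional that is nonnegative on positive elements and star-invariant. -/
structure PosF (f : A →ₗ[ℝ] ℝ) : Prop where
  nonneg : ∀ a : A, 0 ≤ a → 0 ≤ f a
  star_eq : ∀ a : A, f (star a) = f a

/-- A nonzero positive functional all of whose positive minorants are its multiples. -/
structure PureF (f : A →ₗ[ℝ] ℝ) : Prop where
  pos : PosF f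
  one_pos : 0 < f 1
  pure : ∀ g : A →ₗ[ℝ] ℝ, PosF g → (∀ a : A, 0 ≤ a → g a ≤ f a) → ∃ r : ℝ, ∀ a, g a = r * f a

lemma PosF.mono {f : A →ₗ[ℝ] ℝ} (hf : PosF f) {a b : A} (h : a ≤ b) : f a ≤ f b := by
  have := hf.nonneg (b - a) (sub_nonneg.2 h)
  rw [map_sub] at this
  linarith

lemma le_norm_smul_one {a : A} (ha : IsSelfAdjoint a) : a ≤ ‖a‖ • (1 : A) := by
  have := ha.le_algebraMap_norm_self
  rwa [Algebra.algebraMap_eq_smul_one] at this

lemma smul_one_nonneg {r : ℝ} (hr : 0 ≤ r) : (0 : A) ≤ r • (1 : A) := by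
  exact smul_nonneg hr zero_le_one

lemma sa_add_star (x : A) : IsSelfAdjoint (x + star x) := IsSelfAdjoint.add_star_self x

lemma neg_norm_smul_one_le {a : A} (ha : IsSelfAdjoint a) : -(‖a‖ • (1 : A)) ≤ a := by
  have := ha.neg_algebraMap_norm_le_self
  rwa [Algebra.algebraMap_eq_smul_one] at this

/-- The upper spectral bound of (the real part of) an element. -/
noncomputable def ub (x : A) : ℝ := sInf {r : ℝ | x + star x ≤ (2 * r) • (1 : A)}

lemma ub_nonempty (x : A) : {r : ℝ | x + star x ≤ (2 * r) • (1 : A)}.Nonempty := by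
  refine ⟨‖x + star x‖ / 2, ?_⟩
  show x + star x ≤ (2 * (‖x + star x‖ / 2)) • (1 : A)
  rw [mul_div_cancel₀ _ (two_ne_zero)]
  exact le_norm_smul_one (sa_add_star x)

lemma smul_one_le_zero [Nontrivial A] {r : ℝ} (h : r • (1 : A) ≤ 0) : r ≤ 0 := by
  by_contra hcon
  push Not at hcon
  have h1 : (0 : A) ≤ r • (1 : A) := smul_one_nonneg hcon.le
  have h2 := le_antisymm h h1
  rw [smul_eq_zero] at h2
  rcases h2 with h2 | h2
  · linarith
  · exact one_ne_zero h2

lemma ub_bddBelow [Nontrivial A] (x : A) :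
    BddBelow {r : ℝ | x + star x ≤ (2 * r) • (1 : A)} := by
  refine ⟨-‖x + star x‖ / 2, ?_⟩
  rintro r hr
  have h1 := (neg_norm_smul_one_le (sa_add_star x)).trans hr
  have h2 : (-(‖x + star x‖) - 2 * r) • (1 : A) ≤ 0 := by
    rw [sub_smul, neg_smul]
    exact sub_nonpos.2 h1
  have := smul_one_le_zero h2
  linarith

lemma ub_le [Nontrivial A] {x : A} {r : ℝ} (h : x + star x ≤ (2 * r) • (1 : A)) : ub x ≤ r :=
  csInf_le (ub_bddBelow x) h

lemma ub_lt {x : A} {ε : ℝ} (hε : 0 < ε) : x + star x ≤ (2 * (ub x + ε)) • (1 : A) := by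
  obtain ⟨r, hr, hr2⟩ := exists_lt_of_csInf_lt (ub_nonempty x)
    (show sInf {r : ℝ | x + star x ≤ (2 * r) • (1 : A)} < ub x + ε by
      show ub x < ub x + ε
      linarith)
  refine le_trans hr ?_
  rw [← sub_nonneg, ← sub_smul]
  exact smul_one_nonneg (by linarith)

lemma ub_add [Nontrivial A] (x y : A) : ub (x + y) ≤ ub x + ub y := by
  refine le_of_forall_pos_lt_add ?_
  intro ε hε
  have h1 := ub_lt (x := x) (show (0 : ℝ) < ε / 3 by linarith)
  have h2 := ub_lt (x := y) (show (0 : ℝ) < ε / 3 by linarith)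
  have h3 : x + y + star (x + y) ≤ (2 * ((ub x + ε / 3) + (ub y + ε / 3))) • (1 : A) := by
    have := add_le_add h1 h2
    rw [← add_smul, ← mul_add] at this
    calc x + y + star (x + y) = (x + star x) + (y + star y) := by rw [star_add]; abel
      _ ≤ _ := this
  have := ub_le h3
  linarith

lemma ub_smul_le [Nontrivial A] (c : ℝ) (hc : 0 < c) (x : A) : ub (c • x) ≤ c * ub x := by
  refine le_of_forall_pos_le_add ?_
  intro ε hε
  have h1 := ub_lt (x := x) (show (0 : ℝ) < ε / c by positivity)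
  have h2 : c • x + star (c • x) ≤ (2 * (c * ub x + ε)) • (1 : A) := by
    rw [star_smul, star_trivial, ← smul_add]
    have := smul_le_smul_of_nonneg_left h1 hc.le
    rw [smul_smul] at this
    have e : c * (2 * (ub x + ε / c)) = 2 * (c * ub x + ε) := by field_simp
    rwa [e] at this
  exact ub_le h2

lemma ub_smul [Nontrivial A] (c : ℝ) (hc : 0 < c) (x : A) : ub (c • x) = c * ub x := by
  refine le_antisymm (ub_smul_le c hc x) ?_
  have := ub_smul_le c⁻¹ (by positivity) (c • x)
  rw [smul_smul, inv_mul_cancel₀ hc.ne', one_smul] at this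
  have h5 : c * ub x ≤ c * (c⁻¹ * ub (c • x)) := mul_le_mul_of_nonneg_left this hc.le
  rwa [← mul_assoc, mul_inv_cancel₀ hc.ne', one_mul] at h5

lemma PosF.le_ub {f : A →ₗ[ℝ] ℝ} (hf : PosF f) (h1 : f 1 = 1) (x : A) : f x ≤ ub x := by
  refine le_of_forall_pos_le_add ?_
  intro ε hε
  have := hf.mono (ub_lt (x := x) hε)
  rw [map_add, hf.star_eq, map_smul, h1, smul_eq_mul] at this
  linarith

lemma exists_state [Nontrivial A] (d : A) :
    ∃ f : A →ₗ[ℝ] ℝ, PosF f ∧ f 1 = 1 ∧ f d = ub d := by
  obtain ⟨g, hg1, hg2⟩ := hb (ub : A → ℝ) ub_smul ub_add d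
  have hgneg : ∀ x : A, x + star x ≤ 0 → g x ≤ 0 := by
    intro x hx
    refine (hg2 x).trans (ub_le ?_)
    simpa using hx
  refine ⟨g, ⟨?_, ?_⟩, ?_, hg1⟩
  · intro x hx
    have := hgneg (-x) (by
      rw [star_neg, ← neg_add]
      rw [neg_nonpos]
      exact add_nonneg hx (star_nonneg_iff.2 hx))
    rw [map_neg] at this
    linarith
  · intro x
    have h1 := hgneg (x - star x) (by simp)
    have h2 := hgneg (star x - x) (by simp)
    rw [map_sub] at h1 h2
    linarith
  · have h1 : g 1 ≤ 1 := (hg2 1).trans (ub_le (by rw [star_one, mul_one, two_smul]))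
    have h2 : g (-1) ≤ -1 := (hg2 (-1)).trans (ub_le (by
      rw [star_neg, star_one, mul_neg, mul_one, neg_smul, two_smul, neg_add]))
    rw [map_neg] at h2
    linarith


end STaux

open scoped ComplexOrder

namespace STaux

variable {A : Type} [CStarAlgebra A] [PartialOrder A] [StarOrderedRing A]

lemma ub_eq_norm [Nontrivial A] {d : A} (hd : 0 ≤ d) : ub d = ‖d‖ := by
  have hsa : IsSelfAdjoint d := IsSelfAdjoint.of_nonneg hd
  refine le_antisymm ?_ ?_
  · apply ub_le
    rw [hsa.star_eq, ← two_smul ℝ d, mul_smul]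
    exact smul_le_smul_of_nonneg_left (le_norm_smul_one hsa) (by norm_num)
  · refine le_of_forall_pos_le_add ?_
    intro ε hε
    have h2 := ub_lt (x := d) hε
    rw [hsa.star_eq, ← two_smul ℝ d, mul_smul] at h2
    have h3 := smul_le_smul_of_nonneg_left h2 (show (0 : ℝ) ≤ 1 / 2 by norm_num)
    rw [smul_smul, smul_smul] at h3
    norm_num at h3
    have h4 : 0 ≤ ub d + ε := by
      by_contra hcon
      push Not at hcon
      have h5 := hd.trans h3
      have h6 : (-(ub d + ε)) • (1 : A) ≤ 0 := by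
        rw [neg_smul]
        exact neg_nonpos.2 h5
      have := smul_one_le_zero h6
      linarith
    refine (CStarAlgebra.norm_le_iff_le_algebraMap d h4 hd).2 ?_
    rwa [Algebra.algebraMap_eq_smul_one]

end STaux

open STaux in
theorem t_ST : S_ST := by
  intro A _ _ x
  letI : PartialOrder A := CStarAlgebra.spectralOrder A
  haveI : StarOrderedRing A := CStarAlgebra.spectralOrderedRing A
  obtain ⟨f, hf, hf1, hfd⟩ := exists_state (star x * x)
  rw [ub_eq_norm (star_mul_self_nonneg x), CStarRing.norm_star_mul_self, ← pow_two] at hfd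
  have hI : ∀ y : A, star y = y → f (Complex.I • y) = 0 := by
    intro y hy
    have h := hf.star_eq (Complex.I • y)
    rw [star_smul, hy] at h
    have e : (star Complex.I) • y = -(Complex.I • y) := by
      rw [← neg_smul]
      congr 1
      simp
    rw [e, map_neg] at h
    linarith
  have hω : ∀ y : A, star y = y → (Module.Dual.extendRCLike (𝕜 := ℂ) f) y = (f y : ℂ) := by
    intro y hy
    rw [Module.Dual.extendRCLike_apply]
    have : f ((RCLike.I : ℂ) • y) = 0 := hI y hy
    rw [this]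
    simp
  refine ⟨Module.Dual.extendRCLike (𝕜 := ℂ) f, ⟨?_, ?_⟩, ?_⟩
  · intro y
    rw [hω _ (by rw [star_mul, star_star])]
    exact_mod_cast hf.nonneg _ (star_mul_self_nonneg y)
  · rw [hω _ (star_one A), hf1]
    simp
  · rw [hω _ (by rw [star_mul, star_star]), hfd]

end Pool.Agent.N635.SG
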