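import Pool.Agent.N635.SG.Stm

/-!
# Project SG, part SUB: subexponential growth
-/

set_option autoImplicit false

namespace Pool.Agent.N635.SG

open Filter

namespace SUBaux

theorem ev_le (d : ℕ → ℕ) (hd : Tendsto (fun n : ℕ => ((d n : ℕ) : ℝ) ^ (1 / (n : ℝ))) atTop (nhds 1))
    {δ : ℝ} (hδ : 0 < δ) : ∀ᶠ n : ℕ in atTop, (d n : ℝ) ≤ Real.exp (δ * n) := by
  have h1 : (1 : ℝ) < Real.exp δ := Real.one_lt_exp_iff.mpr hδ
  filter_upwards [hd.eventually_lt_const h1, eventually_gt_atTop 0] with n hn hn0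
  have hn0' : (n : ℝ) ≠ 0 := by exact_mod_cast hn0.ne'
  have h2 : ((d n : ℝ) ^ (1 / (n : ℝ))) ^ (n : ℝ) = d n := by
    rw [← Real.rpow_mul (Nat.cast_nonneg _), one_div_mul_cancel hn0', Real.rpow_one]
  have h3 : (Real.exp δ) ^ (n : ℝ) = Real.exp (δ * n) := by rw [← Real.exp_mul]
  rw [← h2, ← h3]
  exact Real.rpow_le_rpow (by positivity) hn.le (Nat.cast_nonneg _)

theorem tends {c : ℝ} (hc : 0 < c) (m : ℕ) :
    Tendsto (fun N : ℕ => (((N : ℝ) + m + 2) ^ 2) * Real.exp (-(c * ((N : ℝ) + m + 2)))) atTop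
      (nhds 0) := by
  have h1 : Tendsto (fun N : ℕ => c * ((N : ℝ) + m + 2)) atTop atTop := by
    apply Tendsto.const_mul_atTop hc
    exact tendsto_atTop_add_const_right _ _ (tendsto_atTop_add_const_right _ _
      tendsto_natCast_atTop_atTop)
  have h2 := (Real.tendsto_pow_mul_exp_neg_atTop_nhds_zero 2).comp h1
  have h3 := h2.const_mul (1 / c ^ 2)
  rw [mul_zero] at h3
  refine h3.congr fun N => ?_
  simp only [Function.comp_apply]
  field_simp

end SUBaux

open SUBaux in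
/-- subexponential growth -/
theorem t_SUB : S_SUB := by
  intro d hd ε m hε
  set δ : ℝ := ε / 8 with hδ
  have hδ0 : 0 < δ := by positivity
  set c : ℝ := ε - 2 * δ with hc
  have hc0 : 0 < c := by rw [hc, hδ]; linarith
  set C : ℝ := Real.exp ((ε + δ) * m + c * (m + 2)) with hC
  have h1 := (tends hc0 m).const_mul C
  rw [mul_zero] at h1
  have h2 := ev_le d hd hδ0
  have h3 : ∀ᶠ N : ℕ in atTop, (d (N + m) : ℝ) ≤ Real.exp (δ * (N + m : ℕ)) :=
    (tendsto_add_atTop_nat m).eventually h2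
  refine tendsto_of_tendsto_of_tendsto_of_le_of_le' tendsto_const_nhds h1 ?_ ?_
  · exact Eventually.of_forall fun N => by positivity
  · filter_upwards [h2, h3] with N hN hNm
    have e1 : (((N + m : ℕ) : ℝ) + 1) * (((N + m : ℕ) : ℝ) + 2) ≤ ((N : ℝ) + m + 2) ^ 2 := by
      push_cast
      nlinarith [Nat.cast_nonneg (α := ℝ) N, Nat.cast_nonneg (α := ℝ) m]
    calc (d N : ℝ) * Real.exp (-(ε * ((N : ℝ) - m))) *
        ((((N + m : ℕ) : ℝ) + 1) * (((N + m : ℕ) : ℝ) + 2) * (d (N + m) : ℝ))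
        ≤ Real.exp (δ * N) * Real.exp (-(ε * ((N : ℝ) - m))) *
          (((N : ℝ) + m + 2) ^ 2 * Real.exp (δ * (N + m : ℕ))) := by
          gcongr
      _ = C * (((N : ℝ) + m + 2) ^ 2 * Real.exp (-(c * ((N : ℝ) + m + 2)))) := by
          rw [hC]
          have e2 : Real.exp (δ * N) * Real.exp (-(ε * ((N : ℝ) - m))) * Real.exp (δ * (N + m : ℕ)) =
              Real.exp ((ε + δ) * m + c * (m + 2)) * Real.exp (-(c * ((N : ℝ) + m + 2))) := by
            rw [← Real.exp_add, ← Real.exp_add, ← Real.exp_add]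
            congr 1
            push_cast
            rw [hc]
            ring
          linear_combination (((N : ℝ) + m + 2) ^ 2) * e2

end Pool.Agent.N635.SG
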