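import Pool.Agent.N635.SG.ERR3
import Pool.Agent.N635.SG.BAS
import Pool.Agent.N635.SG.CS
import Pool.Agent.N635.SG.FLAG
import Pool.Agent.N635.SG.MIX
import Pool.Agent.N635.SG.OPT
import Pool.Agent.N635.SG.PHI
import Pool.Agent.N635.SG.PSI
import Pool.Agent.N635.SG.RES
import Pool.Agent.N635.SG.SCH
import Pool.Agent.N635.SG.SQ
import Pool.Agent.N635.SG.ST
import Pool.Agent.N635.SG.SUB

/-!
# Project SG: assembly
-/

set_option autoImplicit false

namespace Pool.Agent.N635.SG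

open scoped ComplexOrder
open Filter Finset

noncomputable section

/-- The conclusion of the frozen statement. -/
def Concl (A : Type) [CStarAlgebra A] (S : Finset A) (ε : ℝ) : Prop :=
  ∃ (k : ℕ)
        (φ : A →ₗ[ℂ] (EuclideanSpace ℂ (Fin k) →L[ℂ] EuclideanSpace ℂ (Fin k)))
        (ψ : (EuclideanSpace ℂ (Fin k) →L[ℂ] EuclideanSpace ℂ (Fin k)) →ₗ[ℂ] A),
        (∀ (n : ℕ) (y : Matrix (Fin n) (Fin n) A),
          ∃ z : Matrix (Fin n) (Fin n)
              (EuclideanSpace ℂ (Fin k) →L[ℂ] EuclideanSpace ℂ (Fin k)),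
            (y.conjTranspose * y).map (⇑φ) = z.conjTranspose * z) ∧
        (∀ (n : ℕ) (y : Matrix (Fin n) (Fin n)
              (EuclideanSpace ℂ (Fin k) →L[ℂ] EuclideanSpace ℂ (Fin k))),
          ∃ z : Matrix (Fin n) (Fin n) A,
            (y.conjTranspose * y).map (⇑ψ) = z.conjTranspose * z) ∧
        (∀ a : A, ‖φ a‖ ≤ ‖a‖) ∧
        (∀ b : EuclideanSpace ℂ (Fin k) →L[ℂ] EuclideanSpace ℂ (Fin k), ‖ψ b‖ ≤ ‖b‖) ∧
        ∀ a ∈ S, ‖ψ (φ a) - a‖ < ε

lemma concl_subsingleton (A : Type) [CStarAlgebra A] [Subsingleton A] (S : Finset A) (ε : ℝ)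
    (hε : 0 < ε) : Concl A S ε := by
  refine ⟨0, 0, 0, fun n y => ⟨0, ?_⟩, fun n y => ⟨0, ?_⟩, fun a => ?_, fun b => ?_, fun a _ => ?_⟩
  · ext i j
    simp
  · ext i j
    simp
  · simp
  · simp
  · rw [Subsingleton.elim a 0]
    simpa using hε

/-- simultaneous approximation from the filtration -/
lemma approx {A : Type} [CStarAlgebra A] {F : ℕ → Submodule ℂ A} (hmono : Monotone F)
    (hd : Dense (⋃ n : ℕ, (F n : Set A))) {δ : ℝ} (hδ : 0 < δ) (S : Finset A) :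
    ∃ (m : ℕ) (B : ℝ), 0 < B ∧ ∀ a ∈ S, ∃ b ∈ F m, ‖a - b‖ < δ ∧ ‖b‖ ≤ B := by
  classical
  induction S using Finset.induction_on with
  | empty => exact ⟨0, 1, one_pos, by simp⟩
  | insert a S _ ih =>
    obtain ⟨m, B, hB, h⟩ := ih
    obtain ⟨b, hb, hb2⟩ := hd.exists_dist_lt a hδ
    obtain ⟨n, hn⟩ := Set.mem_iUnion.1 hb
    refine ⟨max m n, max B ‖b‖, lt_max_of_lt_left hB, fun c hc => ?_⟩
    rcases Finset.mem_insert.1 hc with rfl | hc
    · refine ⟨b, hmono (le_max_right m n) hn, ?_, le_max_right _ _⟩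
      rwa [dist_eq_norm] at hb2
    · obtain ⟨b', h1, h2, h3⟩ := h c hc
      exact ⟨b', hmono (le_max_left m n) h1, h2, h3.trans (le_max_left _ _)⟩

lemma exists_eps (m : ℕ) {δ : ℝ} (hδ : 0 < δ) : ∃ ε : ℝ, 0 < ε ∧
    (2 * m + 1) * (Real.exp (ε * m / 2) - 1) +
        (2 * m + 1) * (Real.exp (ε * m / 2) - Real.exp (-(ε * m / 2))) < δ := by
  have hc : Continuous fun ε : ℝ => (2 * m + 1) * (Real.exp (ε * m / 2) - 1) +
        (2 * m + 1) * (Real.exp (ε * m / 2) - Real.exp (-(ε * m / 2))) := by fun_prop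
  have h0 : (2 * (m : ℝ) + 1) * (Real.exp (0 * m / 2) - 1) +
        (2 * m + 1) * (Real.exp (0 * m / 2) - Real.exp (-(0 * m / 2))) < δ := by
    simpa using hδ
  have h1 : ∀ᶠ ε : ℝ in nhds 0, (2 * (m : ℝ) + 1) * (Real.exp (ε * m / 2) - 1) +
        (2 * m + 1) * (Real.exp (ε * m / 2) - Real.exp (-(ε * m / 2))) < δ :=
    (hc.tendsto 0).eventually (gt_mem_nhds h0)
  have h2 : ∀ᶠ ε : ℝ in nhdsWithin 0 (Set.Ioi 0), 0 < ε ∧
      (2 * (m : ℝ) + 1) * (Real.exp (ε * m / 2) - 1) +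
        (2 * m + 1) * (Real.exp (ε * m / 2) - Real.exp (-(ε * m / 2))) < δ := by
    filter_upwards [self_mem_nhdsWithin, h1.filter_mono nhdsWithin_le_nhds] with ε h3 h4
    exact ⟨h3, h4⟩
  exact h2.exists

lemma exists_hM {c δ : ℝ} (hδ : 0 < δ) : ∃ (h : ℝ) (M : ℕ), 0 < h ∧ h ≤ 1 ∧
    h + c / (h * (M + 1)) < δ := by
  obtain ⟨M, hM⟩ := exists_nat_gt (c / (min 1 (δ / 2) * (δ / 2)))
  have h1 : 0 < min 1 (δ / 2) := lt_min one_pos (by positivity)
  refine ⟨min 1 (δ / 2), M, h1, min_le_left _ _, ?_⟩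
  have h2 : min 1 (δ / 2) ≤ δ / 2 := min_le_right _ _
  have h3 : c / (min 1 (δ / 2) * (M + 1)) < δ / 2 := by
    rw [div_lt_iff₀ (by positivity)]
    rw [div_lt_iff₀ (by positivity)] at hM
    nlinarith [mul_pos h1 hδ]
  linarith

theorem main_nontrivial (A : Type) [CStarAlgebra A] [Nontrivial A] (F : ℕ → Submodule ℂ A)
    (hmono : Monotone F) (hF0 : F 0 = Submodule.span ℂ {(1 : A)})
    (hmul : ∀ m n : ℕ, ∀ x ∈ F m, ∀ y ∈ F n, x * y ∈ F (m + n))
    (hstar : ∀ n : ℕ, ∀ x ∈ F n, star x ∈ F n)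
    (hd : Dense (⋃ n : ℕ, (F n : Set A)))
    (hfd : ∀ n : ℕ, FiniteDimensional ℂ (F n))
    (hsub : Filter.Tendsto (fun n : ℕ => ((Module.finrank ℂ (F n) : ℕ) : ℝ) ^ (1 / (n : ℝ)))
      Filter.atTop (nhds 1)) (S : Finset A) (η : ℝ) (hη : 0 < η) : Concl A S η := by
  have hBAS := t_BAS
  obtain ⟨ω, hω, hC'⟩ := t_MIX hBAS (t_OPT t_ST hBAS) A F hfd
  set C : ℕ → ℝ := fun n =>
    6 * (((n : ℝ) + 1) * ((n : ℝ) + 2) * (Module.finrank ℂ (F n) : ℝ)) with hCdef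
  have hC : ∀ n, ∀ x ∈ F n, ‖x‖ ^ 2 ≤ C n * (ω (star x * x)).re := hC'
  have hC0 : ∀ n, 0 ≤ C n := fun n => by
    simp only [hCdef]
    positivity
  have hCm : Monotone C := by
    intro n n' hnn
    have h1 : (Module.finrank ℂ (F n) : ℝ) ≤ Module.finrank ℂ (F n') := by
      have := hfd n'
      exact_mod_cast Submodule.finrank_mono (hmono hnn)
    have h2 : (n : ℝ) ≤ n' := by exact_mod_cast hnn
    simp only [hCdef]
    gcongr
  obtain ⟨m, B, hB, happ⟩ := approx hmono hd (δ := η / 4) (by positivity) S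
  set δ : ℝ := η / (8 * B) with hδdef
  have hδ : 0 < δ := by positivity
  obtain ⟨ε, hε, hε2⟩ := exists_eps m hδ
  obtain ⟨N, hN⟩ : ∃ N : ℕ, (Module.finrank ℂ (F N) : ℝ) * Real.exp (-(ε * ((N : ℝ) - m))) *
        ((((N + m : ℕ) : ℝ) + 1) * (((N + m : ℕ) : ℝ) + 2) * (Module.finrank ℂ (F (N + m)) : ℝ)) <
          δ / 18 :=
    ((t_SUB (fun n => Module.finrank ℂ (F n)) hsub ε m hε).eventually
      (gt_mem_nhds (show (0:ℝ) < δ / 18 by positivity))).exists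
  obtain ⟨K, e, lv, i0, hf⟩ := t_FLAG hBAS A ω F (N + m) hω hmono hF0 hfd (by
    intro n x hx hx2
    have h1 := hC n x hx
    have h2 : ‖x‖ ^ 2 ≤ 0 := h1.trans (mul_nonpos_of_nonneg_of_nonpos (hC0 n) hx2)
    have h3 : ‖x‖ = 0 := by
      have : 0 ≤ ‖x‖ ^ 2 := by positivity
      exact pow_eq_zero_iff (two_ne_zero) |>.1 (le_antisymm h2 this)
    exact norm_eq_zero.1 h3)
  set H : A := ∑ i, kap ε N (lv i) • (e i * star (e i)) with hH
  have hHx : H = ∑ i, (sk ε N (lv i) • e i) * star (sk ε N (lv i) • e i) := by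
    rw [hH]
    refine sum_congr rfl fun i _ => ?_
    rw [star_smul, smul_mul_smul_comm]
    simp only [star_trivial]
    congr 1
    exact (Real.mul_self_sqrt (kap_nonneg ε N _)).symm
  obtain ⟨h, M, hh, hh1, hhM⟩ := exists_hM (c := ‖H‖) hδ
  obtain ⟨R, hRs, hRc, hRi, hHR, hR2, hRHR, hRe, hRR⟩ :=
    t_RES A (Fin K) (fun i => sk ε N (lv i) • e i) i0 H h M (by
      show sk ε N (lv i0) • e i0 = 1
      rw [hf.one, hf.lv0, sk_eq (Nat.zero_le N)]
      simp) hHx hh hh1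
  set x : Fin M → Fin K → A := fun p i => Real.sqrt h • Real.sqrt (kap ε N (lv i)) • (R p * e i)
    with hx
  have hxx : ‖∑ p, ∑ i, x p i * star (x p i)‖ ≤ 1 := by
    have h1 : ∑ p, ∑ i, x p i * star (x p i) = ∑ j, h • (R j * H * R j) := by
      refine sum_congr rfl fun p _ => ?_
      have := pull1 e lv ε N h hh.le (R p)
      rw [← hH, hRs p] at this
      exact this
    rw [h1]
    exact hRHR
  obtain ⟨ψ, hψ1, hψ2, hψ3⟩ := t_PSI t_CS t_SQ A K (Fin M) x hxx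
  obtain ⟨φ, hφ1, hφ2, hφ3⟩ := t_PHI hBAS A ω K e hω hf.on
  refine ⟨K, φ, ψ, hφ2, hψ2, hφ3, hψ3, fun a ha => ?_⟩
  obtain ⟨b, hb, hb1, hb2⟩ := happ a ha
  have hψφ : ψ (φ b) = ∑ p, ∑ i, ∑ j, ω (star (e i) * (b * e j)) •
        ((Real.sqrt h • Real.sqrt (kap ε N (lv i)) • (R p * e i)) *
          star (Real.sqrt h • Real.sqrt (kap ε N (lv j)) • (R p * e j))) := by
    rw [hψ1]
    simp only [hφ1, hx]
  have herr := t_ERR hBAS t_CS t_SCH A ω F N m K e lv i0 C ε h M R H b hω hmono hmul hstar hf hC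
    hCm hε hh hH hRs hRc hRi hHR hR2 hRHR hRR hb
  rw [← hψφ, hf.card N (by omega)] at herr
  have hmid : 3 * ((Module.finrank ℂ (F N) : ℝ) * Real.exp (-(ε * ((N : ℝ) - m))) *
          C (N + m)) < δ := by
    simp only [hCdef]
    nlinarith [hN]
  have herr2 : ‖ψ (φ b) - b‖ ≤ B * (3 * δ) := by
    refine herr.trans ?_
    apply mul_le_mul hb2 _ _ hB.le
    · linarith
    · have h1 : (0:ℝ) ≤ Real.exp (ε * m / 2) - 1 := by
        have := Real.one_le_exp (x := ε * m / 2) (by positivity)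
        linarith
      have h2 : (0:ℝ) ≤ Real.exp (ε * m / 2) - Real.exp (-(ε * m / 2)) := by
        have h1 : Real.exp (-(ε * m / 2)) ≤ Real.exp (ε * m / 2) := by
          apply Real.exp_le_exp.2
          have : (0:ℝ) ≤ ε * m / 2 := by positivity
          linarith
        linarith
      have h3 := hC0 (N + m)
      have h4 : 0 ≤ (2 * (m:ℝ) + 1) * (Real.exp (ε * m / 2) - 1) :=
        mul_nonneg (by positivity) h1
      have h5 : 0 ≤ (2 * (m:ℝ) + 1) * (Real.exp (ε * m / 2) - Real.exp (-(ε * m / 2))) :=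
        mul_nonneg (by positivity) h2
      have h6 : 0 ≤ 3 * ((Module.finrank ℂ (F N) : ℝ) * Real.exp (-(ε * ((N : ℝ) - m))) *
          C (N + m)) := by positivity
      have h7 := norm_nonneg (1 - ∑ j, h • (H * R j * R j))
      linarith
  have hBδ : B * (3 * δ) = 3 * η / 8 := by
    rw [hδdef]
    field_simp
  have h1 : ‖ψ (φ (a - b))‖ ≤ ‖a - b‖ := (hψ3 _).trans (hφ3 _)
  have h2 : ψ (φ a) - a = ψ (φ (a - b)) + (ψ (φ b) - b) - (a - b) := by
    rw [map_sub, map_sub]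
    abel
  rw [h2]
  have h3 := norm_sub_le (ψ (φ (a - b)) + (ψ (φ b) - b)) (a - b)
  have h4 := norm_add_le (ψ (φ (a - b))) (ψ (φ b) - b)
  linarith

theorem main (A : Type) [CStarAlgebra A] (F : ℕ → Submodule ℂ A)
    (hmono : Monotone F) (hF0 : F 0 = Submodule.span ℂ {(1 : A)})
    (hmul : ∀ m n : ℕ, ∀ x ∈ F m, ∀ y ∈ F n, x * y ∈ F (m + n))
    (hstar : ∀ n : ℕ, ∀ x ∈ F n, star x ∈ F n)
    (hd : Dense (⋃ n : ℕ, (F n : Set A)))
    (hfd : ∀ n : ℕ, FiniteDimensional ℂ (F n))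
    (hsub : Filter.Tendsto (fun n : ℕ => ((Module.finrank ℂ (F n) : ℕ) : ℝ) ^ (1 / (n : ℝ)))
      Filter.atTop (nhds 1)) (S : Finset A) (η : ℝ) (hη : 0 < η) : Concl A S η := by
  rcases subsingleton_or_nontrivial A with hs | hn
  · exact concl_subsingleton A S η hη
  · exact main_nontrivial A F hmono hF0 hmul hstar hd hfd hsub S η hη

end

end Pool.Agent.N635.SG
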