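import Pool.Agent.N635.SG.Stm

/-!
# Project SG: the error estimate
-/

set_option autoImplicit false

namespace Pool.Agent.N635.SG

open scoped ComplexOrder
open Filter Finset

noncomputable section

variable {A : Type} [CStarAlgebra A]

/-- `∑ X i j e_i e_j*`. -/
def G {K : ℕ} (e : Fin K → A) (X : Fin K → Fin K → ℂ) : A := ∑ i, ∑ j, X i j • (e i * star (e j))

lemma G_add {K : ℕ} (e : Fin K → A) (X Y : Fin K → Fin K → ℂ) :
    G e (fun i j => X i j + Y i j) = G e X + G e Y := by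
  simp only [G, add_smul, sum_add_distrib]

lemma G_sub {K : ℕ} (e : Fin K → A) (X Y : Fin K → Fin K → ℂ) :
    G e (fun i j => X i j - Y i j) = G e X - G e Y := by
  simp only [G, sub_smul, sum_sub_distrib]

lemma G_star {K : ℕ} (e : Fin K → A) (X : Fin K → Fin K → ℂ) :
    star (G e X) = G e (fun i j => star (X j i)) := by
  simp only [G, star_sum, star_smul, star_mul, star_star]
  rw [sum_comm]

/-- Parseval. -/
lemma parseval {K : ℕ} {e : Fin K → A} {ω : A →ₗ[ℂ] ℂ}
    (on : ∀ i j, ω (star (e i) * e j) = if i = j then 1 else 0) (c d : Fin K → ℂ) :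
    ω (star (∑ i, c i • e i) * ∑ j, d j • e j) = ∑ i, star (c i) * d i := by
  simp only [star_sum, star_smul, sum_mul, mul_sum, map_sum, smul_mul_assoc, mul_smul_comm,
    map_smul, on, smul_eq_mul, mul_ite, mul_one, mul_zero]
  refine sum_congr rfl fun i _ => ?_
  rw [sum_ite_eq' univ i]
  simp [mul_comm]

lemma parseval_re {K : ℕ} {e : Fin K → A} {ω : A →ₗ[ℂ] ℂ}
    (on : ∀ i j, ω (star (e i) * e j) = if i = j then 1 else 0) (c : Fin K → ℂ) :
    (ω (star (∑ i, c i • e i) * ∑ j, c j • e j)).re = ∑ i, ‖c i‖ ^ 2 := by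
  rw [parseval on, Complex.re_sum]
  refine sum_congr rfl fun i _ => ?_
  have := RCLike.conj_mul (c i)
  rw [← RCLike.star_def] at this
  rw [this]
  norm_cast

/-- The matrix of the left multiplication by `a`. -/
def Mat {K : ℕ} (ω : A →ₗ[ℂ] ℂ) (e : Fin K → A) (a : A) (i j : Fin K) : ℂ :=
  ω (star (e i) * (a * e j))

lemma FB_Mat (hB : S_BAS) {K : ℕ} {e : Fin K → A} {ω : A →ₗ[ℂ] ℂ} (hω : St A ω)
    (on : ∀ i j, ω (star (e i) * e j) = if i = j then 1 else 0) (a : A) :
    FB (Mat ω e a) ‖a‖ := by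
  obtain ⟨-, -, h3, h4⟩ := hB A ω hω
  intro c c'
  have h5 : ∑ i, ∑ k, star (c' i) * Mat ω e a i k * c k =
      ω (star (∑ i, c' i • e i) * (a * ∑ k, c k • e k)) := by
    simp only [star_sum, star_smul, sum_mul, mul_sum, map_sum, smul_mul_assoc, mul_smul_comm,
      map_smul, smul_eq_mul, Mat]
    rw [sum_comm]
    refine sum_congr rfl fun k _ => sum_congr rfl fun i _ => ?_
    ring
  rw [h5]
  have h6 := h3 (a * ∑ k, c k • e k) (∑ i, c' i • e i)
  have h7 := h4 a (∑ k, c k • e k)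
  rw [parseval_re on] at h6 h7
  have h8 : 0 ≤ ∑ i, ‖c' i‖ ^ 2 := sum_nonneg fun i _ => by positivity
  have h9 : 0 ≤ ∑ i, ‖c i‖ ^ 2 := sum_nonneg fun i _ => by positivity
  refine abs_le_of_sq_le_sq' ?_ (by positivity) |>.2
  rw [mul_pow, mul_pow, Real.sq_sqrt h8, Real.sq_sqrt h9]
  nlinarith [mul_le_mul_of_nonneg_left h7 h8]

lemma Mat_star (hB : S_BAS) {K : ℕ} {e : Fin K → A} {ω : A →ₗ[ℂ] ℂ} (hω : St A ω) (a : A)
    (i j : Fin K) : Mat ω e (star a) i j = star (Mat ω e a j i) := by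
  obtain ⟨h1, -⟩ := hB A ω hω
  unfold Mat
  rw [← h1]
  congr 1
  simp [mul_assoc]

/-- column sums -/
lemma col_le {K : ℕ} {B : Fin K → Fin K → ℂ} {β : ℝ} (hβ : 0 ≤ β) (h : FB B β) (s : Fin K → Prop)
    [DecidablePred s] (j : Fin K) :
    ∑ i, ‖(if s i then B i j else 0 : ℂ)‖ ^ 2 ≤ β ^ 2 := by
  set S : ℝ := ∑ i, ‖(if s i then B i j else 0 : ℂ)‖ ^ 2 with hS
  have hS0 : 0 ≤ S := sum_nonneg fun i _ => by positivity
  have h1 := h (fun k => if k = j then 1 else 0) (fun i => if s i then B i j else 0)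
  have h2 : ∑ i, ∑ k, star (if s i then B i j else 0 : ℂ) * B i k * (if k = j then 1 else 0) =
      ((S : ℝ) : ℂ) := by
    rw [hS]
    push_cast
    refine sum_congr rfl fun i _ => ?_
    simp only [mul_ite, mul_one, mul_zero, sum_ite_eq', mem_univ, if_true]
    by_cases hi : s i
    · simp only [hi, if_true]
      have := RCLike.conj_mul (B i j)
      rw [← RCLike.star_def] at this
      rw [this]
      norm_cast
    · simp [hi]
  have h3 : ∑ k, ‖(if k = j then 1 else 0 : ℂ)‖ ^ 2 = 1 := by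
    have : ∀ k : Fin K, ‖(if k = j then 1 else 0 : ℂ)‖ ^ 2 = if k = j then (1 : ℝ) else 0 := by
      intro k
      split_ifs <;> simp
    simp [this]
  rw [h2, ← hS, h3, Real.sqrt_one, mul_one, Complex.norm_real, Real.norm_of_nonneg hS0] at h1
  have h4 : Real.sqrt S ≤ β := by
    rcases eq_or_lt_of_le hS0 with h5 | h5
    · rw [← h5, Real.sqrt_zero]
      exact hβ
    · have h6 : 0 < Real.sqrt S := Real.sqrt_pos.2 h5
      have h7 : Real.sqrt S * Real.sqrt S ≤ β * Real.sqrt S := by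
        rw [Real.mul_self_sqrt hS0]
        exact h1
      exact le_of_mul_le_mul_right h7 h6
  calc S = Real.sqrt S ^ 2 := (Real.sq_sqrt hS0).symm
    _ ≤ β ^ 2 := by
      apply pow_le_pow_left₀ (Real.sqrt_nonneg S) h4

/-- The tail terms. -/
lemma tail_le {ω : A →ₗ[ℂ] ℂ} {F : ℕ → Submodule ℂ A} {N m : ℕ} {K : ℕ} {e : Fin K → A}
    {lv : Fin K → ℕ} {i0 : Fin K} {C : ℕ → ℝ} {ε β : ℝ} (hmono : Monotone F)
    (hf : Flag ω F (N + m) e lv i0) (hC : ∀ n, ∀ x ∈ F n, ‖x‖ ^ 2 ≤ C n * (ω (star x * x)).re)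
    (hCm : Monotone C) (hε : 0 < ε) (hβ : 0 ≤ β) (X : Fin K → Fin K → ℂ)
    (h1 : ∀ i j, X i j ≠ 0 → N < lv i ∧ lv i ≤ lv j + m)
    (h2 : ∀ j, ∑ i, ‖X i j‖ ^ 2 ≤ β ^ 2) :
    ‖G e (fun i j => X i j * (kap ε N (lv j) : ℂ))‖ ≤
      (Finset.univ.filter fun i => lv i ≤ N).card * Real.exp (-(ε * ((N : ℝ) - m))) *
        C (N + m) * β := by
  have hC0 : 0 ≤ C (N + m) := by
    have h3 := hC (lv i0) _ (hf.mem i0)
    rw [hf.on i0 i0, if_pos rfl] at h3
    simp only [Complex.one_re, mul_one] at h3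
    exact (le_trans (by positivity) h3).trans (hCm (hf.lv_le i0))
  have he : ∀ j, ‖e j‖ ≤ Real.sqrt (C (N + m)) := by
    intro j
    apply Real.le_sqrt_of_sq_le
    have h3 := hC (lv j) _ (hf.mem j)
    rw [hf.on j j, if_pos rfl] at h3
    simp only [Complex.one_re, mul_one] at h3
    exact h3.trans (hCm (hf.lv_le j))
  have hy : ∀ j, ‖∑ i, X i j • e i‖ ≤ Real.sqrt (C (N + m)) * β := by
    intro j
    have h3 : ∑ i, X i j • e i ∈ F (N + m) :=
      Submodule.sum_mem _ fun i _ => Submodule.smul_mem _ _ (hmono (hf.lv_le i) (hf.mem i))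
    have h4 := hC (N + m) _ h3
    rw [parseval_re hf.on] at h4
    have h5 : ‖∑ i, X i j • e i‖ ^ 2 ≤ (Real.sqrt (C (N + m)) * β) ^ 2 := by
      rw [mul_pow, Real.sq_sqrt hC0]
      exact h4.trans (mul_le_mul_of_nonneg_left (h2 j) hC0)
    exact abs_le_of_sq_le_sq' h5 (by positivity) |>.2
  have hG : G e (fun i j => X i j * (kap ε N (lv j) : ℂ)) =
      ∑ j, (kap ε N (lv j) : ℂ) • ((∑ i, X i j • e i) * star (e j)) := by
    unfold G
    rw [sum_comm]
    refine sum_congr rfl fun j _ => ?_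
    rw [sum_mul, smul_sum]
    refine sum_congr rfl fun i _ => ?_
    rw [smul_mul_assoc, smul_smul, mul_comm]
  rw [hG]
  have hterm : ∀ j, ‖(kap ε N (lv j) : ℂ) • ((∑ i, X i j • e i) * star (e j))‖ ≤
      if lv j ≤ N then Real.exp (-(ε * ((N : ℝ) - m))) * C (N + m) * β else 0 := by
    intro j
    by_cases hj : lv j ≤ N
    · rw [if_pos hj]
      by_cases hj2 : lv j + m ≤ N
      · have h3 : ∑ i, X i j • e i = 0 := by
          refine sum_eq_zero fun i _ => ?_
          have : X i j = 0 := by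
            by_contra h
            obtain ⟨h4, h5⟩ := h1 i j h
            omega
          rw [this, zero_smul]
        rw [h3, zero_mul, smul_zero, norm_zero]
        positivity
      · rw [norm_smul, Complex.norm_real, kap, if_pos hj, Real.norm_of_nonneg (Real.exp_pos _).le]
        have h3 : Real.exp (-(ε * (lv j : ℝ))) ≤ Real.exp (-(ε * ((N : ℝ) - m))) := by
          apply Real.exp_le_exp.2
          have : (N : ℝ) - m ≤ lv j := by
            have : N ≤ lv j + m := by omega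
            have h4 : (N : ℝ) ≤ (lv j : ℝ) + m := by exact_mod_cast this
            linarith
          nlinarith
        have h4 : ‖(∑ i, X i j • e i) * star (e j)‖ ≤ C (N + m) * β := by
          refine (norm_mul_le _ _).trans ?_
          rw [norm_star]
          calc ‖∑ i, X i j • e i‖ * ‖e j‖
              ≤ (Real.sqrt (C (N + m)) * β) * Real.sqrt (C (N + m)) := by
                apply mul_le_mul (hy j) (he j) (norm_nonneg _)
                positivity
            _ = C (N + m) * β := by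
                rw [mul_right_comm, Real.mul_self_sqrt hC0]
        calc Real.exp (-(ε * (lv j : ℝ))) * ‖(∑ i, X i j • e i) * star (e j)‖
            ≤ Real.exp (-(ε * ((N : ℝ) - m))) * (C (N + m) * β) := by
              apply mul_le_mul h3 h4 (norm_nonneg _) (Real.exp_pos _).le
          _ = _ := by ring
    · rw [if_neg hj, kap, if_neg hj]
      simp
  refine (norm_sum_le _ _).trans ?_
  refine (sum_le_sum fun j _ => hterm j).trans ?_
  rw [← sum_filter, sum_const, nsmul_eq_mul]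
  apply le_of_eq
  ring


lemma pull {K : ℕ} (e : Fin K → A) (s : Fin K → ℝ) (h : ℝ) (hh : 0 ≤ h) (B : Fin K → Fin K → ℂ)
    (P Q : A) :
    ∑ i, ∑ j, B i j • ((Real.sqrt h • s i • (P * e i)) * star (Real.sqrt h • s j • (Q * e j))) =
      h • (P * G e (fun i j => (s i : ℂ) * B i j * (s j : ℂ)) * star Q) := by
  unfold G
  rw [mul_sum, sum_mul, smul_sum]
  refine sum_congr rfl fun i _ => ?_
  rw [mul_sum, sum_mul, smul_sum]
  refine sum_congr rfl fun j _ => ?_
  simp only [star_smul, star_mul, smul_mul_assoc, mul_smul_comm, ← Complex.coe_smul, smul_smul,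
    mul_assoc]
  congr 1
  have h1 : ((Real.sqrt h : ℝ) : ℂ) * ((Real.sqrt h : ℝ) : ℂ) = (h : ℂ) := by
    rw [← Complex.ofReal_mul, Real.mul_self_sqrt hh]
  simp only [RCLike.star_def, Complex.conj_ofReal]
  rw [← h1]
  ring

end

end Pool.Agent.N635.SG
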