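import Pool.Agent.N635.SG.ERR

/-!
# Project SG: the error estimate, second part
-/

set_option autoImplicit false

namespace Pool.Agent.N635.SG

open scoped ComplexOrder
open Filter Finset

noncomputable section

variable {A : Type} [CStarAlgebra A]

lemma band {ω : A →ₗ[ℂ] ℂ} {F : ℕ → Submodule ℂ A} {N m : ℕ} {K : ℕ} {e : Fin K → A}
    {lv : Fin K → ℕ} {i0 : Fin K} (hmul : ∀ m n : ℕ, ∀ x ∈ F m, ∀ y ∈ F n, x * y ∈ F (m + n))
    (hf : Flag ω F (N + m) e lv i0) {a : A} (ha : a ∈ F m) {i j : Fin K}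
    (h : Mat ω e a i j ≠ 0) : lv i ≤ lv j + m := by
  by_contra hc
  apply h
  have h1 := hf.lv_le i
  exact hf.zero (m + lv j) (by omega) _ (hmul m (lv j) a ha _ (hf.mem j)) i (by omega)

lemma mulH {ω : A →ₗ[ℂ] ℂ} {F : ℕ → Submodule ℂ A} {N m : ℕ} {K : ℕ} {e : Fin K → A}
    {lv : Fin K → ℕ} {i0 : Fin K} {ε : ℝ} (hmono : Monotone F)
    (hmul : ∀ m n : ℕ, ∀ x ∈ F m, ∀ y ∈ F n, x * y ∈ F (m + n))
    (hf : Flag ω F (N + m) e lv i0) {a : A} (ha : a ∈ F m) :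
    a * (∑ i, kap ε N (lv i) • (e i * star (e i))) =
      G e (fun i j => Mat ω e a i j * (kap ε N (lv j) : ℂ)) := by
  unfold G
  rw [mul_sum, sum_comm]
  refine sum_congr rfl fun j _ => ?_
  by_cases hj : lv j ≤ N
  · have h1 : a * e j ∈ F (N + m) := hmono (by omega) (hmul m (lv j) a ha _ (hf.mem j))
    have h2 := hf.rep (N + m) le_rfl _ h1
    rw [mul_smul_comm, ← mul_assoc, ← Complex.coe_smul]
    conv_lhs => rw [h2]
    rw [sum_mul, smul_sum]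
    refine sum_congr rfl fun i _ => ?_
    rw [smul_mul_assoc, smul_smul, mul_comm]
    rfl
  · have h1 : kap ε N (lv j) = 0 := by rw [kap, if_neg hj]
    simp [h1]

lemma starH {N : ℕ} {K : ℕ} {e : Fin K → A} {lv : Fin K → ℕ} {ε : ℝ} :
    star (∑ i, kap ε N (lv i) • (e i * star (e i))) = ∑ i, kap ε N (lv i) • (e i * star (e i)) := by
  rw [star_sum]
  refine sum_congr rfl fun i _ => ?_
  rw [star_smul, star_mul, star_star]
  simp

lemma Hmul (hB : S_BAS) {ω : A →ₗ[ℂ] ℂ} (hω : St A ω) {F : ℕ → Submodule ℂ A} {N m : ℕ} {K : ℕ}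
    {e : Fin K → A} {lv : Fin K → ℕ} {i0 : Fin K} {ε : ℝ} (hmono : Monotone F)
    (hmul : ∀ m n : ℕ, ∀ x ∈ F m, ∀ y ∈ F n, x * y ∈ F (m + n))
    (hstar : ∀ n : ℕ, ∀ x ∈ F n, star x ∈ F n)
    (hf : Flag ω F (N + m) e lv i0) {a : A} (ha : a ∈ F m) :
    (∑ i, kap ε N (lv i) • (e i * star (e i))) * a =
      G e (fun i j => (kap ε N (lv i) : ℂ) * Mat ω e a i j) := by
  have h1 := mulH (ε := ε) hmono hmul hf (hstar m a ha)
  have h2 := congrArg star h1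
  rw [star_mul, star_star, starH, G_star] at h2
  rw [h2]
  congr 1
  funext i j
  rw [star_mul', Mat_star hB hω, star_star, mul_comm]
  simp

/-- the tail term -/
def T1 {K : ℕ} (ω : A →ₗ[ℂ] ℂ) (e : Fin K → A) (lv : Fin K → ℕ) (ε : ℝ) (N : ℕ) (a : A) : A :=
  G e (fun i j => (if N < lv i then Mat ω e a i j else 0) * (kap ε N (lv j) : ℂ))

lemma T1_le (hB : S_BAS) {ω : A →ₗ[ℂ] ℂ} (hω : St A ω) {F : ℕ → Submodule ℂ A} {N m : ℕ} {K : ℕ}
    {e : Fin K → A} {lv : Fin K → ℕ} {i0 : Fin K} {C : ℕ → ℝ} {ε : ℝ} (hmono : Monotone F)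
    (hmul : ∀ m n : ℕ, ∀ x ∈ F m, ∀ y ∈ F n, x * y ∈ F (m + n))
    (hf : Flag ω F (N + m) e lv i0) (hC : ∀ n, ∀ x ∈ F n, ‖x‖ ^ 2 ≤ C n * (ω (star x * x)).re)
    (hCm : Monotone C) (hε : 0 < ε) {a : A} (ha : a ∈ F m) :
    ‖T1 ω e lv ε N a‖ ≤
      (Finset.univ.filter fun i => lv i ≤ N).card * Real.exp (-(ε * ((N : ℝ) - m))) *
        C (N + m) * ‖a‖ := by
  refine tail_le hmono hf hC hCm hε (norm_nonneg a)
    (fun i j => if N < lv i then Mat ω e a i j else 0) ?_ ?_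
  · intro i j h
    by_cases hi : N < lv i
    · simp only [hi, if_true] at h
      exact ⟨hi, band hmul hf ha h⟩
    · simp [hi] at h
  · intro j
    exact col_le (norm_nonneg a) (FB_Mat hB hω hf.on a) (fun i => N < lv i) j

/-- the other tail term -/
def T2 {K : ℕ} (ω : A →ₗ[ℂ] ℂ) (e : Fin K → A) (lv : Fin K → ℕ) (ε : ℝ) (N : ℕ) (a : A) : A :=
  G e (fun i j => (kap ε N (lv i) : ℂ) * (if N < lv j then Mat ω e a i j else 0))

lemma T2_eq (hB : S_BAS) {ω : A →ₗ[ℂ] ℂ} (hω : St A ω) {N : ℕ} {K : ℕ}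
    {e : Fin K → A} {lv : Fin K → ℕ} {ε : ℝ} (a : A) :
    T2 ω e lv ε N a = star (T1 ω e lv ε N (star a)) := by
  unfold T1 T2
  rw [G_star]
  congr 1
  funext i j
  rw [star_mul', mul_comm]
  congr 1
  · split_ifs
    · rw [Mat_star hB hω, star_star]
    · simp
  · simp

/-- `√κ` -/
def sk (ε : ℝ) (N n : ℕ) : ℝ := Real.sqrt (kap ε N n)

lemma kap_nonneg (ε : ℝ) (N n : ℕ) : 0 ≤ kap ε N n := by
  unfold kap
  split_ifs
  · exact (Real.exp_pos _).le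
  · exact le_rfl

lemma sk_eq {ε : ℝ} {N n : ℕ} (h : n ≤ N) : sk ε N n = Real.exp (-(ε * n) / 2) := by
  rw [sk, kap, if_pos h]
  rw [Real.exp_half]

lemma sk_zero {ε : ℝ} {N n : ℕ} (h : ¬ n ≤ N) : sk ε N n = 0 := by
  rw [sk, kap, if_neg h, Real.sqrt_zero]

/-- first multiplier -/
def g1 (ε : ℝ) (t : ℤ) : ℝ := 1 - Real.exp (ε * t / 2)

/-- second multiplier -/
def g2 (ε : ℝ) (t : ℤ) : ℝ := Real.exp (-(ε * t / 2)) - Real.exp (ε * t / 2)

lemma g1_le {ε : ℝ} (hε : 0 < ε) {m : ℕ} {t : ℤ} (ht : |t| ≤ m) :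
    |g1 ε t| ≤ Real.exp (ε * m / 2) - 1 := by
  have h0 : |(t : ℝ)| ≤ m := by exact_mod_cast ht
  obtain ⟨h1, h2⟩ := abs_le.1 h0
  have h3 : Real.exp (ε * t / 2) ≤ Real.exp (ε * m / 2) := by
    apply Real.exp_le_exp.2
    nlinarith
  have h4 : Real.exp (-(ε * m / 2)) ≤ Real.exp (ε * t / 2) := by
    apply Real.exp_le_exp.2
    nlinarith
  have h5 : 2 ≤ Real.exp (ε * m / 2) + Real.exp (-(ε * m / 2)) := by
    have h6 := Real.add_one_le_exp (ε * m / 2)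
    have h7 := Real.add_one_le_exp (-(ε * m / 2))
    linarith
  unfold g1
  rw [abs_le]
  constructor <;> linarith

lemma g2_le {ε : ℝ} (hε : 0 < ε) {m : ℕ} {t : ℤ} (ht : |t| ≤ m) :
    |g2 ε t| ≤ Real.exp (ε * m / 2) - Real.exp (-(ε * m / 2)) := by
  have h0 : |(t : ℝ)| ≤ m := by exact_mod_cast ht
  obtain ⟨h1, h2⟩ := abs_le.1 h0
  have h3 : Real.exp (ε * t / 2) ≤ Real.exp (ε * m / 2) := by
    apply Real.exp_le_exp.2
    nlinarith
  have h4 : Real.exp (-(ε * m / 2)) ≤ Real.exp (ε * t / 2) := by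
    apply Real.exp_le_exp.2
    nlinarith
  have h5 : Real.exp (-(ε * t / 2)) ≤ Real.exp (ε * m / 2) := by
    apply Real.exp_le_exp.2
    nlinarith
  have h6 : Real.exp (-(ε * m / 2)) ≤ Real.exp (-(ε * t / 2)) := by
    apply Real.exp_le_exp.2
    nlinarith
  unfold g2
  rw [abs_le]
  constructor <;> linarith

/-- `Φ(X)` -/
def Ph {K : ℕ} (e : Fin K → A) (lv : Fin K → ℕ) (ε : ℝ) (N : ℕ) (X : Fin K → Fin K → ℂ) : A :=
  G e (fun i j => (sk ε N (lv i) : ℂ) * X i j * (sk ε N (lv j) : ℂ))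

/-- `B1` -/
def B1 {K : ℕ} (ω : A →ₗ[ℂ] ℂ) (e : Fin K → A) (lv : Fin K → ℕ) (ε : ℝ) (a : A) (i j : Fin K) : ℂ :=
  ((g1 ε ((lv i : ℤ) - (lv j : ℤ)) : ℝ) : ℂ) * Mat ω e a i j

/-- `B2` -/
def B2 {K : ℕ} (ω : A →ₗ[ℂ] ℂ) (e : Fin K → A) (lv : Fin K → ℕ) (ε : ℝ) (a : A) (i j : Fin K) : ℂ :=
  ((g2 ε ((lv i : ℤ) - (lv j : ℤ)) : ℝ) : ℂ) * Mat ω e a i j

lemma Ph_sub_aH {K : ℕ} (ω : A →ₗ[ℂ] ℂ) (e : Fin K → A) (lv : Fin K → ℕ) (ε : ℝ) (N : ℕ) (a : A) :
    Ph e lv ε N (Mat ω e a) =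
      G e (fun i j => Mat ω e a i j * (kap ε N (lv j) : ℂ)) +
        (Ph e lv ε N (B1 ω e lv ε a) - T1 ω e lv ε N a) := by
  unfold Ph T1
  rw [← G_sub, ← G_add]
  congr 1
  funext i j
  have hk : ∀ n, kap ε N n = sk ε N n * sk ε N n := fun n =>
    (Real.mul_self_sqrt (kap_nonneg ε N n)).symm
  by_cases hi : lv i ≤ N
  · by_cases hj : lv j ≤ N
    · have h1 : ¬ N < lv i := by omega
      rw [if_neg h1, hk (lv j), B1]
      have h2 : g1 ε ((lv i : ℤ) - (lv j : ℤ)) * sk ε N (lv i) = sk ε N (lv i) - sk ε N (lv j) := by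
        rw [g1, sk_eq hi, sk_eq hj, sub_mul, one_mul, ← Real.exp_add]
        congr 2
        push_cast
        ring
      have h3 : (sk ε N (lv i) : ℂ) * (((g1 ε ((lv i : ℤ) - (lv j : ℤ)) : ℝ) : ℂ) * Mat ω e a i j) *
          (sk ε N (lv j) : ℂ) =
          (((g1 ε ((lv i : ℤ) - (lv j : ℤ)) * sk ε N (lv i) : ℝ)) : ℂ) * Mat ω e a i j *
            (sk ε N (lv j) : ℂ) := by
        push_cast
        ring
      rw [h3, h2]
      push_cast
      ring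
    · have h1 : ¬ N < lv i := by omega
      rw [if_neg h1, hk (lv j), sk_zero hj]
      simp
  · have h1 : N < lv i := by omega
    rw [if_pos h1, sk_zero hi]
    simp

lemma Ha_sub_aH {K : ℕ} (ω : A →ₗ[ℂ] ℂ) (e : Fin K → A) (lv : Fin K → ℕ) (ε : ℝ) (N : ℕ) (a : A) :
    G e (fun i j => (kap ε N (lv i) : ℂ) * Mat ω e a i j) -
      G e (fun i j => Mat ω e a i j * (kap ε N (lv j) : ℂ)) =
        Ph e lv ε N (B2 ω e lv ε a) + T2 ω e lv ε N a - T1 ω e lv ε N a := by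
  unfold Ph T1 T2
  rw [← G_sub, ← G_add, ← G_sub]
  congr 1
  funext i j
  have hk : ∀ n, kap ε N n = sk ε N n * sk ε N n := fun n =>
    (Real.mul_self_sqrt (kap_nonneg ε N n)).symm
  by_cases hi : lv i ≤ N
  · by_cases hj : lv j ≤ N
    · have h1 : ¬ N < lv i := by omega
      have h1' : ¬ N < lv j := by omega
      rw [if_neg h1, if_neg h1', hk (lv j), hk (lv i), B2]
      have h2 : g2 ε ((lv i : ℤ) - (lv j : ℤ)) * (sk ε N (lv i) * sk ε N (lv j)) =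
          sk ε N (lv i) * sk ε N (lv i) - sk ε N (lv j) * sk ε N (lv j) := by
        rw [g2, sk_eq hi, sk_eq hj, sub_mul, ← Real.exp_add, ← Real.exp_add, ← Real.exp_add,
          ← Real.exp_add, ← Real.exp_add]
        congr 2
        · push_cast
          ring
        · push_cast
          ring
      have h3 : (sk ε N (lv i) : ℂ) * (((g2 ε ((lv i : ℤ) - (lv j : ℤ)) : ℝ) : ℂ) * Mat ω e a i j) *
          (sk ε N (lv j) : ℂ) =
          (((g2 ε ((lv i : ℤ) - (lv j : ℤ)) * (sk ε N (lv i) * sk ε N (lv j)) : ℝ)) : ℂ) *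
            Mat ω e a i j := by
        push_cast
        ring
      rw [h3, h2]
      push_cast
      ring
    · have h1 : ¬ N < lv i := by omega
      have h1' : N < lv j := by omega
      rw [if_neg h1, if_pos h1', hk (lv j), sk_zero hj]
      simp
  · have h1 : N < lv i := by omega
    rw [if_pos h1, hk (lv i), sk_zero hi]
    by_cases hj : lv j ≤ N
    · have h1' : ¬ N < lv j := by omega
      rw [if_neg h1']
      simp
    · rw [hk (lv j), sk_zero hj]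
      simp

end

end Pool.Agent.N635.SG
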