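import Pool.Agent.N635.SG.ERR2

/-!
# Project SG: the error estimate, final part
-/

set_option autoImplicit false

namespace Pool.Agent.N635.SG

open scoped ComplexOrder
open Filter Finset

noncomputable section

variable {A : Type} [CStarAlgebra A]

lemma pull1 {K : ℕ} (e : Fin K → A) (lv : Fin K → ℕ) (ε : ℝ) (N : ℕ) (h : ℝ) (hh : 0 ≤ h) (P : A) :
    ∑ i, ((Real.sqrt h • sk ε N (lv i) • (P * e i)) *
      star (Real.sqrt h • sk ε N (lv i) • (P * e i))) =
      h • (P * (∑ i, kap ε N (lv i) • (e i * star (e i))) * star P) := by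
  rw [mul_sum, sum_mul, smul_sum]
  refine sum_congr rfl fun i _ => ?_
  have h1 : Real.sqrt h * Real.sqrt h = h := Real.mul_self_sqrt hh
  have h2 : sk ε N (lv i) * sk ε N (lv i) = kap ε N (lv i) := Real.mul_self_sqrt (kap_nonneg ε N _)
  simp only [star_smul, star_mul, smul_mul_assoc, mul_smul_comm, smul_smul, mul_assoc]
  congr 1
  simp only [star_trivial]
  rw [← h2]
  conv_rhs => rw [← h1]
  ring

theorem t_ERR (hB : S_BAS) (hCS : S_CS) (hSCH : S_SCH) : S_ERR := by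
  intro A _ _ ω F N m K e lv i0 C ε h M R H a hω hmono hmul hstar hf hC hCm hε hh hH hRs hRc hRi
    hHR hR2 hRHR hRR ha
  set τ : ℝ := (univ.filter fun i => lv i ≤ N).card * Real.exp (-(ε * ((N : ℝ) - m))) *
    C (N + m) with hτ
  have hT1 : ‖T1 ω e lv ε N a‖ ≤ τ * ‖a‖ := T1_le hB hω hmono hmul hf hC hCm hε ha
  have hT2 : ‖T2 ω e lv ε N a‖ ≤ τ * ‖a‖ := by
    rw [T2_eq hB hω, norm_star]
    have := T1_le (lv := lv) hB hω hmono hmul hf hC hCm hε (hstar m a ha)
    rwa [norm_star] at this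
  have hHs : star H = H := by rw [hH]; exact starH
  have hsum : (∑ p, ∑ i, ∑ j, ω (star (e i) * (a * e j)) •
        ((Real.sqrt h • Real.sqrt (kap ε N (lv i)) • (R p * e i)) *
          star (Real.sqrt h • Real.sqrt (kap ε N (lv j)) • (R p * e j)))) =
      ∑ p, h • (R p * Ph e lv ε N (Mat ω e a) * R p) := by
    refine sum_congr rfl fun p _ => ?_
    have := pull e (fun i => sk ε N (lv i)) h hh.le (Mat ω e a) (R p) (R p)
    rw [hRs p] at this
    exact this
  have haH : a * H = G e (fun i j => Mat ω e a i j * (kap ε N (lv j) : ℂ)) := by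
    rw [hH]; exact mulH hmono hmul hf ha
  have hHa : H * a = G e (fun i j => (kap ε N (lv i) : ℂ) * Mat ω e a i j) := by
    rw [hH]; exact Hmul hB hω hmono hmul hstar hf ha
  have hPhi : Ph e lv ε N (Mat ω e a) =
      a * H + (Ph e lv ε N (B1 ω e lv ε a) - T1 ω e lv ε N a) := by
    rw [haH]; exact Ph_sub_aH ω e lv ε N a
  have hcom : H * a - a * H =
      Ph e lv ε N (B2 ω e lv ε a) + T2 ω e lv ε N a - T1 ω e lv ε N a := by
    rw [haH, hHa]; exact Ha_sub_aH ω e lv ε N a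
  have key : ∀ p, R p * a * H * R p =
      a * (H * R p * R p) - R p * (H * a - a * H) * (R p * H * R p) := by
    intro p
    have h1 := hRi p
    set c : ℝ := (((p : ℕ) : ℝ) + 1) * h with hc
    rw [mul_add, mul_smul_comm, mul_one] at h1
    have h2 : R p * H = 1 - c • R p := eq_sub_of_add_eq h1
    have h3 : H * R p = 1 - c • R p := by rw [← hRc p, h2]
    have h4 : R p * (H * a - a * H) * R p = a * R p - R p * a := by
      rw [mul_sub, sub_mul, ← mul_assoc (R p) H a, h2, mul_assoc (R p) (a * H) (R p),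
        mul_assoc a H (R p), h3]
      simp only [sub_mul, mul_sub, one_mul, mul_one, smul_mul_assoc, mul_smul_comm, mul_assoc]
      abel
    calc R p * a * H * R p
        = a * R p * (H * R p) - (a * R p - R p * a) * (H * R p) := by
          simp only [sub_mul, mul_assoc]
          abel
      _ = a * (H * R p * R p) - R p * (H * a - a * H) * (R p * H * R p) := by
          rw [← h4]
          congr 1
          · rw [mul_assoc a, ← mul_assoc (R p) H (R p), hRc p]
          · simp only [mul_assoc]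
  set Z1 : A := ∑ p, h • (R p * Ph e lv ε N (B1 ω e lv ε a) * R p) with hE1
  set Z2 : A := ∑ p, h • (R p * T1 ω e lv ε N a * R p) with hE2
  set Z4 : A := ∑ p, h • (R p * Ph e lv ε N (B2 ω e lv ε a) * (R p * H * R p)) with hE4
  set Z5 : A := ∑ p, h • (R p * T2 ω e lv ε N a * (R p * H * R p)) with hE5
  set Z6 : A := ∑ p, h • (R p * T1 ω e lv ε N a * (R p * H * R p)) with hE6
  have hmain : (∑ p, h • (R p * Ph e lv ε N (Mat ω e a) * R p)) - a =
      Z1 - Z2 - a * (1 - ∑ j, h • (H * R j * R j)) - Z4 - Z5 + Z6 := by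
    have h1 : ∀ p, h • (R p * Ph e lv ε N (Mat ω e a) * R p) =
        h • (R p * Ph e lv ε N (B1 ω e lv ε a) * R p) - h • (R p * T1 ω e lv ε N a * R p) +
        a * (h • (H * R p * R p)) -
        h • (R p * Ph e lv ε N (B2 ω e lv ε a) * (R p * H * R p)) -
        h • (R p * T2 ω e lv ε N a * (R p * H * R p)) +
        h • (R p * T1 ω e lv ε N a * (R p * H * R p)) := by
      intro p
      have h2 : R p * Ph e lv ε N (Mat ω e a) * R p =
          R p * Ph e lv ε N (B1 ω e lv ε a) * R p - R p * T1 ω e lv ε N a * R p +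
          a * (H * R p * R p) -
          R p * Ph e lv ε N (B2 ω e lv ε a) * (R p * H * R p) -
          R p * T2 ω e lv ε N a * (R p * H * R p) +
          R p * T1 ω e lv ε N a * (R p * H * R p) := by
        have h3 : R p * Ph e lv ε N (Mat ω e a) * R p = R p * a * H * R p +
            (R p * Ph e lv ε N (B1 ω e lv ε a) * R p - R p * T1 ω e lv ε N a * R p) := by
          rw [hPhi, mul_add, add_mul, mul_sub, sub_mul, ← mul_assoc]
        rw [h3, key p, hcom]
        simp only [mul_add, mul_sub, add_mul, sub_mul]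
        abel
      rw [h2]
      simp only [smul_add, smul_sub, mul_smul_comm]
    rw [sum_congr rfl fun p _ => h1 p]
    simp only [sum_add_distrib, sum_sub_distrib]
    rw [← mul_sum, mul_sub, mul_one]
    abel
  have hβ1 : (0:ℝ) ≤ Real.exp (ε * m / 2) - 1 := by
    have := Real.one_le_exp (x := ε * m / 2) (by positivity)
    linarith
  have hβ2 : (0:ℝ) ≤ Real.exp (ε * m / 2) - Real.exp (-(ε * m / 2)) := by
    have h1 : Real.exp (-(ε * m / 2)) ≤ Real.exp (ε * m / 2) := by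
      apply Real.exp_le_exp.2
      have : (0:ℝ) ≤ ε * m / 2 := by positivity
      linarith
    linarith
  have hband : ∀ i k, Mat ω e a i k ≠ 0 → lv i ≤ lv k + m ∧ lv k ≤ lv i + m := by
    intro i k hik
    refine ⟨band hmul hf ha hik, band hmul hf (hstar m a ha) (i := k) (j := i) ?_⟩
    rw [Mat_star hB hω]
    exact star_ne_zero.2 hik
  have hFB1 : FB (B1 ω e lv ε a) ((2 * m + 1) * (Real.exp (ε * m / 2) - 1) * ‖a‖) :=
    hSCH (Fin K) (Mat ω e a) ‖a‖ _ lv m (g1 ε) (norm_nonneg a) hβ1 (FB_Mat hB hω hf.on a) hband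
      (fun t ht => g1_le hε ht)
  have hFB2 : FB (B2 ω e lv ε a)
      ((2 * m + 1) * (Real.exp (ε * m / 2) - Real.exp (-(ε * m / 2))) * ‖a‖) :=
    hSCH (Fin K) (Mat ω e a) ‖a‖ _ lv m (g2 ε) (norm_nonneg a) hβ2 (FB_Mat hB hω hf.on a) hband
      (fun t ht => g2_le hε ht)
  set x : Fin M → Fin K → A := fun p i => Real.sqrt h • sk ε N (lv i) • (R p * e i) with hx
  set y : Fin M → Fin K → A := fun p i => Real.sqrt h • sk ε N (lv i) • ((R p * H * R p) * e i)
    with hy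
  have hxx : ‖∑ p, ∑ i, x p i * star (x p i)‖ ≤ 1 := by
    have h1 : ∑ p, ∑ i, x p i * star (x p i) = ∑ j, h • (R j * H * R j) := by
      refine sum_congr rfl fun p _ => ?_
      have := pull1 e lv ε N h hh.le (R p)
      rw [← hH, hRs p] at this
      exact this
    rw [h1]
    exact hRHR
  have hyy : ‖∑ p, ∑ i, y p i * star (y p i)‖ ≤ 1 := by
    have h1 : ∑ p, ∑ i, y p i * star (y p i) =
        ∑ j, h • ((H * R j) * (R j * H * R j) * (H * R j)) := by
      refine sum_congr rfl fun p _ => ?_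
      have := pull1 e lv ε N h hh.le (R p * H * R p)
      rw [← hH, star_mul, star_mul, hRs p, hHs] at this
      refine this.trans ?_
      congr 1
      have hsw : ∀ X, R p * (H * X) = H * (R p * X) := by
        intro X
        rw [← mul_assoc, hRc p, mul_assoc]
      simp only [mul_assoc]
      rw [hsw (R p * (H * (R p * (H * R p))))]
    rw [h1]
    exact hRR
  have hn1 : ‖Z1‖ ≤ (2 * m + 1) * (Real.exp (ε * m / 2) - 1) * ‖a‖ := by
    have h0 : (0:ℝ) ≤ (2 * m + 1) * (Real.exp (ε * m / 2) - 1) * ‖a‖ :=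
      mul_nonneg (mul_nonneg (by positivity) hβ1) (norm_nonneg a)
    have h1 := hCS A (Fin K) (Fin M) (B1 ω e lv ε a) _ x x h0 hFB1
    have h2 : ∑ p, ∑ i, ∑ k, B1 ω e lv ε a i k • (x p i * star (x p k)) = Z1 := by
      refine sum_congr rfl fun p _ => ?_
      have := pull e (fun i => sk ε N (lv i)) h hh.le (B1 ω e lv ε a) (R p) (R p)
      rw [hRs p] at this
      exact this
    rw [h2, Real.mul_self_sqrt (norm_nonneg _)] at h1
    exact h1.trans (mul_le_of_le_one_right h0 hxx)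
  have hn4 : ‖Z4‖ ≤ (2 * m + 1) * (Real.exp (ε * m / 2) - Real.exp (-(ε * m / 2))) * ‖a‖ := by
    have h0 : (0:ℝ) ≤ (2 * m + 1) * (Real.exp (ε * m / 2) - Real.exp (-(ε * m / 2))) * ‖a‖ :=
      mul_nonneg (mul_nonneg (by positivity) hβ2) (norm_nonneg a)
    have h1 := hCS A (Fin K) (Fin M) (B2 ω e lv ε a) _ x y h0 hFB2
    have h2 : ∑ p, ∑ i, ∑ k, B2 ω e lv ε a i k • (x p i * star (y p k)) = Z4 := by
      refine sum_congr rfl fun p _ => ?_
      have := pull e (fun i => sk ε N (lv i)) h hh.le (B2 ω e lv ε a) (R p) (R p * H * R p)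
      rw [star_mul, star_mul, hRs p, hHs, ← mul_assoc (R p) H (R p)] at this
      exact this
    rw [h2] at h1
    refine h1.trans (mul_le_of_le_one_right h0 ?_)
    exact mul_le_one₀ (Real.sqrt_le_one.2 hxx) (Real.sqrt_nonneg _) (Real.sqrt_le_one.2 hyy)
  have hTb : ∀ (T : A) (Q : Fin M → A), (∀ p, ‖Q p‖ ≤ ‖R p‖) →
      ‖∑ p, h • (R p * T * Q p)‖ ≤ ‖T‖ := by
    intro T Q hQ
    calc ‖∑ p, h • (R p * T * Q p)‖ ≤ ∑ p, ‖h • (R p * T * Q p)‖ := norm_sum_le _ _
      _ ≤ ∑ p, h * ‖R p‖ ^ 2 * ‖T‖ := by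
        refine sum_le_sum fun p _ => ?_
        rw [norm_smul, Real.norm_of_nonneg hh.le]
        have h1 : ‖R p * T * Q p‖ ≤ ‖R p‖ * ‖T‖ * ‖R p‖ := by
          refine (norm_mul_le _ _).trans ?_
          exact mul_le_mul (norm_mul_le _ _) (hQ p) (norm_nonneg _) (by positivity)
        calc h * ‖R p * T * Q p‖ ≤ h * (‖R p‖ * ‖T‖ * ‖R p‖) :=
              mul_le_mul_of_nonneg_left h1 hh.le
          _ = _ := by ring
      _ = (∑ p, h * ‖R p‖ ^ 2) * ‖T‖ := by rw [sum_mul]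
      _ ≤ 1 * ‖T‖ := mul_le_mul_of_nonneg_right hR2 (norm_nonneg _)
      _ = ‖T‖ := one_mul _
  have hQ : ∀ p, ‖R p * H * R p‖ ≤ ‖R p‖ := by
    intro p
    rw [mul_assoc]
    exact (norm_mul_le _ _).trans (mul_le_of_le_one_right (norm_nonneg _) (hHR p))
  have hn2 : ‖Z2‖ ≤ τ * ‖a‖ := (hTb _ R fun p => le_rfl).trans hT1
  have hn5 : ‖Z5‖ ≤ τ * ‖a‖ := (hTb _ _ hQ).trans hT2
  have hn6 : ‖Z6‖ ≤ τ * ‖a‖ := (hTb _ _ hQ).trans hT1
  have hn3 : ‖a * (1 - ∑ j, h • (H * R j * R j))‖ ≤ ‖a‖ * ‖1 - ∑ j, h • (H * R j * R j)‖ :=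
    norm_mul_le _ _
  rw [hsum, hmain]
  have htri : ‖Z1 - Z2 - a * (1 - ∑ j, h • (H * R j * R j)) - Z4 - Z5 + Z6‖ ≤
      ‖Z1‖ + ‖Z2‖ + ‖a * (1 - ∑ j, h • (H * R j * R j))‖ + ‖Z4‖ + ‖Z5‖ + ‖Z6‖ := by
    have t1 := norm_sub_le Z1 Z2
    have t2 := norm_sub_le (Z1 - Z2) (a * (1 - ∑ j, h • (H * R j * R j)))
    have t3 := norm_sub_le (Z1 - Z2 - a * (1 - ∑ j, h • (H * R j * R j))) Z4
    have t4 := norm_sub_le (Z1 - Z2 - a * (1 - ∑ j, h • (H * R j * R j)) - Z4) Z5
    have t5 := norm_add_le (Z1 - Z2 - a * (1 - ∑ j, h • (H * R j * R j)) - Z4 - Z5) Z6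
    linarith
  refine htri.trans ?_
  calc ‖Z1‖ + ‖Z2‖ + ‖a * (1 - ∑ j, h • (H * R j * R j))‖ + ‖Z4‖ + ‖Z5‖ + ‖Z6‖
      ≤ (2 * m + 1) * (Real.exp (ε * m / 2) - 1) * ‖a‖ + τ * ‖a‖ +
        ‖a‖ * ‖1 - ∑ j, h • (H * R j * R j)‖ +
        (2 * m + 1) * (Real.exp (ε * m / 2) - Real.exp (-(ε * m / 2))) * ‖a‖ + τ * ‖a‖ +
        τ * ‖a‖ := by linarith
    _ = _ := by ring

end

end Pool.Agent.N635.SG
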